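import Mathlib
import Pool.Agent.Lib.MP_4ca46c_ag.Div.Spec

/-!
# Specification A: from the conjecture of Künneth type for a net to the Lefschetz conjecture

Linear algebra and Weil cohomology theories in the abstract sense (`Geo.WeilCohomology`).
`Y` is the total space of a pencil of hyperplane sections of `X`, `p : Y ⟶ X`, `η ∈ H^2(Y)` the
class of a fibre `ι : V ⟶ Y`; `dim Y = dim X`, `dim V = dim X - 1`.
-/

namespace Pool.Agent.Lib.MP_4ca46c_ag.T2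

open CategoryTheory Limits AlgebraicGeometry MonoidalCategory CartesianMonoidalCategory Finset
  TensorProduct
open Pool.Agent.Lib.MP_4ca46c_ag.Sign Pool.Agent.Lib.MP_4ca46c_ag.Hyp
open Pool.Agent.Lib.MP_4ca46c_ag.Std Pool.Agent.Lib.MP_4ca46c_ag.Div

section Linear

/-- **A2.01 (linear algebra).** An element `η` of square zero which satisfies a relation on
`V ⊗ V` is von Neumann regular.

PROOF. Write `δ = LL η = η ⊗ 1 + 1 ⊗ η` and `ηη = map η η`. The relation is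
(R) `(ηη w δ - δ w ηη) pr_c = ηη pr_c`, `pr_c = Z.pr c`.
(1) Among the idempotents of `G.R 0` of the form `g * η` with `g ∈ G.R (-1)` (for instance `0`)
choose one, `e = g η`, of maximal rank (`finrank` of the range). Replace `g` by `g η g`
(in `G.R (-1)`), so that `e = g η` (as `e e = e`) and `g η g = g`. Put `f = 1 - g η`,
`f' = 1 - η g`: idempotents in `G.R 0`, `η f = f' η = η - η g η`.
(2) `η f ∈ G.N 1`. Otherwise there is `b ∈ G.R (-1)` with `tr (b η f) ≠ 0`. Then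
`y = f b η f ∈ G.R 0` has `tr y = tr (b η f) ≠ 0` (`f f = f`), so `y` is not nilpotent. By the
Fitting decomposition there is a polynomial `P` with `P(0) = 0` such that `e' = P(y)` is a nonzero
idempotent (e.g. `End V ⊇ K[y]` is Artinian; or: `minpoly = X^a Q` with `Q(0) ≠ 0`, `X^(a+1)` and
`Q` are coprime, choose `P` with `P ≡ 0 mod X^(a+1)`, `P ≡ 1 mod Q`). `e' = q y` with
`q ∈ G.R 0`, so `e' = (q f b) η f = g' η f`, `g' ∈ G.R (-1)`; and
`e' = f e' = e' f`. So `e e' = e' e = 0` (`e f = f e = 0`) and `e + e'` is an idempotent, of rank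
`rank e + rank e'`. And `e' = g' η (1 - g η) = (g' - g' η g) η`, so `e + e'` has the form
`g'' η`: contradiction.
(3) Let `E = map (η f) (η f) = ηη (f ⊗ f) = (f' ⊗ f') ηη`, so
`E = (f' ⊗ f') E = E (f ⊗ f)`. Multiply (R) by `f' ⊗ f'` on the left and by `f ⊗ f` on the right
(`f ⊗ f` has degree `0`, so it commutes with `pr_c`, `G.comm0` for `Z`):
`E pr_c = (E w δ (f ⊗ f) - (f' ⊗ f') δ w E) pr_c = (E a - b E) pr_c` with
`a = (f ⊗ f) w δ (f ⊗ f)`, `b = (f' ⊗ f') δ w (f' ⊗ f')`.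
Now `δ (f ⊗ f) = (η f) ⊗ f + f ⊗ (η f) ∈ Z.N 1` by (2) and `StAB` (`tAB` in `Sign/AB.lean`), and
`(f' ⊗ f') δ = (f' η) ⊗ f' + f' ⊗ (f' η) ∈ Z.N 1`; so `a, b ∈ Z.N 0` (`GrAlg.N_left`,
`GrAlg.N_right`) are nilpotent (`GrAlg.N_nilpotent`). With `E_c = E pr_c`: `E_c = E_c a - b E_c`,
so `E_c (1 - a) = - b E_c`, `E_c (1 - a)^m = (-b)^m E_c` for all `m`, which is `0` for large `m`;
`1 - a` is invertible, so `E_c = 0`. The sum of the `pr_c`, `0 ≤ c ≤ 4n`, is `1`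
(`prZ`, `LefMod.sum`, `LefMod.out`), so `E = 0`, so `η f = 0` (a tensor `x ⊗ x` of an operator
`x ≠ 0` is not `0`), that is, `η = η g η`. -/
def StVR : Prop := ∀ (K V : Type) [Field K] [CharZero K] [AddCommGroup V] [Module K V]
  [FiniteDimensional K V] (G : GrAlg K V) (Z : GrAlg K (V ⊗[K] V)) (n : ℕ)
  (L η : Module.End K V), Square G Z n L → η ∈ G.R 1 → η * η = 0 →
  (∀ c : ℤ, ∃ w ∈ Z.R (-1),
    (TensorProduct.map η η * w * LL η - LL η * w * TensorProduct.map η η) * Z.pr c =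
      TensorProduct.map η η * Z.pr c) →
  ∃ g ∈ G.R (-1), η * g * η = η

end Linear

section Abstract

variable {K : Type} [Field K] [CharZero K] {𝒱 : Type 1} [Category.{0} 𝒱]
  [CartesianMonoidalCategory 𝒱] (W : Geo.WeilCohomology K 𝒱)

/-- The algebraic operators with coefficients in `K`. -/
def SC (X Y : 𝒱) (r : ℤ) : Submodule K (W.H Y →ₗ[K] W.H X) :=
  Submodule.span K (W.Cor X Y r : Set (W.H Y →ₗ[K] W.H X))

/-- The relation for the class `δ` on `H^m(Z)`. -/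
def NetRel (Z : 𝒱) (δ : W.H Z) (m : ℕ) : Prop :=
  ∃ w ∈ W.Cor Z Z (-1), ∀ z ∈ W.gr Z m,
    δ * (δ * z) = δ * (δ * w (δ * z)) - δ * w (δ * (δ * z))

/-- The total space `Y` of a pencil of hyperplane sections of `X`, with a fibre `V`. -/
structure Pencil (X Y V : 𝒱) (p : Y ⟶ X) (ι : V ⟶ Y) (h : W.H X) (η : W.H Y) (q : ℚ) :
    Prop where
  h_alg : h ∈ W.Alg X 1
  hard : HL W X h
  η_alg : η ∈ W.Alg Y 1
  q_ne : q ≠ 0
  dimY : W.dim Y = W.dim X
  dimV : W.dim V + 1 = W.dim X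
  push_one : W.push p 1 = (q : K) • 1
  push_η : W.push p η = h
  push_ι : W.push ι 1 = η
  pull_η : W.pull ι η = 0
  spanY : ∀ i < W.dim X, ∀ y ∈ W.gr Y i, ∃ a ∈ W.gr X i, ∃ b, (2 ≤ i → b ∈ W.gr X (i - 2)) ∧
    (i < 2 → b = 0) ∧ y = W.pull p a + η * W.pull p b
  spanV : ∀ i < W.dim V, ∀ v ∈ W.gr V i, ∃ x ∈ W.gr X i, W.pull (ι ≫ p) x = v

end Abstract

section AbstractStatements

/-- **A2.02.** From the relation on `X × X` to `η g η = η`. (May use `StVR`.)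

PROOF. `opv_data` (`Sign/OpV.lean`) gives `OpData n pr L A B` for `V = H(X)` (`n = dim X`,
`L` the multiplication by `h`, `A r = Cor X X r`, `B r` the transport of `Cor (X ⊗ X) (X ⊗ X) r` by
`kun`), and `sgn n pr = eps X` (`opv_sgn`) is in `A 0` since `eps X = 2 even X - 1` (`eps_eq`). So
`StSpan` (`tSpan`, `Sign/Span.lean`) gives `G`, `Z` with `G.pr = pr`, `G.R r = span (A r)`,
`Z.R r = span (B r)` and `Square G Z n L`. Let `η'` be the multiplication by `η`: it is in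
`A 1` (`cor_mul`) and `η' η' = 0`. Under `kun` the operator `LL η'` is the multiplication by
`δ = tm η 1 + tm 1 η` and `map η' η'` the multiplication by `tm η η` (`kun_LL` in `Geo/Lef.lean` has
the first for `h`; `tm_mul`, `ind_tm`). `δ * δ = 2 tm η η` (`tm_mul`, `η * η = 0`). The relation
`NetRel` for `m` divided by `2` is the relation in `StVR` for `c = m ≥ 0` (`Z.pr c` is the
transport of `pi (X ⊗ X) c`: `opv_prT`); for `c < 0` take `w = 0` (`Z.pr c = 0`). So `StVR` gives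
`g ∈ G.R (-1) = SC W X X (-1)`. -/
def StEGE : Prop := ∀ (K : Type) [Field K] [CharZero K] (𝒱 : Type 1) [Category.{0} 𝒱]
  [CartesianMonoidalCategory 𝒱] (W : Geo.WeilCohomology K 𝒱) (X : 𝒱) (h η : W.H X),
  h ∈ W.Alg X 1 → HL W X h → W.even X ∈ W.Cor X X 0 → η ∈ W.Alg X 1 → η * η = 0 →
  (∀ m, NetRel W (X ⊗ X) (W.tm η 1 + W.tm 1 η) m) →
  ∃ g ∈ SC W X X (-1), ∀ x, η * g (η * x) = η * x

/-- **A2.03.** The transpose, for two varieties.

PROOF. As `tTrp` (`Div/Trp.lean`): if `f = op u`, `u ∈ Alg (X ⊗ Y) (dim Y + r)`, let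
`u' = pull (lift (snd Y X) (fst Y X)) u ∈ Alg (Y ⊗ X) (dim Y + r)` and `f' = op u'`, an element of
`Cor Y X r'` with `dim X + r' = dim Y + r`. `tr (f' x * y) = tr (x * f y)` as in `tTrp` (if
`x ∈ H^i(X)`, `y ∈ H^j(Y)` and the degrees do not match, both sides are `0`). -/
def StTrp2 : Prop := ∀ (K : Type) [Field K] [CharZero K] (𝒱 : Type 1) [Category.{0} 𝒱]
  [CartesianMonoidalCategory 𝒱] (W : Geo.WeilCohomology K 𝒱) (X Y : 𝒱) (r : ℤ),
  ∀ f ∈ W.Cor X Y r, ∃ f' ∈ W.Cor Y X (r + W.dim Y - W.dim X),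
    ∀ x y, W.tr Y (f' x * y) = W.tr X (x * f y)

/-- **A2.04.** A common left inverse of `h^2`.

PROOF. Let `n = dim V`. By `Lefschetz.kunneth` (`Geo/Hard.lean`; `HL` gives the hypothesis `hard`)
and `kunneth_iff` the projectors `pi V i` are in `Cor V V 0`. For `a + 2 ≤ n` let
`θ_a ∈ Cor V V (-(n - a))` be from `lefschetz_iff`, `θ_a (h^(n - a) x) = x` on `H^a(V)`. Put
`Λ2 = ∑_(a + 2 ≤ n) θ_a ∘ mul (h^(n - a - 2)) ∘ pi V (a + 4) ∈ Cor V V (-2)`. For `x ∈ H^a(V)`,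
`a + 2 ≤ n`: `h^2 x ∈ H^(a+4)(V)`, so only the term `a` acts, and gives `θ_a (h^(n-a) x) = x`. -/
def StLam2 : Prop := ∀ (K : Type) [Field K] [CharZero K] (𝒱 : Type 1) [Category.{0} 𝒱]
  [CartesianMonoidalCategory 𝒱] (W : Geo.WeilCohomology K 𝒱) (V : 𝒱) (h : W.H V),
  h ∈ W.Alg V 1 → HL W V h → W.Lefschetz V h →
  ∃ Λ2 ∈ W.Cor V V (-2), ∀ a, a + 2 ≤ W.dim V → ∀ x ∈ W.gr V a, Λ2 (h ^ 2 * x) = x

/-- **A2.05.** The Lefschetz conjecture for `X`, with coefficients in `K`. (May use `StTrp2`,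
`StLam2`.)

PROOF. Let `n = dim X ≥ 2`, `i = ι ≫ p : V ⟶ X`, `h_V = i^* h`, and write `f_*` for `W.push f`.
Facts: `η η = ι_*(1) η = ι_* (ι^* η) = 0` (projection formula, from `push_spec`, `push_eq`);
`i_* = p_* ι_*`, `i_* 1 = h`, `i_* i^* x = h x`, `ι_* ι^* y = η y`, `p_* (p^* x) = q x`,
`p_* (η p^* x) = h x`, `i^* h = h_V`. (`push` of a composition, projection formula: both by
`ext_tr` and `push_spec`.) Let `Λ2 ∈ Cor V V (-2)` be from `StLam2`.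
Elements of `SC` compose and are stable under addition and composition with elements of `Cor`
(`Submodule.span_induction`, `cor_comp`).
(1) For `v ∈ H^m(V)`, `m ≤ n - 1`, there is `x ∈ H^m(X)` with `ι_* v = η p^* x`. For
`m < n - 1 = dim V`: `v = i^* x = ι^* p^* x` by `spanV`, and `ι_* ι^* = η`. For `m = n - 1`: by
hard Lefschetz (`h : H^(n-1)(X) ⟶ H^(n+1)(X)` is surjective) `i_* v = h x = i_* i^* x` with
`x ∈ H^(n-1)(X)`; `v' = v - i^* x` has `i_* v' = 0`. Then `ι_* v' = 0`: for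
`w ∈ H^(n-1)(Y)`, `w = p^* a + η p^* b` (`spanY`), so `ι^* w = i^* a` (`pull_η`) and
`tr (ι_* v' w) = tr (v' i^* a) = tr (i_* v' a) = 0`; for `w` of other degrees the trace is `0`.
(`ι_* v' ∈ H^(n+1)(Y)`, `dim Y = n`.) So `ι_* v = ι_* i^* x = η p^* x`.
(2) Hence `η g ι_* v = ι_* v` for `v ∈ H^m(V)`, `m ≤ n - 1`.
(3) Let `e = ι^* g ι_* : H(V) ⟶ H(V)`, `A = p_* g ι_* : H(V) ⟶ H(X)` and
`s = q⁻¹ (A - i_* Λ2 i^* (h A - q i_* e)) : H(V) ⟶ H(X)`, `s ∈ SC W X V 0`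
(the degrees are: `ι_*` has degree `dim Y - dim V = 1`, `g` degree `-1`, `p_*` degree `0`,
`i_*` degree `1`, `Λ2` degree `-2`, `h` degree `1`).
CLAIM: `h s v = i_* v` for `v ∈ H^m(V)`, `m ≤ n - 1`. Let `w = g ι_* v ∈ H^m(Y)` (elements of
`SC _ _ _ r` shift the degree by `2r`: `cor_gr`), `w = p^* a + η p^* b` by `spanY`. Then
`e v = ι^* w = i^* a`, `A v = q a + h b`, so `h A v - q i_* e v = q h a + h^2 b - q h a = h^2 b`;
`i^* (h^2 b) = h_V^2 i^* b` with `i^* b ∈ H^(m-2)(V)`, `m - 2 + 2 ≤ n - 1 = dim V`, so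
`Λ2 i^* (h^2 b) = i^* b` and `i_* i^* b = h b` (for `m < 2`, `b = 0`). So `s v = a`. And
`h a = i_* i^* a = i_* e v = p_* ι_* ι^* w = p_* (η w) = p_* (η g ι_* v) = p_* ι_* v = i_* v` by (2).
(4) Let `s' : H(X) ⟶ H(V)` be the transpose, `tr (s' x * v) = tr (x * s v)`,
`s' ∈ SC W V X (-1)` (`StTrp2`, by linearity). For `x ∈ H^d(X)` with `d ≥ n - 1`:
`s' (h x) = i^* x`. Both sides are in `H^d(V)`; for `v ∈ H^m(V)` with `m = 2(n-1) - d ≤ n - 1`:
`tr (s' (h x) v) = tr (h x (s v)) = ± ..`: use `tr (h x * s v) = tr (x * (h * s v))`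
(`h` is central) `= tr (x * i_* v) = tr (i^* x * v)` (`push_spec` and graded commutativity
`tr_comm`, or the transpose of `i_*`); for `v` of other degrees both traces are `0`.
(5) For `1 ≤ j`, `a + j = n`, let `θ' ∈ Cor V V (-(j - 1))` with `θ' (h_V^(j-1) y) = y` on
`H^a(V)` (`a + (j - 1) = dim V`, `lefschetz_iff`). Then `θ = s θ' s' ∈ SC W X X (-j)`, and for
`x ∈ H^a(X)`: `h^j x = h (h^(j-1) x)`, `h^(j-1) x ∈ H^(a + 2j - 2)(X)` and
`a + 2j - 2 = n + j - 2 ≥ n - 1`, so `s' (h^j x) = i^* (h^(j-1) x) = h_V^(j-1) i^* x`,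
`θ' s' h^j x = i^* x`, and `s i^* x = x`: `h s i^* x = i_* i^* x = h x` by (3)
(`i^* x ∈ H^a(V)`, `a ≤ n - 1`), and `h` is injective on `H^a(X)` since `a < n` (`HL`). -/
def StPen : Prop := ∀ (K : Type) [Field K] [CharZero K] (𝒱 : Type 1) [Category.{0} 𝒱]
  [CartesianMonoidalCategory 𝒱] (W : Geo.WeilCohomology K 𝒱) (X Y V : 𝒱) (p : Y ⟶ X)
  (ι : V ⟶ Y) (h : W.H X) (η : W.H Y) (q : ℚ), Pencil W X Y V p ι h η q → 2 ≤ W.dim X →
  (∃ g ∈ SC W Y Y (-1), ∀ y, η * g (η * y) = η * y) → HL W V (W.pull (ι ≫ p) h) →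
  W.Lefschetz V (W.pull (ι ≫ p) h) →
  ∀ a j : ℕ, 1 ≤ j → a + j = W.dim X →
    ∃ θ ∈ SC W X X (-(j : ℤ)), ∀ x ∈ W.gr X a, θ (h ^ j * x) = x

/-- **A2.06.** Rational coefficients.

PROOF. `StRat` (`tRat` in `Sign/Rat.lean`) for `OpData` from `opv_data` (fields `lef`, `ratA`,
`L_mem`, `trace`), `pr i = pi X i`, gives for `i < n` a `θ ∈ Cor X X (-(n - i))` with
`θ (h^(n-i) x) = x` on `H^i(X)` (`opv_pow`, `opv_fix`); for `i = n` take `θ = id`. Then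
`lefschetz_iff`. -/
def StRatL : Prop := ∀ (K : Type) [Field K] [CharZero K] (𝒱 : Type 1) [Category.{0} 𝒱]
  [CartesianMonoidalCategory 𝒱] (W : Geo.WeilCohomology K 𝒱) (X : 𝒱) (h : W.H X),
  h ∈ W.Alg X 1 → HL W X h →
  (∀ a j : ℕ, 1 ≤ j → a + j = W.dim X →
    ∃ θ ∈ SC W X X (-(j : ℤ)), ∀ x ∈ W.gr X a, θ (h ^ j * x) = x) → W.Lefschetz X h

/-- **A2.07.** Varieties of dimension at most one.

PROOF. `lefschetz_iff`. Let `n = dim X`, `c = tr (h^n)`, a rational number (`alg_tr`), and not `0`: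
otherwise `tr (h^n v) = 0` for all homogeneous `v` (`v ∈ H^0` is a multiple of `1`:
`connected`), so `h^n = 0` (`duality`), which contradicts `HL` (`x = 1 ≠ 0`; `1 ≠ 0` since there is
a point, `exists_pt`). For `i = 0`, `j = n`: `tLI0` (`Div/LI0.lean`). For `i = 1`, `j = 0`
(`n = 1`): `f = id`. -/
def StSmall : Prop := ∀ (K : Type) [Field K] [CharZero K] (𝒱 : Type 1) [Category.{0} 𝒱]
  [CartesianMonoidalCategory 𝒱] (W : Geo.WeilCohomology K 𝒱) (X : 𝒱) (h : W.H X),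
  h ∈ W.Alg X 1 → HL W X h → W.dim X ≤ 1 → W.Lefschetz X h

/-- **A2.08.** The class of a pencil: from the product `X × P`, `P = ℙ^1`, to `Pencil`.

`j : Y ⟶ X ⊗ P` has class `h ⊗ 1 + 1 ⊗ t`, `V` is the fibre over a point of `P`.

PROOF. `p = j ≫ fst`, `f = j ≫ snd`, `η = f^* t`.
`push_one`: `j_* 1 = tm h 1 + tm 1 t` (hypothesis), `fst_* (tm x y) = tr y • x`
(`tr_tensor`, `push_eq`); `fst_* (tm h 1) = tr 1 • h = 0` (degree, `dim P = 1`), so
`p_* 1 = fst_* j_* 1 = q • 1`, `q = tr t`. `push_η`: `p_* η = p_* ι_* 1 = h` (push-forward of a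
composition: `ext_tr`, `push_spec`). `spanY`: `y = j^* z` with
`z ∈ H^i(X ⊗ P)` by the hypothesis `weak`, and by the Künneth formula and `span`
`z = tm a 1 + tm b' t` with `a ∈ H^i(X)`, `b' ∈ H^(i-2)(X)` (take the homogeneous parts; compare
`Div/Phi.lean`, `Div/Y.lean`), and `j^* (tm a 1 + tm b' t) = p^* a + p^* b' * η`
`= p^* a + η * p^* b'` (`η` is central, it has even degree). -/
def StPenAbs : Prop := ∀ (K : Type) [Field K] [CharZero K] (𝒱 : Type 1) [Category.{0} 𝒱]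
  [CartesianMonoidalCategory 𝒱] (W : Geo.WeilCohomology K 𝒱) (X Y V P : 𝒱) (j : Y ⟶ X ⊗ P)
  (ι : V ⟶ Y) (h : W.H X) (t : W.H P) (q : ℚ), h ∈ W.Alg X 1 → HL W X h → t ∈ W.Alg P 1 →
  W.dim P = 1 → W.dim Y = W.dim X → W.dim V + 1 = W.dim X → q ≠ 0 → W.tr P t = q →
  (∀ v : W.H P, ∃ c c' : K, v = c • 1 + c' • t) →
  W.push j 1 = W.tm h 1 + W.tm 1 t →
  W.push ι 1 = W.pull (j ≫ snd X P) t → W.pull ι (W.pull (j ≫ snd X P) t) = 0 →
  W.push (ι ≫ j ≫ fst X P) 1 = h →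
  (∀ i < W.dim X, ∀ y ∈ W.gr Y i, ∃ z ∈ W.gr (X ⊗ P) i, W.pull j z = y) →
  (∀ i < W.dim V, ∀ v ∈ W.gr V i, ∃ x ∈ W.gr X i, W.pull (ι ≫ j ≫ fst X P) x = v) →
  Pencil W X Y V (j ≫ fst X P) ι h (W.pull (j ≫ snd X P) t) q

end AbstractStatements

end Pool.Agent.Lib.MP_4ca46c_ag.T2
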