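import Mathlib
import Pool.Agent.Lib.MP_4ca46c_ag.T2.SpecA
import Pool.Agent.Lib.MP_4ca46c_ag.Vtc.BC
import Pool.Agent.Lib.MP_4ca46c_ag.Std.GenV

/-!
# Specification G: geometry

`IsZero E b a toB toY`: the closed subscheme `∑ a_j x_j = 0` of `Y ×_k B`. Bertini's theorem for
hyperplane sections outside a hypersurface, pencils of hyperplane sections.
-/

namespace Pool.Agent.Lib.MP_4ca46c_ag.T2

open CategoryTheory Limits AlgebraicGeometry
open Pool.Agent.Lib.MP_4ca46c_ag.Sign Pool.Agent.Lib.MP_4ca46c_ag.Hyp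
open Pool.Agent.Lib.MP_4ca46c_ag.Std Pool.Agent.Lib.MP_4ca46c_ag.Div
open Pool.Agent.Lib.MP_4ca46c_ag.Vtc

section Defs

variable {k₀ : Type} [Field k₀]

/-- The element `a` of `F` as a function on `Spec F`. -/
noncomputable def cf (k₀ : Type) [Field k₀] {F : Type} [Field F] [Algebra k₀ F] (a : F) :
    Γ((pt k₀ F).left, ⊤) := (Scheme.ΓSpecIso (CommRingCat.of F)).inv a

variable {k : Type} [Field k] [Algebra k₀ k]

/-- The condition that the point `u` of the projective space lies on `∑ a_j x_j = 0`. -/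
def VanO {κ : Type} [Fintype κ] {T : Sch k₀} (u : T ⟶ PSo k₀ k κ) (a : κ → Γ(T.left, ⊤)) : Prop :=
  (PreCoord.ps k κ).Van u.left a

/-- Let `x_j`, `j ∈ κ`, be the homogeneous coordinates given by `E : Y ⟶ ℙ`, and `a_j` functions on
a scheme `B` over `k`. Then `D` is the closed subscheme `∑ a_j x_j = 0` of `Y ×_k B`. -/
structure IsZero {κ : Type} [Fintype κ] {Y : Sch k₀} (E : Y ⟶ PSo k₀ k κ) {B : Sch k₀}
    (b : B ⟶ pt k₀ k) (a : κ → Γ(B.left, ⊤)) {D : Sch k₀} (toB : D ⟶ B) (toY : D ⟶ Y) :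
    Prop where
  comm : toY ≫ E ≫ PSo.str k₀ k κ = toB ≫ b
  closed : IsClosedImmersion (pullback.lift toY toB comm).left
  iff : ∀ (T : Sch k₀) (t : T ⟶ B) (u : T ⟶ Y), u ≫ E ≫ PSo.str k₀ k κ = t ≫ b →
    ((∃ v, v ≫ toB = t ∧ v ≫ toY = u) ↔ VanO (u ≫ E) (fun j => t.left.appTop (a j)))

/-- The projective line. -/
noncomputable abbrev P1 (k₀ k : Type) [Field k₀] [Field k] [Algebra k₀ k] : Sch k₀ :=
  PSo k₀ k (Fin 2)

/-- The structure morphism of the projective line. -/
noncomputable abbrev s1 (k₀ k : Type) [Field k₀] [Field k] [Algebra k₀ k] :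
    P1 k₀ k ⟶ pt k₀ k := PSo.str k₀ k (Fin 2)

/-- The coordinates `x_i y_j` on `X × ℙ^1`. -/
noncomputable def sgE {κ : Type} {X : Sch k₀} (x : X ⟶ pt k₀ k) (e : X ⟶ PSo k₀ k κ)
    (he : e ≫ PSo.str k₀ k κ = x) : pullback x (s1 k₀ k) ⟶ PSo k₀ k (κ × Fin 2) :=
  pullback.lift (f := PSo.str k₀ k κ) (g := s1 k₀ k) (pullback.fst x (s1 k₀ k) ≫ e)
    (pullback.snd x (s1 k₀ k)) (by rw [Category.assoc, he, pullback.condition]) ≫
    segO k₀ k κ (Fin 2)

/-- The constants of a scheme over `k`. -/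
noncomputable def cstHom {B : Sch k₀} (b : B ⟶ pt k₀ k) : k →+* Γ(B.left, ⊤) :=
  ((Scheme.ΓSpecIso (CommRingCat.of k)).inv ≫ b.left.appTop).hom

/-- **A pencil of hyperplane sections** of the projective variety `V` of dimension `m + 1`: the
closed subscheme `W` of `X × ℙ^1` given by `∑ a_(i,j) x_i y_j = 0`, and its fibre `Y` over the point
`y₁ = 0` of `ℙ^1`, given by `∑ a_(i,0) x_i = 0` in `X`. -/
structure GeoPencil (V : ProjVar k₀ k) (m : ℕ) where
  a : V.κ × Fin 2 → k
  a_ne : ∃ i, a (i, 0) ≠ 0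
  W : Sch k₀
  w : W ⟶ pt k₀ k
  j : W ⟶ pullback V.str (s1 k₀ k)
  isZeroW : IsZero (sgE V.str V.emb V.emb_str) (𝟙 (pt k₀ k)) (fun i => cf k₀ (a i)) w j
  smoothW : SmoothOfRelativeDimension (m + 1) w.left
  s : pt k₀ k ⟶ P1 k₀ k
  s_str : s ≫ s1 k₀ k = 𝟙 _
  isZero_s : IsZero (𝟙 (P1 k₀ k)) (𝟙 (pt k₀ k)) (fun i => cf k₀ ((![0, 1] : Fin 2 → k) i))
    (𝟙 (pt k₀ k)) s
  Y : Sch k₀
  y : Y ⟶ pt k₀ k
  ι : Y ⟶ W
  isFibre : IsPullback ι y (j ≫ pullback.snd _ _) s
  isZeroY : IsZero V.emb (𝟙 (pt k₀ k)) (fun i => cf k₀ (a (i, 0))) y (ι ≫ j ≫ pullback.fst _ _)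
  smoothY : SmoothOfRelativeDimension m y.left
  O : (P1 k₀ k).left.Opens
  s_mem : ∀ z, s.left z ∈ O
  smoothO : SmoothOfRelativeDimension m ((j ≫ pullback.snd _ _).left ∣_ O)

end Defs

section Statements

/-- **G2.01a. Zero schemes exist.**

PROOF. Let `C = (psCoord k κ).comap E.left (𝟙 Y.left) (..)` be the homogeneous coordinates of `E` on
`Y`, as a `Coord (𝟙 Y.left) κ` (`Hyp/ProjCoord.lean`, `Coord.comap`), and `C.inc : C.I ⟶ 𝔸(κ; Y)`
the universal hyperplane section, a closed immersion with `C.inc_iff` (`Hyp/Family.lean`): a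
morphism `t : T ⟶ 𝔸(κ; Y)` factors through it if and only if `C.Van` of its two components
holds. `D` is the pull-back of `C.inc` along the morphism `Y ×_k B ⟶ 𝔸(κ; Y)` with components
the projection to `Y` and the functions `a j` (`AffineSpace.homOfVector`). `C.Van u c` is
`(ps k κ).Van (u ≫ E) c` (`PreCoord.comap_van` in `Hyp/Square.lean`). -/
def StZeroEx : Prop := ∀ (k₀ k : Type) [Field k₀] [Field k] [Algebra k₀ k] (κ : Type) [Fintype κ]
  (Y : Sch k₀) (E : Y ⟶ PSo k₀ k κ) (B : Sch k₀) (b : B ⟶ pt k₀ k) (a : κ → Γ(B.left, ⊤)),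
  ∃ (D : Sch k₀) (toB : D ⟶ B) (toY : D ⟶ Y), IsZero E b a toB toY

/-- **G2.01b. Zero schemes and base change of `B`.**

PROOF. Universal properties. `pullback.lift (q ≫ toY) toB' ..` is a base change of
`pullback.lift toY toB ..`. In (2), the given morphism `q` exists by `iff`, and the square is
cartesian by `iff` and because `pullback.lift toY toB ..` is a monomorphism (a closed immersion);
`VanO` is unchanged because `(t ≫ c).left.appTop = ..`. -/
def StZeroB : Prop := ∀ (k₀ k : Type) [Field k₀] [Field k] [Algebra k₀ k] (κ : Type) [Fintype κ]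
  (Y : Sch k₀) (E : Y ⟶ PSo k₀ k κ) (B : Sch k₀) (b : B ⟶ pt k₀ k) (a : κ → Γ(B.left, ⊤))
  (D : Sch k₀) (toB : D ⟶ B) (toY : D ⟶ Y), IsZero E b a toB toY →
  ∀ (B' : Sch k₀) (c : B' ⟶ B) (D' : Sch k₀) (toB' : D' ⟶ B'),
  (∀ q : D' ⟶ D, IsPullback q toB' toB c →
    IsZero E (c ≫ b) (fun j => c.left.appTop (a j)) toB' (q ≫ toY)) ∧
  (∀ toY' : D' ⟶ Y, IsZero E (c ≫ b) (fun j => c.left.appTop (a j)) toB' toY' →
    ∃ q, IsPullback q toB' toB c ∧ q ≫ toY = toY')

/-- **G2.01c. Zero schemes and base change of `Y`.** PROOF. As for `StZeroB`. -/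
def StZeroY : Prop := ∀ (k₀ k : Type) [Field k₀] [Field k] [Algebra k₀ k] (κ : Type) [Fintype κ]
  (Y : Sch k₀) (E : Y ⟶ PSo k₀ k κ) (B : Sch k₀) (b : B ⟶ pt k₀ k) (a : κ → Γ(B.left, ⊤))
  (D : Sch k₀) (toB : D ⟶ B) (toY : D ⟶ Y), IsZero E b a toB toY →
  ∀ (Y' : Sch k₀) (g : Y' ⟶ Y) (D' : Sch k₀) (toY' : D' ⟶ Y'),
  (∀ q : D' ⟶ D, IsPullback q toY' toY g → IsZero (g ≫ E) b a (q ≫ toB) toY') ∧
  (∀ toB' : D' ⟶ B, IsZero (g ≫ E) b a toB' toY' →
    ∃ q, IsPullback q toY' toY g ∧ q ≫ toB = toB')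

/-- **G2.02. Bertini's theorem**, for all hyperplane sections outside a hypersurface.

PROOF. Let `R = MvPolynomial κ k`, `F` its fraction field, `u : I ⟶ Spec R` the universal family
`Fam (eCoord ..)`, `Fam.inc _ ≫ Aff.toSp κ x` (`Std/Aff.lean`), which is proper, so of finite type,
and of finite presentation (`R` is Noetherian). Its generic fibre `Y₀ = I ×_R Spec F` is smooth of
relative dimension `m` over `F` (`fSmoothGen` in `Std/Facts.lean`). `I` is covered by finitely many
affine open sets `Spec A`; `A ⊗_R F` is smooth over `F`, of relative dimension `m`. The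
non-smooth locus of `R ⟶ A` is a closed set `V(J)` (`Algebra.smoothLocus` is open), and no
point of it lies over the zero ideal of `R`: for such a prime `q`, `A_q` is a localization of
`A ⊗_R F`, which is smooth over `F`, and `F` is a localization of `R`. So
`J (A ⊗_R F) = A ⊗_R F`, and there is `0 ≠ r ∈ R` whose image is in `J`; so `A_r` is smooth over
`R`. (Or use `Scheme.Hom.smoothLocus`, an open set of `I`, and that `u` is a closed map: the image of
the complement is closed and does not contain the generic point.) So for a nonzero product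
`P` of such `r`, `u` is smooth over `D(P)`. The relative dimension there is `m`: it is locally
constant on the source, and every point of `u⁻¹ D(P)` is a specialization of a point over the
generic point of `Spec R`, because `u` is flat there (going down).
Now let `B`, `b`, `a`, `D` be given and let `P(a) = eval₂ (cstHom b) a P` be a unit. The functions
`a` give a morphism `c : B ⟶ Spec R` over `k` with image in `D(P)`, and `D ⟶ B` is the base change
of `u` along `c`: the universal family is a zero scheme over `Spec R` with coefficients `X j`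
(`C.inc_iff`, `Aff.isPullback_toSp`), use `StZeroB` (2). So `D ⟶ B` is smooth of relative dimension
`m`. -/
def StBertOpen : Prop := ∀ (k₀ k : Type) [Field k₀] [Field k] [Algebra k₀ k] (κ : Type)
  [Fintype κ] (X : Sch k₀) (x : X ⟶ pt k₀ k) (e : X ⟶ PSo k₀ k κ), e ≫ PSo.str k₀ k κ = x →
  IsClosedImmersion e.left → ∀ m : ℕ, SmoothOfRelativeDimension (m + 1) x.left →
  ∃ P : MvPolynomial κ k, P ≠ 0 ∧ ∀ (B : Sch k₀) (b : B ⟶ pt k₀ k) (a : κ → Γ(B.left, ⊤))
  (D : Sch k₀) (toB : D ⟶ B) (toX : D ⟶ X), IsZero e b a toB toX →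
  IsUnit (MvPolynomial.eval₂ (cstHom b) a P) → SmoothOfRelativeDimension m toB.left

/-- **G2.03. The complement of a hyperplane section is affine.**

PROOF. `StAffC` (`tAffC` in `Div/AffC.lean`): the complement `U₀` of `Fam.inc (pCoord k κ)` in
`Aff κ (PSo k₀ k κ)` is affine. The section `σ = Aff.sec a : PSo k₀ k κ ⟶ Aff κ (PSo k₀ k κ)`
(constant functions `a j`) is a closed immersion (a section of a separated morphism), and
`e ≫ σ` too. `D ⟶ X` is the pull-back of `Fam.inc (pCoord k κ)` along `e ≫ σ` (`van_zero_iff`,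
`IsZero.iff` for `B = Spec k`, `b = 𝟙`). So the complement of `toX` is the pull-back of `U₀` along
the closed immersion `e ≫ σ`: a closed subscheme of the affine scheme `U₀`. (`toX` is a closed
immersion: it is `pullback.lift toX toB _` followed by the isomorphism `X ×_k Spec k ≅ X`.) -/
def StAffZero : Prop := ∀ (k₀ k : Type) [Field k₀] [Field k] [Algebra k₀ k] (κ : Type)
  [Fintype κ] (X : Sch k₀) (x : X ⟶ pt k₀ k) (e : X ⟶ PSo k₀ k κ), e ≫ PSo.str k₀ k κ = x →
  IsClosedImmersion e.left → ∀ (a : κ → k) (D : Sch k₀) (d : D ⟶ pt k₀ k) (toX : D ⟶ X),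
  IsZero e (𝟙 (pt k₀ k)) (fun i => cf k₀ (a i)) d toX →
  ∃ (U : Sch k₀) (j : U ⟶ X), IsComplement toX j ∧ IsAffine U.left

/-- **G2.04. Pencils exist.** (May use all the statements above.)

PROOF. Let `κ = V.κ`. Let `P₁ ∈ k[κ]` be from `StBertOpen` for `V` (dimension `m + 1`) and
`P₂ ∈ k[κ × Fin 2]` from `StBertOpen` for the closed immersion
`sgE V.str V.emb _ : X × ℙ^1 ⟶ ℙ^(κ × 2)` (`segO_closed` and a base change of `V.emb`), dimension
`m + 2`. `k` is infinite, so there is `a ∈ k^(κ × 2)` with `P₂(a) ≠ 0`, `P₁(a(·, 0)) ≠ 0` and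
`a(i₀, 0) ≠ 0` for a chosen `i₀`: the product of `P₂`, `rename (·, 0) P₁` and `X (i₀, 0)` is a
nonzero polynomial (`rename` of an injective map is injective, `MvPolynomial.funext`). Let
`W`, `w`, `j` be the zero scheme of `sgE ..` over `B = Spec k`, `b = 𝟙` (`StZeroEx`): `w` is smooth
of relative dimension `m + 1`. Let `s` be the point `(1, 0)` of `ℙ^1` (`geo_point` in
`Std/GeoFacts.lean`; it lies in `psD 0` and its coordinate `x₁ / x₀` is `0`), which is the zero
scheme of the form `x₁`: if `u : T ⟶ ℙ^1` satisfies `VanO u (0, 1)` then `u` factors through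
`psD 0` (otherwise at some point `x₀ = 0 = x₁`) and `x₁ / x₀ = 0`, so `u = (T ⟶ Spec k) ≫ s`
(`ps_sep`). `Y` is the fibre product of `f = j ≫ snd` and `s`. A point of `Y` is a point of
`X × ℙ^1` of the form `(x, s)` on `W`; the form `∑ a_(i,j) x_i y_j` at `y = (1, 0)` is
`∑ a_(i,0) x_i`, so `isZeroY` holds (`segre_app`, compare `segre_hyp` in `Hyp/Segre.lean`), and `y`
is smooth of relative dimension `m` since `P₁(a(·, 0)) ≠ 0`.
`O`: on `D₀ = psD 0 ⊆ ℙ^1` let `τ = y₁ / y₀`, and let `a'_i = a_(i,0) + τ a_(i,1) ∈ Γ(D₀)` and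
`O = D₀.basicOpen (P₁(a'))`. For `y ∈ D₀` the form is a unit multiple of `∑ a'_i x_i`, so
`W|_(D₀) ⟶ D₀` is the zero scheme of `V.emb` over `B = D₀` with coefficients `a'`, and over `B = O`
`StBertOpen` applies. `τ` is `0` at `s`, so `P₁(a')` is `P₁(a(·, 0)) ≠ 0` at `s`: `s ∈ O`. -/
def StPencil : Prop := ∀ (k₀ k : Type) [Field k₀] [Field k] [Algebra k₀ k] [IsAlgClosed k]
  (V : ProjVar k₀ k) (m : ℕ), V.n = m + 1 → Nonempty (GeoPencil V m)

/-- **G2.05. Open subsets of the projective line.**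

PROOF. Let `z ∉ O`. `z` lies in a chart `psD i`, isomorphic to `Spec k[t]`, `t = x_(1-i) / x_i`, and
`O ⊓ psD i` is not empty (`ℙ^1` is irreducible: `tPS`, `tIrr`, `fStalk`, see `isVar_irreducible` in
`Std/PreConn.lean`). So the prime ideal `p` of `k[t]` given by `z` is not zero (otherwise `z` is the
generic point, which lies in every nonempty open subset), so `p = (t - c)`, `c ∈ k`, since `k` is
algebraically closed (`IsAlgClosed.degree_eq_one_of_irreducible`; `k[t]` is a principal ideal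
domain; or use `psD i ⟶ Spec k` locally of finite type and `z` closed: the residue field is finite
over `k`, so it is `k`; `pointEquivClosedPoint` in Mathlib, `IsVar.exists_point` in the library).
So `z` is the image of a `k`-rational point `e`. -/
def StRatPts : Prop := ∀ (k₀ k : Type) [Field k₀] [Field k] [Algebra k₀ k] [IsAlgClosed k]
  (O : (P1 k₀ k).left.Opens), (∃ z, z ∈ O) → ∀ z : (P1 k₀ k).left, z ∉ O →
  ∃ e : pt k₀ k ⟶ P1 k₀ k, e ≫ s1 k₀ k = 𝟙 _ ∧ z ∈ Set.range e.left

/-- **G2.06. A projective variety of dimension at least one meets every hyperplane.**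

PROOF. Suppose that `D` is empty. By `StAffZero` `X` is affine (the complement `U ⟶ X` of the
empty subscheme is surjective, so it is an isomorphism). `x` is proper and affine, so it is finite
(`IsFinite.iff_isProper_and_isAffineHom` or similar). `X` is not empty: let `z ∈ X`, and let
`A = Γ(X)`, a finite `k`-algebra, smooth over `k` of relative dimension `m + 1`. So `A` is
artinian and reduced, a finite product of copies of `k` (or: `X` has the discrete topology, and the
local ring at `z` is a regular local ring of dimension `m + 1` and of dimension `0`; or: there is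
an open neighbourhood of `z` with an étale map to `𝔸^(m+1)`, and its image is open and finite,
which is impossible since `𝔸^(m+1)` has no finite nonempty open subset; or: the module of
differentials of `A` over `k` is `0` and locally free of rank `m + 1`). Contradiction. -/
def StMeets : Prop := ∀ (k₀ k : Type) [Field k₀] [Field k] [Algebra k₀ k] [IsAlgClosed k]
  (κ : Type) [Fintype κ] (X : Sch k₀) (x : X ⟶ pt k₀ k) (e : X ⟶ PSo k₀ k κ),
  e ≫ PSo.str k₀ k κ = x → IsClosedImmersion e.left → ∀ m : ℕ,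
  SmoothOfRelativeDimension (m + 1) x.left → IsProper x.left → Nonempty X.left →
  ∀ (a : κ → k) (D : Sch k₀) (d : D ⟶ pt k₀ k) (toX : D ⟶ X),
  IsZero e (𝟙 (pt k₀ k)) (fun i => cf k₀ (a i)) d toX → Nonempty D.left

/-- **G2.07. The pencil has a base point.** (May use `StMeets`, `StZeroEx`, `StZeroY`,
`StAffZero`.)

PROOF. Let `V.n = m + 1`, `1 ≤ m`. By `StMeets` for `V.emb` and `a (·, 0)` the scheme `G.Y` is not
empty. `e' = G.ι ≫ G.j ≫ fst ≫ V.emb : G.Y ⟶ ℙ` is a closed immersion (`isZeroY.closed`), `G.y` is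
proper (as `V.str` is) and smooth of relative dimension `m ≥ 1`. By `StMeets` for `e'` and
`a (·, 1)` the zero scheme `D ⟶ G.Y` (`StZeroEx`) is not empty. `D` is of finite type over
the algebraically closed field `k`, so it has a rational point `pt k₀ k ⟶ D` over `k` (compare
`IsVar.exists_point`); let `β : pt k₀ k ⟶ V.X` be its image. Then `β ≫ V.emb` lies on both
hyperplanes `∑ a_(i,0) x_i = 0` and `∑ a_(i,1) x_i = 0`. The point `(s1 ≫ β, 𝟙) : ℙ^1 ⟶ X × ℙ^1`
satisfies the equation `∑ a_(i,j) x_i y_j = 0` (locally on `ℙ^1`, where `y_j = 1` for one `j`: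
`segre_app`, `segre_pre` in `Hyp/Segre.lean`, `PreCoord.van_iff_of_le`), so it lifts to
`σ : ℙ^1 ⟶ W` by `isZeroW.iff`. -/
def StSection : Prop := ∀ (k₀ k : Type) [Field k₀] [Field k] [Algebra k₀ k] [IsAlgClosed k]
  (V : ProjVar k₀ k) (m : ℕ), 1 ≤ m → V.n = m + 1 → ∀ G : GeoPencil V m,
  ∃ σ : P1 k₀ k ⟶ G.W, σ ≫ G.j ≫ pullback.snd _ _ = 𝟙 _

end Statements

end Pool.Agent.Lib.MP_4ca46c_ag.T2
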