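import Mathlib
import Pool.Agent.Lib.MP_4ca46c_ag.T2.SpecG
import Pool.Agent.Lib.MP_4ca46c_ag.Two.SpecU
import Pool.Agent.Lib.MP_4ca46c_ag.Div.Statement

/-!
# Specification T: classes of hyperplane sections and of pencils
-/

namespace Pool.Agent.Lib.MP_4ca46c_ag.T2

open CategoryTheory Limits AlgebraicGeometry MonoidalCategory CartesianMonoidalCategory
open Pool.Agent.Lib.MP_4ca46c_ag.Sign Pool.Agent.Lib.MP_4ca46c_ag.Hyp
open Pool.Agent.Lib.MP_4ca46c_ag.Std Pool.Agent.Lib.MP_4ca46c_ag.Div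

section Defs

variable {k₀ K : Type} [Field k₀] [Field K]

/-- The weak Lefschetz theorem for smooth divisors with affine complement. -/
def WeakT (T : WeilTheory k₀ K) : Prop := ∀ (k : Type) [Field k] [Algebra k₀ k] [IsAlgClosed k]
  (X Y : Sch k₀) (x : X ⟶ pt k₀ k) (y : Y ⟶ pt k₀ k) (ρ : Y ⟶ X) (m : ℕ), IsVar x (m + 1) →
  IsVar y m → ρ ≫ x = y → AffineCompl ρ.left 1 → ∀ i < m, ∀ u ∈ T.deg Y i,
  ∃ v ∈ T.deg X i, T.pullH ρ v = u

variable {k : Type} [Field k] [Algebra k₀ k] [IsAlgClosed k]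

/-- `V` as an object of the category of varieties. -/
noncomputable abbrev pvar (V : ProjVar k₀ k) : Var k₀ k := ⟨V.X, V.str, V.n, V.isVar⟩

end Defs

section Statements

variable (k₀ K : Type) [Field k₀] [Field K]

/-- **T2.01. The class of a hyperplane section.** (May use `StZeroEx`, `StZeroB`, `StZeroY`.)

PROOF. Let `C = eCoord y E _ _`, `Fam.inc C : Fam C ⟶ Aff κ Y` the universal hyperplane section.
`fUnivX` (`Std/Facts.lean`): `push (Fam.inc C) 1 = pull (Aff.pr κ Y) (pull E (hypClass T k i))`.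
Let `σ = Aff.sec a : Y ⟶ Aff κ Y` be the section with constant functions `a j`. The square of
`D ⟶ Fam C`, `toY`, `Fam.inc C`, `σ` is cartesian: by `Coord.inc_iff` (`Hyp/Family.lean`) and
`IsZero.iff` a point `u : T ⟶ Y` satisfies `u ≫ σ ∈ Fam C` iff `VanO (u ≫ E) a`
(`PreCoord.comap_van` in `Hyp/Square.lean`; compare `sec_isPullback` in `Hyp/Zero.lean` and
`StHyp` in `Std/ChowSpec.lean`), and `toY` is a monomorphism. So by `E.transversal` (dimensions `m`,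
`m + 1`, `m + 1 + N - 1`, `m + 1 + N`, `N = card κ`; `tAffSm`; `toY` is a closed immersion, so `d` is
`IsSm`) `push toY 1 = pull σ (push (Fam.inc C) 1) = pull E (hypClass T k i)` (`Aff.sec_pr`). See
`tUnivP`, `tUnivX` (`Std/UnivP.lean`, `Std/UnivX.lean`) for the same computations. -/
def StHypCls : Prop := ∀ (T : WeilTheory k₀ K), Extra T → ∀ (k : Type) [Field k] [Algebra k₀ k]
  [IsAlgClosed k] (κ : Type) [Fintype κ] [Nontrivial κ] (i : κ) (a : κ → k)
  (Y : Sch k₀) (y : Y ⟶ pt k₀ k) (m : ℕ), IsVar y (m + 1) → ∀ (E : Y ⟶ PSo k₀ k κ),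
  E ≫ PSo.str k₀ k κ = y → IsClosedImmersion E.left → ∀ (D : Sch k₀) (d : D ⟶ pt k₀ k)
  (toY : D ⟶ Y), IsZero E (𝟙 (pt k₀ k)) (fun i => cf k₀ (a i)) d toY →
  SmoothOfRelativeDimension m d.left → T.push toY 1 = T.pull E (hypClass T k i)

/-- **T2.02. The class of a hyperplane under the Segre embedding.**

PROOF. `fSegre` (`Std/Facts.lean`) for `σ = segO`; its hypotheses are proved in the proof of
`tSegreGeo` (`Std/GeoFacts.lean`), copy them. -/
def StSegCls : Prop := ∀ (T : WeilTheory k₀ K), Extra T → ∀ (k : Type) [Field k] [Algebra k₀ k]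
  [IsAlgClosed k] (κ κ' : Type) [Fintype κ] [Nontrivial κ] [Fintype κ'] [Nontrivial κ']
  (i : κ) (a : κ'), T.pull (segO k₀ k κ κ') (hypClass T k (i, a)) =
    T.pull (pullback.fst _ _) (hypClass T k i) + T.pull (pullback.snd _ _) (hypClass T k a)

/-- **T2.03. The class of a point of the projective line.** (May use `StHypCls`.)

PROOF. `push s 1 = hypClass T k 0` by `StHypCls` for `E = 𝟙 : ℙ^1 ⟶ ℙ^1`, `D = pt k₀ k`, `m = 0`
(`tPS`). So `tr (cl (hypClass T k 0) * v) = tr (pullH s v)` (`T.cl_push`), which is `1` for `v = 1`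
(`T.tr_pt`). Let `t = cl (hypClass T k 0) ∈ H^2(ℙ^1)`. By `tPr` (`Div/Pr.lean`) `H(ℙ^1)` is the sum of
`K` and `K t'` with `t'` of degree `2`; `t'` is a multiple of `t`: `t' - tr (t') t` has trace `0`
against `H^0 = K` and against `H^i`, `i > 0`, so it is `0` (`T.poincare`). (See also
`Div/ProdH.lean`, `Div/TrH.lean`.) -/
def StLineCls : Prop := ∀ (T : WeilTheory k₀ K), Extra T → ∀ (k : Type) [Field k] [Algebra k₀ k]
  [IsAlgClosed k] (s : pt k₀ k ⟶ P1 k₀ k), s ≫ s1 k₀ k = 𝟙 _ →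
  IsZero (𝟙 (P1 k₀ k)) (𝟙 (pt k₀ k)) (fun i => cf k₀ ((![0, 1] : Fin 2 → k) i)) (𝟙 (pt k₀ k)) s →
  T.push s 1 = hypClass T k (0 : Fin 2) ∧ T.tr (P1 k₀ k) (T.cl _ (hypClass T k (0 : Fin 2))) = 1 ∧
  ∀ v : T.H (P1 k₀ k), ∃ c c' : K, v = c • 1 + c' • T.cl _ (hypClass T k (0 : Fin 2))

/-- **T2.04. From a geometric pencil to a pencil.** (May use `StHypCls`, `StSegCls`, `StLineCls`,
`StAffZero`; `tPenAbs` is proved.)

PROOF. Apply `tPenAbs` (`T2/PenAbs.lean`) for `W = weil T k`, `X = pvar V`,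
`Y = ⟨G.W, ..⟩`, `V = ⟨G.Y, ..⟩`, `P = ⟨P1 k₀ k, s1 k₀ k, 1, tPS ..⟩`, `j = G.j`, `ι = G.ι`
(morphisms over `k`: `IsZero.comm`, `isFibre.w`, `s_str`), `h = cl (V.h T)`,
`t = cl (hypClass T k 0)`, `q = 1`. `HL`: `E.lefschetz` for `V.emb` (see
`Div/Bridge.lean`). `t`: `StLineCls`. `push j 1 = tm h 1 + tm 1 t`: it is the class of
`push G.j 1` (`push_eq`, `cl_push`), which is `pull (sgE ..) (hypClass T k (V.i, 0))` by `StHypCls`
(`isZeroW`, `smoothW`; `X × ℙ^1` is a variety of dimension `m + 2`: `Var.isVar_prod`; `sgE` is a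
closed immersion: `segO_closed`), and `sgE = (emb × id) ≫ segO`, `StSegCls`.
`push ι 1 = pull (j ≫ snd) t`: by `E.transversal` for `isFibre` (dimensions `0`, `1`, `m`, `m + 1`)
`push G.ι 1 = pull f (push G.s 1)` and `push G.s 1 = hypClass T k 0`.
`pull ι (pull f t) = 0`: `G.ι ≫ f = G.y ≫ G.s`, so this is the pull-back of
`G.s^* t ∈ H^2(Spec k) = 0` (`gr_top`, dimension `0`). `push (ι ≫ p) 1 = h`: the class of
`push (G.ι ≫ G.j ≫ fst) 1`, which is `pull V.emb (hypClass T k V.i)` by `StHypCls` (`isZeroY`). The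
last two hypotheses are `WeakT` for `G.j` (a closed immersion: `isZeroW.closed`; its complement is
affine by `StAffZero`, `affineCompl_of` in `Div/Asm3.lean`) and for `G.ι ≫ G.j ≫ fst : Y ⟶ X`.
This gives `p : T2.Pencil .. p ι h η 1`. The fields of `Two.Pencil` are `i = ι ≫ p`, `p`, `ι`,
`η`; `η_sq`: `η` is the pull-back of `t` and `t * t ∈ H^4(ℙ^1) = 0`; `deg_p`: `push_one` for `q = 1`;
`cls_V`: the hypothesis of `tPenAbs` (or `push (ι ≫ p) 1 = push p η = h`); `Hard`: `HL`. -/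
def StPenT : Prop := ∀ [CharZero K] (T : WeilTheory k₀ K), Extra T → WeakT T →
  ∀ (k : Type) [Field k] [Algebra k₀ k] [IsAlgClosed k] (V : ProjVar k₀ k) (m : ℕ),
  V.n = m + 1 → ∀ (G : GeoPencil V m) (hW : IsVar G.w (m + 1)) (hY : IsVar G.y m),
  ∃ P : Two.Pencil (weil T k) (pvar V) (⟨G.Y, G.y, m, hY⟩ : Var k₀ k)
    (⟨G.W, G.w, m + 1, hW⟩ : Var k₀ k) (T.cl V.X (V.h T)),
    P.i.hom = G.ι ≫ G.j ≫ pullback.fst _ _ ∧
    P.η = T.cl G.W (T.pull (G.j ≫ pullback.snd _ _) (hypClass T k (0 : Fin 2)))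

end Statements

end Pool.Agent.Lib.MP_4ca46c_ag.T2
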