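import Pool.Agent.Lib.MP_4ca46c_ag.T2.SpecT

/-!
# The class of a hyperplane section
-/

set_option autoImplicit false

namespace Pool.Agent.Lib.MP_4ca46c_ag.T2

open CategoryTheory Limits AlgebraicGeometry
open Pool.Agent.Lib.MP_4ca46c_ag.Sign Pool.Agent.Lib.MP_4ca46c_ag.Hyp
open Pool.Agent.Lib.MP_4ca46c_ag.Std Pool.Agent.Lib.MP_4ca46c_ag.Div

section geo

variable {k₀ k : Type} [Field k₀] [Field k] [Algebra k₀ k] {κ : Type} [Fintype κ] {Y : Sch k₀}

/-- A zero scheme over the base field is a closed subscheme. -/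
theorem hypcls_closed {E : Y ⟶ PSo k₀ k κ} {a : κ → Γ((pt k₀ k).left, ⊤)} {D : Sch k₀}
    {d : D ⟶ pt k₀ k} {toY : D ⟶ Y} (h : IsZero E (𝟙 (pt k₀ k)) a d toY) :
    IsClosedImmersion toY.left := by
  have h1 := h.closed
  have h2 : IsIso (pullback.fst (E ≫ PSo.str k₀ k κ) (𝟙 (pt k₀ k))) := inferInstance
  have h3 : IsIso (pullback.fst (E ≫ PSo.str k₀ k κ) (𝟙 (pt k₀ k))).left := by
    exact inferInstanceAs (IsIso ((Over.forget _).map _))
  have h4 : toY.left = (pullback.lift toY d h.comm).left ≫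
      (pullback.fst (E ≫ PSo.str k₀ k κ) (𝟙 (pt k₀ k))).left := by
    rw [← Over.comp_left, pullback.lift_fst]
  rw [h4]
  infer_instance

/-- A zero scheme over the base field is a base change of the universal hyperplane section. -/
theorem hypcls_isPullback (y : Y ⟶ pt k₀ k) {E : Y ⟶ PSo k₀ k κ} (he : E ≫ PSo.str k₀ k κ = y)
    (hE : Mono E.left) {a : κ → Γ((pt k₀ k).left, ⊤)} {D : Sch k₀}
    {d : D ⟶ pt k₀ k} {toY : D ⟶ Y} (h : IsZero E (𝟙 (pt k₀ k)) a d toY) :
    ∃ u, IsPullback u toY (Fam.inc (eCoord y E he hE))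
      (Aff.sec (fun l => y.left.appTop (a l))) := by
  have hc := hypcls_closed h
  have hcomm := h.comm
  rw [Category.comp_id, he] at hcomm
  refine sec_isPullback (eCoord y E he hE) (fun l => y.left.appTop (a l)) toY inferInstance
    fun T t => ?_
  let u : Over.mk (t ≫ Y.hom) ⟶ Y := Over.homMk t rfl
  have h1 := h.iff _ (u ≫ y) u (by rw [Category.comp_id, he])
  have h2 : (eCoord y E he hE).Van t (fun l => t.appTop (y.left.appTop (a l))) ↔
      VanO (u ≫ E) (fun j => (u ≫ y).left.appTop (a j)) :=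
    PreCoord.comap_van (psCoord k κ).toPreCoord E.left t
      (fun l => t.appTop (y.left.appTop (a l)))
  refine Iff.trans ?_ (h1.trans h2.symm)
  constructor
  · rintro ⟨t', ht⟩
    have h3 : t' ≫ D.hom = t ≫ Y.hom := by
      rw [← ht, Category.assoc, Over.w]
    refine ⟨Over.homMk t' h3, ?_, ?_⟩
    · have h4 : (Over.homMk t' h3 : Over.mk (t ≫ Y.hom) ⟶ D) ≫ toY = u :=
        Over.OverMorphism.ext ht
      rw [← hcomm, ← Category.assoc, h4]
    · exact Over.OverMorphism.ext ht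
  · rintro ⟨v, -, hv⟩
    exact ⟨v.left, geo_over hv⟩

end geo

/-- The class of a hyperplane section. -/
theorem tHypCls (k₀ K : Type) [Field k₀] [Field K] : StHypCls k₀ K := by
  intro T hE k _ _ _ κ _ _ i a Y y m hy E he hc D d toY hD hd
  have hcl := hypcls_closed hD
  have hcomm := hD.comm
  rw [Category.comp_id, he] at hcomm
  obtain ⟨u, hu⟩ := hypcls_isPullback y he inferInstance hD
  have hX := fUnivX k₀ K T hE k κ i Y y (m + 1) E he hy hc
  obtain ⟨N, hN⟩ : ∃ N, Fintype.card κ = N + 1 := by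
    have : 0 < Fintype.card κ := Fintype.card_pos
    exact ⟨Fintype.card κ - 1, by omega⟩
  obtain ⟨hb, hA, hAd, hF⟩ := tAffSm k₀ k Y y κ (m + 1) N hy.isSm hy.smooth hN
  obtain ⟨hI, hId⟩ := hF (eCoord y E he inferInstance)
  have hprop := univp_inc_proper (eCoord y E he inferInstance)
  have hySm := hy.isSm
  have hdSm : IsSm d := by
    have h1 := hySm.separated
    have h2 := hySm.quasiCompact
    refine ⟨hd.smooth, ?_, ?_⟩
    · rw [← hcomm, Over.comp_left]
      infer_instance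
    · rw [← hcomm, Over.comp_left]
      infer_instance
  have hSY : Sm Y := hy.sm
  have hSA : Sm (Aff κ Y) := ⟨_, _, _, _, hA⟩
  have hs : Aff.sec (fun l => y.left.appTop (cf k₀ (a l))) ≫ Aff.pr κ Y ≫ y = y := by
    rw [← Category.assoc, Aff.sec_pr, Category.id_comp]
  have ht := hE.transversal (Aff.pr κ Y ≫ y) (Fam.inc (eCoord y E he inferInstance))
    toY u (Aff.sec (fun l => y.left.appTop (cf k₀ (a l)))) hu hA hI
    (by rw [hs]; exact hySm) (by rw [hs, hcomm]; exact hdSm) hprop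
    _ _ (m + 1) m hAd hId (by rw [hs]; exact hy.smooth)
    (by rw [hs, hcomm]; exact hd) (by omega) 1
  rw [map_one (T.pull u), hX, ← T.pull_comp _ _ hSY hSA hSY, Aff.sec_pr, T.pull_id hSY] at ht
  exact ht.symm

end Pool.Agent.Lib.MP_4ca46c_ag.T2
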