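import Pool.Agent.Lib.MP_4ca46c_ag.T2.SpecT

/-!
# The class of a hyperplane under the Segre embedding
-/

set_option autoImplicit false

namespace Pool.Agent.Lib.MP_4ca46c_ag.T2

open CategoryTheory Limits AlgebraicGeometry MvPolynomial
open Pool.Agent.Lib.MP_4ca46c_ag.Sign Pool.Agent.Lib.MP_4ca46c_ag.Hyp
open Pool.Agent.Lib.MP_4ca46c_ag.Std Pool.Agent.Lib.MP_4ca46c_ag.Div

/-- The class of a hyperplane under the Segre embedding. -/
theorem tSegCls (k₀ K : Type) [Field k₀] [Field K] : StSegCls k₀ K := by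
  intro T E k _ _ _ κ κ' _ _ _ _ i a
  refine fSegre k₀ K T E k κ κ' i a (segO k₀ k κ κ') (segO_str k₀ k κ κ') ?_ ?_
  · obtain ⟨p, hp, hi, hr⟩ := geo_point k₀ k i
    let s : PSo k₀ k κ' ⟶ pullback (PSo.str k₀ k κ) (PSo.str k₀ k κ') :=
      pullback.lift (PSo.str k₀ k κ' ≫ p) (𝟙 _) (by
        rw [Category.assoc, hp, Category.comp_id, Category.id_comp])
    have h1 : s ≫ pullback.fst _ _ = PSo.str k₀ k κ' ≫ p := pullback.lift_fst _ _ _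
    have h2 : s ≫ pullback.snd _ _ = 𝟙 _ := pullback.lift_snd _ _ _
    have h3 := segO_left' s (PSo.str k₀ k κ' ≫ p).left (𝟙 (PS k κ')) (by rw [h1]) (by rw [h2]; rfl)
    have h4 : ⊤ ≤ (PSo.str k₀ k κ' ≫ p).left ⁻¹ᵁ psD i := fun x _ => hi (Set.mem_univ _)
    obtain ⟨u, hu⟩ := segre_isPullback (PSo.str k₀ k κ' ≫ p).left (𝟙 (PS k κ')) h4 a
      (IsPullback.id_horiz (hypMap k a))
    obtain ⟨u', hu'⟩ := geo_exists (PSo.hyp k₀ k (κ × κ') (i, a)) (s ≫ segO k₀ k κ κ')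
      (PSo.hyp k₀ k κ' a) (geo_congr h3.symm hu)
    exact ⟨s, p, u', h2, h1, hr, hu'⟩
  · obtain ⟨p, hp, hi, hr⟩ := geo_point k₀ k a
    let s : PSo k₀ k κ ⟶ pullback (PSo.str k₀ k κ) (PSo.str k₀ k κ') :=
      pullback.lift (𝟙 _) (PSo.str k₀ k κ ≫ p) (by
        rw [Category.assoc, hp, Category.comp_id, Category.id_comp])
    have h1 : s ≫ pullback.fst _ _ = 𝟙 _ := pullback.lift_fst _ _ _
    have h2 : s ≫ pullback.snd _ _ = PSo.str k₀ k κ ≫ p := pullback.lift_snd _ _ _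
    have h3 := segO_left' s (𝟙 (PS k κ)) (PSo.str k₀ k κ ≫ p).left (by rw [h1]; rfl) (by rw [h2])
    have h4 : ⊤ ≤ (PSo.str k₀ k κ ≫ p).left ⁻¹ᵁ psD a := fun x _ => hi (Set.mem_univ _)
    obtain ⟨u, hu⟩ := segre_isPullback' (𝟙 (PS k κ)) (PSo.str k₀ k κ ≫ p).left h4 i
      (IsPullback.id_horiz (hypMap k i))
    obtain ⟨u', hu'⟩ := geo_exists (PSo.hyp k₀ k (κ × κ') (i, a)) (s ≫ segO k₀ k κ κ')
      (PSo.hyp k₀ k κ i) (geo_congr h3.symm hu)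
    exact ⟨s, p, u', h1, h2, hr, hu'⟩

end Pool.Agent.Lib.MP_4ca46c_ag.T2
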