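import Mathlib
import Pool.Agent.Lib.MP_4ca46c_ag.T2.SpecG
import Pool.Agent.Lib.MP_4ca46c_ag.Vtc.HasDesc4
import Pool.Agent.Lib.MP_4ca46c_ag.Std.ChartIso
import Pool.Agent.Lib.MP_4ca46c_ag.Std.Facts
import Pool.Agent.Lib.MP_4ca46c_ag.Hyp.Coef

/-!
# Bertini's theorem outside a hypersurface
-/

namespace Pool.Agent.Lib.MP_4ca46c_ag.T2

open CategoryTheory Limits AlgebraicGeometry
open Pool.Agent.Lib.MP_4ca46c_ag.Sign Pool.Agent.Lib.MP_4ca46c_ag.Hyp
open Pool.Agent.Lib.MP_4ca46c_ag.Std Pool.Agent.Lib.MP_4ca46c_ag.Div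
open Pool.Agent.Lib.MP_4ca46c_ag.Vtc

/-- A flat monomorphism is an isomorphism on stalks. -/
theorem bertopen_stalk {X Y : Scheme.{0}} (f : X ⟶ Y) [Flat f] [Mono f] (x : X) :
    IsIso (f.stalkMap x) := by
  have h1 : Spec.map (f.stalkMap x) ≫ Y.fromSpecStalk (f x) = X.fromSpecStalk x ≫ f :=
    Scheme.SpecMap_stalkMap_fromSpecStalk f
  have hm : Mono (Spec.map (f.stalkMap x)) := by
    have : Mono (Spec.map (f.stalkMap x) ≫ Y.fromSpecStalk (f x)) := by
      rw [h1]
      infer_instance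
    exact mono_of_mono _ (Y.fromSpecStalk (f x))
  have hff : (f.stalkMap x).hom.FaithfullyFlat := by
    algebraize [(f.stalkMap x).hom]
    exact @Module.FaithfullyFlat.of_flat_of_isLocalHom _ _ _ _ _ _ _
      (Flat.stalkMap f x) (f.toLRSHom.prop x)
  obtain ⟨hf, hs⟩ := (flat_and_surjective_SpecMap_iff (f.stalkMap x)).2 hff
  have h2 := Flat.isIso_of_surjective_of_mono (Spec.map (f.stalkMap x))
  have h3 : IsIso (Scheme.Spec.map (f.stalkMap x).op) := h2
  have h4 := isIso_of_reflects_iso (f.stalkMap x).op Scheme.Spec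
  exact (isIso_op_iff (f.stalkMap x)).1 h4

/-- Smoothness of the family at the points of the generic fibre. -/
theorem bertopen_mem {I Y S G : Scheme.{0}} {j : Y ⟶ I} {y : Y ⟶ G} {u : I ⟶ S} {g : G ⟶ S}
    (H : IsPullback j y u g) [Flat g] [Mono g] [LocallyOfFinitePresentation u] [Smooth y]
    (z : Y) : j z ∈ u.smoothLocus := by
  have hj : Flat j := MorphismProperty.of_isPullback (P := @Flat) H.flip inferInstance
  have hm : Mono j := by
    have : (MorphismProperty.monomorphisms Scheme.{0}) j :=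
      MorphismProperty.of_isPullback (P := MorphismProperty.monomorphisms Scheme.{0}) H.flip
        (MorphismProperty.monomorphisms.infer_property g)
    exact this
  have h1 := bertopen_stalk j z
  have h2 := bertopen_stalk g (y z)
  rw [Scheme.Hom.mem_smoothLocus]
  have h3 : z ∈ y.smoothLocus := by
    rw [y.smoothLocus_eq_top]
    trivial
  rw [Scheme.Hom.mem_smoothLocus] at h3
  have h4 : ((y ≫ g).stalkMap z).hom.FormallySmooth := by
    rw [Scheme.Hom.stalkMap_comp]
    exact (RingHom.FormallySmooth.respectsIso.cancel_left_isIso (g.stalkMap (y z))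
      (y.stalkMap z)).2 h3
  have h5 : ((j ≫ u).stalkMap z).hom.FormallySmooth := by
    rw [H.w]
    exact h4
  rw [Scheme.Hom.stalkMap_comp] at h5
  exact (RingHom.FormallySmooth.respectsIso.cancel_right_isIso (u.stalkMap (j z))
      (j.stalkMap z)).1 h5

/-- Generic smoothness of a proper family over a Noetherian domain. -/
theorem bertopen_gen {R F : Type} [CommRing R] [IsDomain R] [IsNoetherianRing R] [Field F]
    [Algebra R F] [IsFractionRing R F] {I Y : Scheme.{0}} (u : I ⟶ Spec (CommRingCat.of R))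
    [IsProper u] (j : Y ⟶ I) (y : Y ⟶ Spec (CommRingCat.of F))
    (H : IsPullback j y u (Spec.map (CommRingCat.ofHom (algebraMap R F)))) (m : ℕ)
    (hm : SmoothOfRelativeDimension m y) :
    ∃ r : R, r ≠ 0 ∧ SmoothOfRelativeDimension m
      ((u ⁻¹ᵁ (PrimeSpectrum.basicOpen r : (Spec (CommRingCat.of R)).Opens)).ι ≫ u) := by
  set g : Spec (CommRingCat.of F) ⟶ Spec (CommRingCat.of R) :=
    Spec.map (CommRingCat.ofHom (algebraMap R F)) with hg
  have hy : Smooth y := SmoothOfRelativeDimension.smooth m y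
  have hgf : Flat g := by
    rw [hg, Flat.SpecMap_iff]
    exact (RingHom.flat_algebraMap_iff).2 (IsLocalization.flat F (nonZeroDivisors R))
  have hgm : Mono g := by
    have h : IsPreimmersion (Spec.map (CommRingCat.ofHom (algebraMap R F))) :=
      IsPreimmersion.of_isLocalization (nonZeroDivisors R)
    exact inferInstanceAs (Mono (Spec.map (CommRingCat.ofHom (algebraMap R F))))
  have hNoe : IsLocallyNoetherian (Spec (CommRingCat.of R)) := inferInstance
  have hlfp : LocallyOfFinitePresentation u := inferInstance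
  -- the generic point
  let η : Spec (CommRingCat.of R) := (⟨⊥, Ideal.isPrime_bot⟩ : PrimeSpectrum R)
  have hη : ∀ w : Spec (CommRingCat.of F), g w = η := by
    intro w
    refine PrimeSpectrum.ext ?_
    change Ideal.comap (algebraMap R F) w.asIdeal = ⊥
    have h0 : w.asIdeal.IsPrime := PrimeSpectrum.isPrime w
    have h1 : w.asIdeal = ⊥ := Ideal.eq_bot_of_prime w.asIdeal
    rw [h1, ← RingHom.ker_eq_comap_bot]
    exact (RingHom.injective_iff_ker_eq_bot _).1 (IsFractionRing.injective R F)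
  -- the points over the generic point
  obtain ⟨w₀⟩ : Nonempty (Spec (CommRingCat.of F)) := inferInstance
  have hpt : ∀ i : I, u i = η → ∃ z : Y, j z = i := by
    intro i hi
    obtain ⟨z, hz, -⟩ := Scheme.Pullback.exists_preimage_pullback (f := u) (g := g) i w₀
      (hi.trans (hη w₀).symm)
    refine ⟨H.isoPullback.inv z, ?_⟩
    rw [← Scheme.Hom.comp_apply, H.isoPullback_inv_fst]
    exact hz
  -- the bad points
  have hcl : IsClosed (u '' (u.smoothLocus : Set I)ᶜ) :=
    u.isClosedMap _ u.smoothLocus.2.isClosed_compl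
  have hη2 : η ∉ u '' (u.smoothLocus : Set I)ᶜ := by
    rintro ⟨i, hi, hi2⟩
    obtain ⟨z, rfl⟩ := hpt i hi2
    exact hi (bertopen_mem H z)
  obtain ⟨r, hr1, hr2⟩ : ∃ r : R, r ≠ 0 ∧ ∀ i : I, u i ∈ (PrimeSpectrum.basicOpen r :
      (Spec (CommRingCat.of R)).Opens) → i ∈ u.smoothLocus := by
    obtain ⟨J, hJ⟩ := (PrimeSpectrum.isClosed_iff_zeroLocus_ideal _).1 hcl
    have h1 : ¬ (J : Set R) ⊆ (⊥ : Ideal R) := by
      intro h
      refine hη2 ?_
      rw [hJ]
      exact h
    obtain ⟨r, hr1, hr2⟩ := Set.not_subset.1 h1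
    refine ⟨r, fun h => hr2 (by rw [h]; exact Submodule.zero_mem _), fun i hi => ?_⟩
    by_contra hcon
    have h2 : u i ∈ u '' (u.smoothLocus : Set I)ᶜ := ⟨i, hcon, rfl⟩
    rw [hJ] at h2
    exact hi (h2 hr1)
  refine ⟨r, hr1, ?_⟩
  set O : (Spec (CommRingCat.of R)).Opens := PrimeSpectrum.basicOpen r with hO
  set f := (u ⁻¹ᵁ O).ι ≫ u with hf
  have hsm : Smooth f := by
    refine Scheme.Hom.smoothLocus_eq_top_iff.1 ?_
    have e1 := Scheme.Hom.preimage_smoothLocus_eq (u ⁻¹ᵁ O).ι u
    refine e1.symm.trans ?_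
    rw [eq_top_iff]
    intro x _
    exact hr2 x.1 x.2
  refine ⟨fun x => ?_⟩
  obtain ⟨U, hU, V, hV, hx, e, hs⟩ := Smooth.exists_isStandardSmooth f x
  obtain ⟨n, hn⟩ := desc_dim _ hs
  have h1 : SmoothOfRelativeDimension n (V.ι ≫ f) := desc_restrict f n U hU V hV e hn
  -- a point of `V` over the generic point
  obtain ⟨v, hv⟩ : ∃ v : V.toScheme, (V.ι ≫ f) v = η := by
    have s1 : Smooth (V.ι ≫ f) := inferInstance
    have s2 : IsOpenMap (V.ι ≫ f) := (V.ι ≫ f).isOpenMap
    have s3 : IsOpen (Set.range (V.ι ≫ f)) := s2.isOpen_range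
    have s4 : (V.ι ≫ f) ⟨x, hx⟩ ∈ Set.range (V.ι ≫ f) := ⟨_, rfl⟩
    have s5 : η ⤳ (V.ι ≫ f) ⟨x, hx⟩ := by
      refine (PrimeSpectrum.le_iff_specializes _ _).1 ?_
      exact (bot_le : (⊥ : Ideal R) ≤ _)
    exact s5.mem_open s3 s4
  -- the generic fibre of `V`
  let Q := pullback (V.ι ≫ f) g
  have h2 : SmoothOfRelativeDimension n (pullback.snd (V.ι ≫ f) g) := by
    have := smoothOfRelativeDimension_isStableUnderBaseChange.{0} n
    exact MorphismProperty.of_isPullback (P := @SmoothOfRelativeDimension n)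
      (IsPullback.of_hasPullback (V.ι ≫ f) g) h1
  let q : Q ⟶ Y := H.lift (pullback.fst (V.ι ≫ f) g ≫ V.ι ≫ (u ⁻¹ᵁ O).ι) (pullback.snd _ _) (by
    rw [Category.assoc, Category.assoc]
    exact pullback.condition)
  have hq1 : q ≫ y = pullback.snd (V.ι ≫ f) g := H.lift_snd _ _ _
  have hq : IsPullback (pullback.fst (V.ι ≫ f) g) q (V.ι ≫ (u ⁻¹ᵁ O).ι) j := by
    have h3 : IsPullback (q ≫ y) (pullback.fst (V.ι ≫ f) g) g
        ((V.ι ≫ (u ⁻¹ᵁ O).ι) ≫ u) := by
      rw [hq1, Category.assoc]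
      exact (IsPullback.of_hasPullback (V.ι ≫ f) g).flip
    exact (IsPullback.of_right h3 (H.lift_fst _ _ _) H.flip).flip
  have hqo : IsOpenImmersion q :=
    MorphismProperty.of_isPullback (P := @IsOpenImmersion) hq inferInstance
  have h3 : SmoothOfRelativeDimension m (pullback.snd (V.ι ≫ f) g) := by
    rw [← hq1]
    have h6 : SmoothOfRelativeDimension (0 + m) (q ≫ y) := inferInstance
    rwa [zero_add] at h6
  have hne : Nonempty Q := by
    obtain ⟨z, -, -⟩ := Scheme.Pullback.exists_preimage_pullback (f := V.ι ≫ f) (g := g) v w₀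
      (hv.trans (hη w₀).symm)
    exact ⟨z⟩
  obtain rfl := desc_unique _ m n h3 h2
  exact ⟨U, hU, V, hV, hx, e, hn⟩

/-- Base change of the family along a morphism with image in an open set over which the family
is smooth. -/
theorem bertopen_base {I D B S : Scheme.{0}} {q : D ⟶ I} {t : D ⟶ B} {u : I ⟶ S} {c : B ⟶ S}
    (H : IsPullback q t u c) (O : S.Opens) (hO : ∀ b : B, c b ∈ O) (m : ℕ)
    (hm : SmoothOfRelativeDimension m ((u ⁻¹ᵁ O).ι ≫ u)) : SmoothOfRelativeDimension m t := by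
  have hr : Set.range q ⊆ Set.range (u ⁻¹ᵁ O).ι := by
    rintro _ ⟨z, rfl⟩
    rw [Scheme.Opens.range_ι]
    change u (q z) ∈ O
    rw [← Scheme.Hom.comp_apply, H.w, Scheme.Hom.comp_apply]
    exact hO _
  let q' : D ⟶ (u ⁻¹ᵁ O).toScheme := IsOpenImmersion.lift (u ⁻¹ᵁ O).ι q hr
  have hq' : q' ≫ (u ⁻¹ᵁ O).ι = q := IsOpenImmersion.lift_fac _ _ _
  have h1 : IsPullback q' t ((u ⁻¹ᵁ O).ι ≫ u) c := by
    refine ⟨⟨by rw [← Category.assoc, hq', H.w]⟩, ⟨PullbackCone.IsLimit.mk _
      (fun s => H.lift (s.fst ≫ (u ⁻¹ᵁ O).ι) s.snd (by rw [Category.assoc]; exact s.condition))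
      (fun s => ?_) (fun s => H.lift_snd _ _ _) (fun s l h1 h2 => ?_)⟩⟩
    · rw [← cancel_mono (u ⁻¹ᵁ O).ι, Category.assoc, hq', H.lift_fst]
    · refine H.hom_ext ?_ ?_
      · rw [H.lift_fst, ← h1, Category.assoc, hq']
      · rw [H.lift_snd, h2]
  have := smoothOfRelativeDimension_isStableUnderBaseChange.{0} m
  exact MorphismProperty.of_isPullback (P := @SmoothOfRelativeDimension m) h1 hm

theorem bertopen_isPB {P X Y Z : Scheme.{0}} {fst : P ⟶ X} {snd : P ⟶ Y} {f : X ⟶ Z}
    {g : Y ⟶ Z} (w : fst ≫ f = snd ≫ g)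
    (ex : ∀ (T : Scheme.{0}) (a : T ⟶ X) (b : T ⟶ Y), a ≫ f = b ≫ g → ∃ t : T ⟶ P,
      t ≫ fst = a ∧ t ≫ snd = b)
    (un : ∀ (T : Scheme.{0}) (t t' : T ⟶ P), t ≫ fst = t' ≫ fst → t ≫ snd = t' ≫ snd → t = t') :
    IsPullback fst snd f g := by
  choose lift h1 h2 using ex
  refine ⟨⟨w⟩, ⟨PullbackCone.IsLimit.mk w (fun s => lift s.pt s.fst s.snd s.condition)
    (fun s => h1 _ _ _ _) (fun s => h2 _ _ _ _) fun s m hm1 hm2 => ?_⟩⟩
  exact un _ _ _ (hm1.trans (h1 _ _ _ _).symm) (hm2.trans (h2 _ _ _ _).symm)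

section coeff

variable {k : Type} [Field k] {κ : Type} {B : Scheme.{0}} (b : B ⟶ Spec (CommRingCat.of k))
  (a : κ → Γ(B, ⊤))

/-- The morphism to the space of equations given by the coefficients. -/
noncomputable def bertopen_c : B ⟶ Spec (CommRingCat.of (MvPolynomial κ k)) :=
  AffineSpace.homOfVector b a ≫ (AffineSpace.SpecIso κ (CommRingCat.of k)).hom

theorem bertopen_c_str :
    bertopen_c b a ≫ Spec.map (CommRingCat.ofHom (algebraMap k (MvPolynomial κ k))) = b := by
  rw [bertopen_c, Category.assoc, specIso_over, AffineSpace.homOfVector_over]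

theorem bertopen_c_X (j : κ) :
    (bertopen_c b a).appTop (chartiso_fn (MvPolynomial.X j)) = a j := by
  have h1 : chartiso_fn (MvPolynomial.X j) =
      (AffineSpace.SpecIso κ (CommRingCat.of k)).inv.appTop (AffineSpace.coord _ j) :=
    (AffineSpace.SpecIso_inv_appTop_coord _ j).symm
  have h2 : (AffineSpace.SpecIso κ (CommRingCat.of k)).hom.appTop
      ((AffineSpace.SpecIso κ (CommRingCat.of k)).inv.appTop (AffineSpace.coord _ j)) =
      AffineSpace.coord _ j := by
    rw [← CommRingCat.comp_apply, ← Scheme.Hom.comp_appTop, Iso.hom_inv_id]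
    rfl
  rw [bertopen_c, Scheme.Hom.comp_appTop, CommRingCat.comp_apply, h1, h2,
    AffineSpace.homOfVector_appTop_coord]

theorem bertopen_c_eval (r : MvPolynomial κ k) : (bertopen_c b a).appTop (chartiso_fn r) =
    MvPolynomial.eval₂ ((Scheme.ΓSpecIso (CommRingCat.of k)).inv ≫ b.appTop).hom a r := by
  have h : (bertopen_c b a).appTop.hom.comp
      (Scheme.ΓSpecIso (CommRingCat.of (MvPolynomial κ k))).inv.hom =
      MvPolynomial.eval₂Hom ((Scheme.ΓSpecIso (CommRingCat.of k)).inv ≫ b.appTop).hom a := by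
    refine MvPolynomial.ringHom_ext (fun s => ?_) fun j => ?_
    · rw [MvPolynomial.eval₂Hom_C]
      have h1 := chartiso_fn_map (algebraMap k (MvPolynomial κ k)) s
      have h2 : (bertopen_c b a).appTop (chartiso_fn (algebraMap k (MvPolynomial κ k) s)) =
          b.appTop (chartiso_fn s) := by
        rw [← h1, ← CommRingCat.comp_apply, ← Scheme.Hom.comp_appTop, bertopen_c_str]
      exact h2
    · rw [MvPolynomial.eval₂Hom_X']
      exact bertopen_c_X b a j
  exact RingHom.congr_fun h r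

theorem bertopen_c_mem (r : MvPolynomial κ k)
    (hr : IsUnit (MvPolynomial.eval₂
      ((Scheme.ΓSpecIso (CommRingCat.of k)).inv ≫ b.appTop).hom a r)) (z : B) :
    bertopen_c b a z ∈ (PrimeSpectrum.basicOpen r :
      (Spec (CommRingCat.of (MvPolynomial κ k))).Opens) := by
  have h1 : (Spec (CommRingCat.of (MvPolynomial κ k))).basicOpen (chartiso_fn r) =
      PrimeSpectrum.basicOpen r :=
    basicOpen_eq_of_affine (R := CommRingCat.of (MvPolynomial κ k)) r
  rw [← h1]
  have h2 : bertopen_c b a ⁻¹ᵁ (Spec (CommRingCat.of (MvPolynomial κ k))).basicOpen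
      (chartiso_fn r) = B.basicOpen ((bertopen_c b a).appTop (chartiso_fn r)) :=
    Scheme.preimage_basicOpen _ _
  have h3 : z ∈ B.basicOpen ((bertopen_c b a).appTop (chartiso_fn r)) := by
    rw [bertopen_c_eval, Scheme.basicOpen_of_isUnit B hr]
    trivial
  rw [← h2] at h3
  exact h3

end coeff

section family

variable {k₀ : Type} [Field k₀] {k : Type} [Field k] [Algebra k₀ k] {κ : Type} [Fintype κ]
  {X : Sch k₀} {x : X ⟶ pt k₀ k} (e : X ⟶ PSo k₀ k κ) (he : e ≫ PSo.str k₀ k κ = x)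
  (hmo : Mono e.left)

/-- A zero scheme is a base change of the universal family. -/
theorem bertopen_pb {B : Sch k₀} (b : B ⟶ pt k₀ k) (a : κ → Γ(B.left, ⊤)) {D : Sch k₀}
    {toB : D ⟶ B} {toX : D ⟶ X} (H : IsZero e b a toB toX) :
    ∃ q : D.left ⟶ (hC (eCoord x e he hmo)).I,
      IsPullback q toB.left (hC (eCoord x e he hmo)).toA (bertopen_c (sl b) a) := by
  obtain ⟨C, hCC⟩ : ∃ C : Coord (sl x) κ, C = hC (eCoord x e he hmo) := ⟨_, rfl⟩
  have hvan : ∀ {T : Sch k₀} (t : T ⟶ X) (c : κ → Γ(T.left, ⊤)),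
      C.Van t.left c ↔ VanO (t ≫ e) c := by
    intro T t c
    rw [hCC]
    exact PreCoord.comap_van (PreCoord.ps k κ) e.left t.left c
  rw [← hCC]
  have hxb : toX.left ≫ sl x = toB.left ≫ sl b := by
    have h := congrArg (fun f => f.left) H.comm
    rw [he] at h
    exact h
  have hv : C.Van toX.left (fun j => toB.left.appTop (a j)) :=
    (hvan toX _).2 ((H.iff D toB toX H.comm).1 ⟨𝟙 _, Category.id_comp _, Category.id_comp _⟩)
  have hvec : ∀ j, C.toA.appTop (chartiso_fn (MvPolynomial.X j)) = C.vec j := chartiso_m_vec C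
  refine ⟨C.lift toX.left _ hv, bertopen_isPB ?_ ?_ ?_⟩
  · refine chartiso_ext _ _ ?_ fun j => ?_
    · rw [Category.assoc, C.toA_str, ← Category.assoc, C.lift_toZ, Category.assoc,
        bertopen_c_str]
      exact hxb
    · rw [Scheme.Hom.comp_appTop, Scheme.Hom.comp_appTop, CommRingCat.comp_apply,
        CommRingCat.comp_apply, hvec, C.lift_vec, bertopen_c_X]
  · intro T f g hfg
    have h1 : (f ≫ C.toZ) ≫ sl x = g ≫ sl b := by
      rw [Category.assoc, ← C.toA_str, ← Category.assoc, hfg, Category.assoc, bertopen_c_str]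
    have h2 : ∀ j, f.appTop (C.vec j) = g.appTop (a j) := by
      intro j
      have h3 := congrArg (fun φ => φ.appTop (chartiso_fn (MvPolynomial.X j))) hfg
      simp only at h3
      rw [Scheme.Hom.comp_appTop, Scheme.Hom.comp_appTop, CommRingCat.comp_apply,
        CommRingCat.comp_apply, hvec, bertopen_c_X] at h3
      exact h3
    let T' : Sch k₀ := Over.mk (g ≫ B.hom)
    let tB : T' ⟶ B := Over.homMk g rfl
    let tX : T' ⟶ X := Over.homMk (f ≫ C.toZ) (by
      have w1 : X.hom = sl x ≫ (pt k₀ k).hom := (Over.w x).symm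
      have w2 : B.hom = sl b ≫ (pt k₀ k).hom := (Over.w b).symm
      change (f ≫ C.toZ) ≫ X.hom = g ≫ B.hom
      rw [w1, w2]
      exact (Category.assoc _ _ _).symm.trans
        ((congrArg (fun φ => φ ≫ (pt k₀ k).hom) h1).trans (Category.assoc _ _ _)))
    have h4 : tX ≫ e ≫ PSo.str k₀ k κ = tB ≫ b := by
      rw [he]
      exact Over.OverMorphism.ext h1
    have h5 : VanO (tX ≫ e) (fun j => tB.left.appTop (a j)) := by
      refine (hvan tX _).1 ?_
      have h6 := C.van f
      have h7 : (fun j => f.appTop (C.vec j)) = fun j => g.appTop (a j) := funext h2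
      rw [h7] at h6
      exact h6
    obtain ⟨v, hv1, hv2⟩ := (H.iff T' tB tX h4).2 h5
    have hv1' : v.left ≫ toB.left = g := congrArg (fun f => f.left) hv1
    have hv2' : v.left ≫ toX.left = f ≫ C.toZ := congrArg (fun f => f.left) hv2
    refine ⟨v.left, C.hom_ext ?_ fun j => ?_, hv1'⟩
    · rw [Category.assoc, C.lift_toZ]
      exact hv2'
    · rw [Scheme.Hom.comp_appTop, CommRingCat.comp_apply, C.lift_vec, h2, ← hv1',
        Scheme.Hom.comp_appTop, CommRingCat.comp_apply]
  · intro T t t' h1 h2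
    have hm : Mono (pullback.lift toX toB H.comm).left := by
      have := H.closed
      infer_instance
    rw [← cancel_mono (pullback.lift toX toB H.comm).left]
    have hP : IsPullback (pullback.fst (e ≫ PSo.str k₀ k κ) b).left
        (pullback.snd (e ≫ PSo.str k₀ k κ) b).left (e ≫ PSo.str k₀ k κ).left b.left :=
      (IsPullback.of_hasPullback (e ≫ PSo.str k₀ k κ) b).map (Over.forget _)
    have e1 : (pullback.lift toX toB H.comm).left ≫
        (pullback.fst (e ≫ PSo.str k₀ k κ) b).left = toX.left := by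
      rw [← Over.comp_left, pullback.lift_fst]
    have e2 : (pullback.lift toX toB H.comm).left ≫
        (pullback.snd (e ≫ PSo.str k₀ k κ) b).left = toB.left := by
      rw [← Over.comp_left, pullback.lift_snd]
    refine hP.hom_ext ?_ ?_
    · rw [Category.assoc, Category.assoc, e1]
      have h3 := congrArg (fun φ => φ ≫ C.toZ) h1
      simp only [Category.assoc, C.lift_toZ] at h3
      exact h3
    · rw [Category.assoc, Category.assoc, e2]
      exact h2

end family

theorem tBertOpen : StBertOpen := by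
  intro k₀ k _ _ _ κ _ X x e he hcl m hm
  have hmo : Mono e.left := inferInstance
  have hprop : IsProper (sl x) := by
    subst he
    have i1 : IsProper (psStr k κ) := inferInstance
    have i2 : IsProper e.left := inferInstance
    exact MorphismProperty.comp_mem @IsProper _ _ i2 i1
  let R := MvPolynomial κ k
  let F := FractionRing R
  let C := hC (eCoord x e he hmo)
  have h0 : IsPullback (pullback.fst (Fam.inc (eCoord x e he hmo) ≫ Aff.toSp κ x) (spG k₀ R F))
      (pullback.snd _ _) (Fam.inc (eCoord x e he hmo) ≫ Aff.toSp κ x) (spG k₀ R F) :=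
    IsPullback.of_hasPullback _ _
  have hsm := fSmoothGen k₀ k κ X x e he hcl m hm F _ _ _ h0
  have h1 : IsPullback (pullback.fst (Fam.inc (eCoord x e he hmo) ≫ Aff.toSp κ x)
      (spG k₀ R F)).left (pullback.snd (Fam.inc (eCoord x e he hmo) ≫ Aff.toSp κ x)
      (spG k₀ R F)).left C.toA (Spec.map (CommRingCat.ofHom (algebraMap R F))) :=
    h0.map (Over.forget _)
  obtain ⟨r, hr, hs⟩ := bertopen_gen C.toA _ _ h1 m hsm
  refine ⟨r, hr, fun B b a D toB toX hD hu => ?_⟩
  obtain ⟨q, hq⟩ := bertopen_pb e he hmo b a hD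
  exact bertopen_base hq (PrimeSpectrum.basicOpen r) (bertopen_c_mem (sl b) a r hu) m hs

end Pool.Agent.Lib.MP_4ca46c_ag.T2
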