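import Mathlib
import Pool.Agent.Lib.MP_4ca46c_ag.T2.SpecG
import Pool.Agent.Lib.MP_4ca46c_ag.Div.AffC
import Pool.Agent.Lib.MP_4ca46c_ag.Std.Aff
import Pool.Agent.Lib.MP_4ca46c_ag.Hyp.Segre

/-!
# The complement of a hyperplane section is affine
-/

namespace Pool.Agent.Lib.MP_4ca46c_ag.T2

open CategoryTheory Limits AlgebraicGeometry
open Pool.Agent.Lib.MP_4ca46c_ag.Sign Pool.Agent.Lib.MP_4ca46c_ag.Hyp
open Pool.Agent.Lib.MP_4ca46c_ag.Std Pool.Agent.Lib.MP_4ca46c_ag.Div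
open Pool.Agent.Lib.MP_4ca46c_ag.Vtc

section

variable {k₀ : Type} [Field k₀] {k : Type} [Field k] [Algebra k₀ k] {κ : Type} [Fintype κ]

/-- The constant functions on projective space. -/
noncomputable def affzero_c (a : κ → k) (j : κ) : Γ((PSo k₀ k κ).left, ⊤) :=
  (PSo.str k₀ k κ).left.appTop (cf k₀ (a j))

theorem affzero_mono {X : Sch k₀} {e : X ⟶ PSo k₀ k κ} {a : κ → k}
    {D : Sch k₀} {d : D ⟶ pt k₀ k} {toX : D ⟶ X}
    (H : IsZero e (𝟙 (pt k₀ k)) (fun i => cf k₀ (a i)) d toX) :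
    IsClosedImmersion toX.left := by
  have h1 : pullback.lift toX d H.comm ≫ pullback.fst (e ≫ PSo.str k₀ k κ) (𝟙 (pt k₀ k)) = toX :=
    pullback.lift_fst _ _ _
  have h2 : IsIso (pullback.fst (e ≫ PSo.str k₀ k κ) (𝟙 (pt k₀ k))) := inferInstance
  have h3 : IsIso (pullback.fst (e ≫ PSo.str k₀ k κ) (𝟙 (pt k₀ k))).left :=
    (Over.forget _).map_isIso _
  have h4 := H.closed
  rw [← h1]
  exact inferInstanceAs (IsClosedImmersion ((pullback.lift toX d H.comm).left ≫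
    (pullback.fst (e ≫ PSo.str k₀ k κ) (𝟙 (pt k₀ k))).left))

theorem affzero_iff {X : Sch k₀} {e : X ⟶ PSo k₀ k κ} {a : κ → k}
    {D : Sch k₀} {d : D ⟶ pt k₀ k} {toX : D ⟶ X}
    (H : IsZero e (𝟙 (pt k₀ k)) (fun i => cf k₀ (a i)) d toX) (U : Scheme.{0}) (t : U ⟶ X.left) :
    (∃ t', t' ≫ (pCoord (k₀ := k₀) k κ).inc = t ≫ e.left ≫ AffineSpace.homOfVector (𝟙 _)
      (affzero_c (k₀ := k₀) a)) ↔ ∃ t', t' ≫ toX.left = t := by
  have h0 := van_zero_iff (pCoord (k₀ := k₀) k κ) (affzero_c (k₀ := k₀) a) (t ≫ e.left)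
  rw [Category.assoc] at h0
  rw [h0]
  let T : Sch k₀ := Over.mk (t ≫ X.hom)
  let u : T ⟶ X := Over.homMk t rfl
  have hu : u ≫ e ≫ PSo.str k₀ k κ = (u ≫ e ≫ PSo.str k₀ k κ) ≫ 𝟙 _ := (Category.comp_id _).symm
  have h1 := H.iff T (u ≫ e ≫ PSo.str k₀ k κ) u hu
  have h2 : (fun j => (t ≫ e.left).appTop (affzero_c (k₀ := k₀) a j)) =
      fun j => (u ≫ e ≫ PSo.str k₀ k κ).left.appTop (cf k₀ (a j)) := by
    funext j
    rw [affzero_c, ← CommRingCat.comp_apply, ← Scheme.Hom.comp_appTop, Category.assoc]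
    rfl
  have h3 : (pCoord (k₀ := k₀) k κ).Van (t ≫ e.left)
      (fun j => (t ≫ e.left).appTop (affzero_c (k₀ := k₀) a j)) ↔
      VanO (u ≫ e) (fun j => (u ≫ e ≫ PSo.str k₀ k κ).left.appTop (cf k₀ (a j))) := by
    rw [h2]
    exact Iff.rfl
  rw [h3, ← h1]
  constructor
  · rintro ⟨v, -, h⟩
    exact ⟨v.left, geo_over h⟩
  · rintro ⟨t', h⟩
    have hv : t' ≫ D.hom = T.hom := by
      change t' ≫ D.hom = t ≫ X.hom
      rw [← h, Category.assoc]
      exact congrArg (fun φ => t' ≫ φ) (Over.w toX).symm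
    let v : T ⟶ D := Over.homMk t' hv
    have hv2 : v ≫ toX = u := Over.OverMorphism.ext h
    refine ⟨v, ?_, hv2⟩
    have h5 := H.comm
    rw [Category.comp_id] at h5
    rw [← h5, ← Category.assoc, hv2]

end

theorem tAffZero : StAffZero := by
  intro k₀ k _ _ _ κ _ X x e he hc a D d toX H
  obtain ⟨U₀, j₀, hC, hA⟩ := tAffC k₀ k κ
  have hD := affzero_mono H
  have hs : IsClosedImmersion (AffineSpace.homOfVector (𝟙 (PSo k₀ k κ).left)
      (affzero_c (k₀ := k₀) a)) := by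
    have h1 : IsClosedImmersion (AffineSpace.homOfVector (𝟙 (PSo k₀ k κ).left)
        (affzero_c (k₀ := k₀) a) ≫ (𝔸(κ; (PSo k₀ k κ).left) ↘ (PSo k₀ k κ).left)) := by
      rw [AffineSpace.homOfVector_over]
      infer_instance
    exact IsClosedImmersion.of_comp _ (𝔸(κ; (PSo k₀ k κ).left) ↘ (PSo k₀ k κ).left)
  obtain ⟨u, pb⟩ := isPullback_of_factor (pCoord (k₀ := k₀) k κ).inc
    (e.left ≫ AffineSpace.homOfVector (𝟙 _) (affzero_c (k₀ := k₀) a)) toX.left
    (fun U t => affzero_iff H U t)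
  let F : X.left ⟶ 𝔸(κ; (PSo k₀ k κ).left) :=
    e.left ≫ AffineSpace.homOfVector (𝟙 _) (affzero_c (k₀ := k₀) a)
  have hF : IsClosedImmersion F := inferInstance
  refine ⟨Over.mk (pullback.snd j₀.left F ≫ X.hom), Over.homMk (pullback.snd j₀.left F) rfl,
    ⟨hD, ?_, ?_⟩, ?_⟩
  · have := hC.isOpen
    exact inferInstanceAs (IsOpenImmersion (pullback.snd j₀.left F))
  · have h1 := range_of_isPullback pb.flip
    have h2 := range_of_isPullback (IsPullback.of_hasPullback j₀.left F).flip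
    change Set.range (pullback.snd j₀.left F) = _
    rw [h1, h2, ← Set.preimage_compl]
    exact congrArg (fun s => F ⁻¹' s) hC.compl
  · change IsAffine (pullback j₀.left F)
    have h0 : IsAffineHom F := inferInstance
    have h1 : IsAffineHom (pullback.fst j₀.left F) :=
      MorphismProperty.pullback_fst (P := @IsAffineHom) j₀.left F h0
    exact isAffine_of_isAffineHom (pullback.fst j₀.left F)

end Pool.Agent.Lib.MP_4ca46c_ag.T2
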