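import Mathlib
import Pool.Agent.Lib.MP_4ca46c_ag.T2.SpecG
import Pool.Agent.Lib.MP_4ca46c_ag.T2.AffZero
import Pool.Agent.Lib.MP_4ca46c_ag.Hyp.Segre
import Pool.Agent.Lib.MP_4ca46c_ag.Hyp.Vec
import Pool.Agent.Lib.MP_4ca46c_ag.Std.GeoFacts

/-!
# Existence of pencils of hyperplane sections
-/

namespace Pool.Agent.Lib.MP_4ca46c_ag.T2

open CategoryTheory Limits AlgebraicGeometry MvPolynomial
open Pool.Agent.Lib.MP_4ca46c_ag.Sign Pool.Agent.Lib.MP_4ca46c_ag.Hyp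
open Pool.Agent.Lib.MP_4ca46c_ag.Std Pool.Agent.Lib.MP_4ca46c_ag.Div
open Pool.Agent.Lib.MP_4ca46c_ag.Vtc

section Segre

variable {k : Type} [Field k] {κ : Type} {T : Scheme.{0}}

theorem pencilg_segre_app {κ' : Type} (F : T ⟶ PS k κ) (G : T ⟶ PS k κ') (a b : κ × κ')
    (W : T.Opens) (h : W ≤ segre F G ⁻¹ᵁ psD a) (h₁ : W ≤ F ⁻¹ᵁ psD a.1)
    (h₂ : W ≤ G ⁻¹ᵁ psD a.2) : (segre F G).appLE (psD a) W h (psf a b) =
      F.appLE (psD a.1) W h₁ (psf a.1 b.1) * G.appLE (psD a.2) W h₂ (psf a.2 b.2) := by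
  have e1 : W ≤ (𝟙 T ≫ segre F G) ⁻¹ᵁ psD a := by rw [Category.id_comp]; exact h
  have e2 : W ≤ (𝟙 T ≫ F) ⁻¹ᵁ psD a.1 := by rw [Category.id_comp]; exact h₁
  have e3 : W ≤ (𝟙 T ≫ G) ⁻¹ᵁ psD a.2 := by rw [Category.id_comp]; exact h₂
  have h0 := segre_app F G (𝟙 T) a b W e1 e2 e3
  rw [appLE_congr (Category.id_comp _) _ W e1 h, appLE_congr (Category.id_comp _) _ W e2 h₁,
    appLE_congr (Category.id_comp _) _ W e3 h₂] at h0
  exact h0

variable [Fintype κ]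

theorem pencilg_eqn (F : T ⟶ PS k κ) (G : T ⟶ PS k (Fin 2)) (hG : ⊤ ≤ G ⁻¹ᵁ psD 0)
    (c : κ × Fin 2 → Γ(T, ⊤)) (i : κ) (W : T.Opens) (h : W ≤ segre F G ⁻¹ᵁ psD (i, 0))
    (h₁ : W ≤ F ⁻¹ᵁ psD i) : (PreCoord.ps k (κ × Fin 2)).eqn (segre F G) c (i, 0) W h =
      (PreCoord.ps k κ).eqn F (fun i => c (i, 0) + G.appLE (psD 0) ⊤ hG (psf 0 1) * c (i, 1)) i W
        h₁ := by
  have h₂ : W ≤ G ⁻¹ᵁ psD 0 := le_top.trans hG
  have hτ : T.presheaf.map (homOfLE (le_top : W ≤ ⊤)).op (G.appLE (psD 0) ⊤ hG (psf 0 1)) =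
      G.appLE (psD 0) W h₂ (psf 0 1) := by
    rw [← CommRingCat.comp_apply, Scheme.Hom.appLE_map]
  rw [PreCoord.eqn, PreCoord.eqn, Fintype.sum_prod_type]
  refine Finset.sum_congr rfl fun l _ => ?_
  rw [Fin.sum_univ_two]
  have e0 := pencilg_segre_app F G (i, 0) (l, 0) W h h₁ h₂
  have e1 := pencilg_segre_app F G (i, 0) (l, 1) W h h₁ h₂
  have e2 : G.appLE (psD (0 : Fin 2)) W h₂ (psf 0 0) = 1 := by rw [psf_self, map_one]
  rw [e2, mul_one] at e0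
  have f0 : (segre F G).appLE ((PreCoord.ps k (κ × Fin 2)).D (i, 0)) W h
      ((PreCoord.ps k (κ × Fin 2)).f (i, 0) (l, 0)) = F.appLE (psD i) W h₁ (psf i l) := e0
  have f1 : (segre F G).appLE ((PreCoord.ps k (κ × Fin 2)).D (i, 0)) W h
      ((PreCoord.ps k (κ × Fin 2)).f (i, 0) (l, 1)) =
        F.appLE (psD i) W h₁ (psf i l) * G.appLE (psD 0) W h₂ (psf 0 1) := e1
  rw [f0, f1, map_add, map_mul, hτ]
  change _ = (_ + _ * _) * F.appLE (psD i) W h₁ (psf i l)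
  ring

theorem pencilg_van (F : T ⟶ PS k κ) (G : T ⟶ PS k (Fin 2)) (hG : ⊤ ≤ G ⁻¹ᵁ psD 0)
    (c : κ × Fin 2 → Γ(T, ⊤)) : (PreCoord.ps k (κ × Fin 2)).Van (segre F G) c ↔
      (PreCoord.ps k κ).Van F
        (fun i => c (i, 0) + G.appLE (psD 0) ⊤ hG (psf 0 1) * c (i, 1)) := by
  constructor
  · intro H i
    have h : F ⁻¹ᵁ psD i ≤ segre F G ⁻¹ᵁ psD (i, 0) := by
      rw [segre_pre]
      exact le_inf le_rfl (le_top.trans hG)
    have e := pencilg_eqn F G hG c i (F ⁻¹ᵁ psD i) h le_rfl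
    refine e.symm.trans ?_
    have e2 := (PreCoord.ps k (κ × Fin 2)).eqn_res (segre F G) c (i, 0) le_rfl h
    rw [H (i, 0), map_zero] at e2
    exact e2.symm
  · intro H p
    obtain ⟨i, j⟩ := p
    have h0 : segre F G ⁻¹ᵁ psD (i, j) ≤ F ⁻¹ᵁ psD i := by
      rw [segre_pre]
      exact inf_le_left
    have h1 : segre F G ⁻¹ᵁ psD (i, j) ≤ segre F G ⁻¹ᵁ psD (i, 0) := by
      rw [segre_pre F G (i, 0)]
      exact le_inf h0 (le_top.trans hG)
    have e := (PreCoord.ps k (κ × Fin 2)).eqn_mul (segre F G) c (i, 0) (i, j) h1 le_rfl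
    refine e.trans ?_
    have e2 := pencilg_eqn F G hG c i (segre F G ⁻¹ᵁ psD (i, j)) h1 h0
    have e3 := (PreCoord.ps k κ).eqn_res F
      (fun i => c (i, 0) + G.appLE (psD 0) ⊤ hG (psf 0 1) * c (i, 1)) i le_rfl h0
    rw [H i, map_zero] at e3
    rw [e2]
    exact (congrArg _ e3.symm).trans (mul_zero _)

end Segre

section sgE

variable {k₀ : Type} [Field k₀] {k : Type} [Field k] [Algebra k₀ k] {κ : Type} {X : Sch k₀}
  (x : X ⟶ pt k₀ k) (e : X ⟶ PSo k₀ k κ) (he : e ≫ PSo.str k₀ k κ = x)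

theorem pencilg_sgE_str : sgE x e he ≫ PSo.str k₀ k (κ × Fin 2) =
    pullback.fst x (s1 k₀ k) ≫ x := by
  rw [sgE, Category.assoc, segO_str, ← Category.assoc, pullback.lift_fst, Category.assoc, he]

theorem pencilg_sgE_left {S : Sch k₀} (z : S ⟶ pullback x (s1 k₀ k)) (u : S ⟶ X)
    (t : S ⟶ P1 k₀ k) (hu : z ≫ pullback.fst _ _ = u) (ht : z ≫ pullback.snd _ _ = t) :
    (z ≫ sgE x e he).left = segre (u ≫ e).left t.left := by
  rw [sgE, ← Category.assoc]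
  refine segO_left _ _ _ ?_ ?_
  · rw [Category.assoc, pullback.lift_fst, ← Category.assoc, hu]
  · rw [Category.assoc, pullback.lift_snd, ht]

theorem pencilg_sgE_closed [Finite κ] (hc : IsClosedImmersion e.left) :
    IsClosedImmersion (sgE x e he).left := by
  let l : pullback x (s1 k₀ k) ⟶ pullback (PSo.str k₀ k κ) (s1 k₀ k) :=
    pullback.lift (f := PSo.str k₀ k κ) (g := s1 k₀ k) (pullback.fst x (s1 k₀ k) ≫ e)
    (pullback.snd x (s1 k₀ k)) (by rw [Category.assoc, he, pullback.condition])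
  have h1 : l ≫ pullback.fst _ _ = pullback.fst _ _ ≫ e := pullback.lift_fst _ _ _
  have h2 : l ≫ pullback.snd _ _ = pullback.snd _ _ := pullback.lift_snd _ _ _
  have pb : IsPullback l (pullback.fst _ _) (pullback.fst _ _) e := by
    refine IsPullback.of_right (h₁₂ := pullback.snd _ _) (v₁₃ := s1 k₀ k)
      (h₂₂ := PSo.str k₀ k κ) ?_ h1 (IsPullback.of_hasPullback _ _).flip
    rw [h2, he]
    exact (IsPullback.of_hasPullback _ _).flip
  have pb' : IsPullback l.left (pullback.fst x (s1 k₀ k)).left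
      (pullback.fst (PSo.str k₀ k κ) (s1 k₀ k)).left e.left := pb.map (Over.forget _)
  have h3 : IsClosedImmersion l.left :=
    MorphismProperty.of_isPullback (P := @IsClosedImmersion) pb'.flip hc
  have h4 := segO_closed k₀ k κ (Fin 2)
  exact inferInstanceAs (IsClosedImmersion (l.left ≫ (segO k₀ k κ (Fin 2)).left))

/-- Points on `∑ a_(i,j) x_i y_j = 0` over the chart `y_0 = 1`. -/
theorem pencilg_vanO [Fintype κ] {S : Sch k₀} (z : S ⟶ pullback x (s1 k₀ k)) (u : S ⟶ X)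
    (t : S ⟶ P1 k₀ k) (hu : z ≫ pullback.fst _ _ = u) (ht : z ≫ pullback.snd _ _ = t)
    (hG : ⊤ ≤ t.left ⁻¹ᵁ psD 0) (c : κ × Fin 2 → Γ(S.left, ⊤)) :
    VanO (z ≫ sgE x e he) c ↔ VanO (u ≫ e)
      (fun i => c (i, 0) + t.left.appLE (psD 0) ⊤ hG (psf 0 1) * c (i, 1)) := by
  rw [VanO, pencilg_sgE_left x e he z u t hu ht]
  exact pencilg_van (u ≫ e).left t.left hG c

end sgE

section Eval

variable {k₀ : Type} [Field k₀] {k : Type} [Field k] [Algebra k₀ k] {κ : Type}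

theorem pencilg_cst {B : Sch k₀} (b : B ⟶ pt k₀ k) (c : k) :
    cstHom b c = b.left.appTop (cf k₀ c) := rfl

theorem pencilg_eval {B : Sch k₀} (b : B ⟶ pt k₀ k) (a : κ → k) (P : MvPolynomial κ k) :
    eval₂ (cstHom b) (fun i => b.left.appTop (cf k₀ (a i))) P = cstHom b (eval a P) := by
  have h := MvPolynomial.eval₂_comp_left (cstHom b) (RingHom.id k) a P
  rw [MvPolynomial.eval₂_id] at h
  rw [h, RingHom.comp_id]
  rfl

theorem pencilg_eval' (a : κ → k) (P : MvPolynomial κ k) :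
    eval₂ (cstHom (𝟙 (pt k₀ k))) (fun i => cf k₀ (a i)) P = cstHom (𝟙 (pt k₀ k)) (eval a P) := by
  rw [← pencilg_eval]
  rfl

/-- A common nonzero value. -/
theorem pencilg_choice [Infinite k] (P₁ : MvPolynomial κ k) (P₂ : MvPolynomial (κ × Fin 2) k)
    (h₁ : P₁ ≠ 0) (h₂ : P₂ ≠ 0) (i : κ) : ∃ a : κ × Fin 2 → k, eval a P₂ ≠ 0 ∧
      eval (fun i => a (i, 0)) P₁ ≠ 0 ∧ a (i, 0) ≠ 0 := by
  have hr : rename (fun i : κ => (i, (0 : Fin 2))) P₁ ≠ 0 := by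
    intro h
    apply h₁
    have hinj : Function.Injective (fun i : κ => (i, (0 : Fin 2))) := fun a b h =>
      congrArg Prod.fst h
    exact rename_injective _ hinj (h.trans (map_zero _).symm)
  have hX : (X (i, (0 : Fin 2)) : MvPolynomial (κ × Fin 2) k) ≠ 0 := X_ne_zero _
  by_contra hc
  have h0 : P₂ * rename (fun i : κ => (i, (0 : Fin 2))) P₁ * X (i, (0 : Fin 2)) = 0 := by
    refine MvPolynomial.funext fun a => ?_
    rw [map_mul, map_mul, eval_rename, eval_X, map_zero]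
    by_contra h
    apply hc
    refine ⟨a, ?_, ?_, ?_⟩
    · intro h3
      rw [h3, zero_mul, zero_mul] at h
      exact h rfl
    · intro h3
      apply h
      have h4 : eval (a ∘ fun i => (i, (0 : Fin 2))) P₁ = 0 := h3
      rw [h4, mul_zero, zero_mul]
    · intro h3
      rw [h3, mul_zero] at h
      exact h rfl
  exact mul_ne_zero (mul_ne_zero h₂ hr) hX h0

end Eval

section Point

variable {k₀ : Type} [Field k₀] {k : Type} [Field k] [Algebra k₀ k]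

theorem pencilg_point : ∃ s : pt k₀ k ⟶ P1 k₀ k, s ≫ s1 k₀ k = 𝟙 _ ∧
    ∃ h : ⊤ ≤ s.left ⁻¹ᵁ psD 0, s.left.appLE (psD 0) ⊤ h (psf 0 1) = 0 := by
  obtain ⟨e, he, hi, hj⟩ := exists_point (k := k) (0 : Fin 2)
  refine ⟨Over.homMk e ?_, ?_, hi, ?_⟩
  · exact (Category.assoc _ _ _).symm.trans ((eq_whisker he _).trans (Category.id_comp _))
  · apply Over.OverMorphism.ext
    exact he
  · exact (hj 1).trans (Pi.single_eq_of_ne (by decide) _)

theorem pencilg_line {T : Scheme.{0}} (G : T ⟶ PS k (Fin 2)) :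
    (PreCoord.ps k (Fin 2)).Van G (![0, 1] : Fin 2 → Γ(T, ⊤)) ↔
      ∃ h : ⊤ ≤ G ⁻¹ᵁ psD 0, G.appLE (psD 0) ⊤ h (psf 0 1) = 0 := by
  have key : ∀ h : ⊤ ≤ G ⁻¹ᵁ psD 0, (PreCoord.ps k (Fin 2)).Van G (![0, 1] : Fin 2 → Γ(T, ⊤)) ↔
      G.appLE (psD 0) ⊤ h (psf 0 1) = 0 := fun h => by
    rw [(PreCoord.ps k (Fin 2)).van_iff_of_le G _ 0 h, Fin.sum_univ_two]
    have e0 : (![0, 1] : Fin 2 → Γ(T, ⊤)) 0 = 0 := rfl
    have e1 : (![0, 1] : Fin 2 → Γ(T, ⊤)) 1 = 1 := rfl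
    rw [e0, e1, zero_mul, zero_add, one_mul]
    exact Iff.rfl
  constructor
  · intro H
    have h1 := H 1
    rw [PreCoord.eqn, Fin.sum_univ_two] at h1
    have e0 : (![0, 1] : Fin 2 → Γ(T, ⊤)) 0 = 0 := rfl
    have e1 : (![0, 1] : Fin 2 → Γ(T, ⊤)) 1 = 1 := rfl
    rw [e0, e1, map_zero, zero_mul, map_one, zero_add, one_mul,
      (PreCoord.ps k (Fin 2)).f_self, map_one] at h1
    have h2 : G ⁻¹ᵁ psD 1 = ⊥ := by
      have h3 : T.basicOpen (1 : Γ(T, G ⁻¹ᵁ psD 1)) = G ⁻¹ᵁ psD 1 :=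
        Scheme.basicOpen_of_isUnit T isUnit_one
      have h4 : (1 : Γ(T, G ⁻¹ᵁ psD 1)) = 0 := h1
      rw [h4, Scheme.basicOpen_zero] at h3
      exact h3.symm
    have h : ⊤ ≤ G ⁻¹ᵁ psD 0 := by
      intro x _
      have h3 : G x ∈ (⨆ i, psD (k := k) (κ := Fin 2) i) := by
        rw [iSup_psD]
        trivial
      obtain ⟨j, hj⟩ := TopologicalSpace.Opens.mem_iSup.1 h3
      fin_cases j
      · exact hj
      · exfalso
        have h4 : x ∈ G ⁻¹ᵁ psD 1 := hj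
        rw [h2] at h4
        exact h4
    exact ⟨h, (key h).1 H⟩
  · rintro ⟨h, h1⟩
    exact (key h).2 h1

theorem pencilg_cf_zero : cf k₀ (0 : k) = 0 := map_zero _

theorem pencilg_cf_one : cf k₀ (1 : k) = 1 := map_one _

theorem pencilg_sec_closed' (s : Spec (CommRingCat.of k) ⟶ PS k (Fin 2))
    (hs : s ≫ psStr k (Fin 2) = 𝟙 _) : IsClosedImmersion s := by
  have h2 : IsClosedImmersion (s ≫ psStr k (Fin 2)) := by
    rw [hs]
    infer_instance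
  exact IsClosedImmersion.of_comp s (psStr k (Fin 2))

theorem pencilg_sec_closed {s : pt k₀ k ⟶ P1 k₀ k} (hs : s ≫ s1 k₀ k = 𝟙 _) :
    IsClosedImmersion s.left := pencilg_sec_closed' s.left (geo_over hs)

theorem pencilg_ext {T : Scheme.{0}} (z z' : T ⟶ PS k (Fin 2)) (h : ⊤ ≤ z ⁻¹ᵁ psD 0)
    (h' : ⊤ ≤ z' ⁻¹ᵁ psD 0) (hs : z ≫ psStr k (Fin 2) = z' ≫ psStr k (Fin 2))
    (H : z.appLE (psD 0) ⊤ h (psf 0 1) = z'.appLE (psD 0) ⊤ h' (psf 0 1)) : z = z' := by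
  refine ps_sep 0 T z z' h h' hs fun j => ?_
  fin_cases j
  · change z.appLE (psD 0) ⊤ h (psf 0 0) = z'.appLE (psD 0) ⊤ h' (psf 0 0)
    rw [psf_self, map_one, map_one]
  · exact H

theorem pencilg_isZero_s {s : pt k₀ k ⟶ P1 k₀ k} (hs : s ≫ s1 k₀ k = 𝟙 _)
    (h : ⊤ ≤ s.left ⁻¹ᵁ psD 0) (h0 : s.left.appLE (psD 0) ⊤ h (psf 0 1) = 0) :
    IsZero (𝟙 (P1 k₀ k)) (𝟙 (pt k₀ k)) (fun i => cf k₀ ((![0, 1] : Fin 2 → k) i))
      (𝟙 (pt k₀ k)) s := by
  have hc : s ≫ 𝟙 (P1 k₀ k) ≫ PSo.str k₀ k (Fin 2) = 𝟙 (pt k₀ k) ≫ 𝟙 (pt k₀ k) := by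
    rw [Category.id_comp, Category.id_comp]
    exact hs
  refine ⟨hc, ?_, fun T t u hu => ?_⟩
  · have h1 : pullback.lift s (𝟙 (pt k₀ k)) hc ≫ pullback.fst _ _ = s := pullback.lift_fst _ _ _
    have h2 : (pullback.lift s (𝟙 (pt k₀ k)) hc).left ≫
        (pullback.fst (𝟙 (P1 k₀ k) ≫ PSo.str k₀ k (Fin 2)) (𝟙 (pt k₀ k))).left = s.left :=
      geo_over h1
    have h3 : IsIso (pullback.fst (𝟙 (P1 k₀ k) ≫ PSo.str k₀ k (Fin 2)) (𝟙 (pt k₀ k))).left :=
      (Over.forget _).map_isIso _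
    have h4 : IsClosedImmersion ((pullback.lift s (𝟙 (pt k₀ k)) hc).left ≫
        (pullback.fst (𝟙 (P1 k₀ k) ≫ PSo.str k₀ k (Fin 2)) (𝟙 (pt k₀ k))).left) := by
      rw [h2]
      exact pencilg_sec_closed hs
    exact IsClosedImmersion.of_comp _
      (pullback.fst (𝟙 (P1 k₀ k) ≫ PSo.str k₀ k (Fin 2)) (𝟙 (pt k₀ k))).left
  · have hf : (fun j => t.left.appTop (cf k₀ ((![0, 1] : Fin 2 → k) j))) =
        (![0, 1] : Fin 2 → Γ(T.left, ⊤)) := by
      funext j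
      fin_cases j
      · change t.left.appTop (cf k₀ (0 : k)) = 0
        rw [pencilg_cf_zero, map_zero]
      · change t.left.appTop (cf k₀ (1 : k)) = 1
        rw [pencilg_cf_one, map_one]
    rw [hf, VanO, Category.comp_id, pencilg_line]
    have hst : ⊤ ≤ (t.left ≫ s.left) ⁻¹ᵁ psD 0 := fun x _ => h (Set.mem_univ _)
    have hst0 : (t.left ≫ s.left).appLE (psD 0) ⊤ hst (psf 0 1) = 0 := by
      have h5 := Scheme.Hom.appLE_comp_appLE t.left s.left (psD 0) ⊤ ⊤ h (le_of_eq rfl)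
      rw [← h5, CommRingCat.comp_apply, h0, map_zero]
    constructor
    · rintro ⟨v, hv, hv'⟩
      rw [Category.comp_id] at hv
      subst hv
      have h6 : u.left = v.left ≫ s.left := (geo_over hv').symm
      rw [h6]
      exact ⟨hst, hst0⟩
    · rintro ⟨h1, h2⟩
      refine ⟨t, Category.comp_id _, Over.OverMorphism.ext ?_⟩
      refine pencilg_ext (t.left ≫ s.left) u.left hst h1 ?_ (hst0.trans h2.symm)
      have e1 : u ≫ s1 k₀ k = t := by
        have e2 := hu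
        rw [Category.id_comp, Category.comp_id] at e2
        exact e2
      have e3 : (t ≫ s) ≫ s1 k₀ k = u ≫ s1 k₀ k := by
        rw [Category.assoc, hs, Category.comp_id, e1]
      exact geo_over e3

end Point

section Chart

variable {k₀ : Type} [Field k₀] {k : Type} [Field k] [Algebra k₀ k] {κ : Type}

/-- The coefficients of the hyperplane section over a scheme which lies over the chart. -/
noncomputable def pencilg_co {B : Sch k₀} (o : B ⟶ P1 k₀ k) (hG : ⊤ ≤ o.left ⁻¹ᵁ psD 0)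
    (a : κ × Fin 2 → k) (i : κ) : Γ(B.left, ⊤) :=
  (o ≫ s1 k₀ k).left.appTop (cf k₀ (a (i, 0))) +
    o.left.appLE (psD 0) ⊤ hG (psf 0 1) * (o ≫ s1 k₀ k).left.appTop (cf k₀ (a (i, 1)))

theorem pencilg_co_comp {B T : Sch k₀} (t : T ⟶ B) (o : B ⟶ P1 k₀ k)
    (hG : ⊤ ≤ o.left ⁻¹ᵁ psD 0) (hG' : ⊤ ≤ (t ≫ o).left ⁻¹ᵁ psD 0) (a : κ × Fin 2 → k) (i : κ) :
    t.left.appTop (pencilg_co o hG a i) = pencilg_co (t ≫ o) hG' a i := by
  have e1 : ∀ c : k, t.left.appTop ((o ≫ s1 k₀ k).left.appTop (cf k₀ c)) =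
      ((t ≫ o) ≫ s1 k₀ k).left.appTop (cf k₀ c) := fun c => by
    rw [← CommRingCat.comp_apply, ← Scheme.Hom.comp_appTop, Category.assoc]
    rfl
  have e2 : t.left.appTop (o.left.appLE (psD 0) ⊤ hG (psf 0 1)) =
      (t ≫ o).left.appLE (psD 0) ⊤ hG' (psf 0 1) := by
    have h5 := Scheme.Hom.appLE_comp_appLE t.left o.left (psD 0) ⊤ ⊤ hG (le_of_eq rfl)
    have h6 : t.left.appLE ⊤ ⊤ (le_of_eq rfl) = t.left.appTop := Scheme.Hom.appLE_eq_app _
    rw [h6] at h5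
    exact congrArg (fun φ => φ (psf 0 1)) h5
  rw [pencilg_co, map_add, map_mul, e1, e1, e2]
  rfl

/-- A zero scheme over `P^1`, restricted to a scheme over the chart. -/
theorem pencilg_chart [Fintype κ] {X : Sch k₀} {x : X ⟶ pt k₀ k} {e : X ⟶ PSo k₀ k κ}
    (he : e ≫ PSo.str k₀ k κ = x) {a : κ × Fin 2 → k} {W : Sch k₀} {w : W ⟶ pt k₀ k}
    {j : W ⟶ pullback x (s1 k₀ k)}
    (H : IsZero (sgE x e he) (𝟙 (pt k₀ k)) (fun i => cf k₀ (a i)) w j)
    {B : Sch k₀} (o : B ⟶ P1 k₀ k) (hG : ⊤ ≤ o.left ⁻¹ᵁ psD 0) {D' : Sch k₀} {q : D' ⟶ W}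
    {toB' : D' ⟶ B} (pb : IsPullback q toB' (j ≫ pullback.snd _ _) o) :
    IsZero e (o ≫ s1 k₀ k) (pencilg_co o hG a) toB' (q ≫ j ≫ pullback.fst _ _) := by
  have hc : (q ≫ j ≫ pullback.fst x (s1 k₀ k)) ≫ e ≫ PSo.str k₀ k κ = toB' ≫ o ≫ s1 k₀ k := by
    rw [he, Category.assoc, Category.assoc, pullback.condition, ← Category.assoc toB', ← pb.w]
    simp only [Category.assoc]
  subst he
  refine ⟨hc, ?_, fun T t u h => ?_⟩
  · let P' := pullback (e ≫ PSo.str k₀ k κ) (o ≫ s1 k₀ k)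
    let i' : D' ⟶ P' := pullback.lift (q ≫ j ≫ pullback.fst (e ≫ PSo.str k₀ k κ) (s1 k₀ k)) toB' hc
    have cd : pullback.fst (e ≫ PSo.str k₀ k κ) (o ≫ s1 k₀ k) ≫ e ≫ PSo.str k₀ k κ =
        (pullback.snd (e ≫ PSo.str k₀ k κ) (o ≫ s1 k₀ k) ≫ o) ≫ s1 k₀ k := by
      rw [Category.assoc]
      exact pullback.condition
    let m : P' ⟶ pullback (e ≫ PSo.str k₀ k κ) (s1 k₀ k) :=
      pullback.lift (pullback.fst _ _) (pullback.snd _ _ ≫ o) cd
    have m1 : m ≫ pullback.fst (e ≫ PSo.str k₀ k κ) (s1 k₀ k) = pullback.fst _ _ := pullback.lift_fst _ _ _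
    have m2 : m ≫ pullback.snd (e ≫ PSo.str k₀ k κ) (s1 k₀ k) = pullback.snd _ _ ≫ o := pullback.lift_snd _ _ _
    have i1 : i' ≫ pullback.fst (e ≫ PSo.str k₀ k κ) (o ≫ s1 k₀ k) =
        q ≫ j ≫ pullback.fst (e ≫ PSo.str k₀ k κ) (s1 k₀ k) := pullback.lift_fst _ _ _
    have i2 : i' ≫ pullback.snd (e ≫ PSo.str k₀ k κ) (o ≫ s1 k₀ k) = toB' :=
      pullback.lift_snd _ _ _
    have h1 : IsPullback m (pullback.snd (e ≫ PSo.str k₀ k κ) (o ≫ s1 k₀ k))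
        (pullback.snd (e ≫ PSo.str k₀ k κ) (s1 k₀ k)) o := by
      refine IsPullback.of_right (h₁₂ := pullback.fst _ _) (v₁₃ := e ≫ PSo.str k₀ k κ)
        (h₂₂ := s1 k₀ k) ?_ m2 (IsPullback.of_hasPullback _ _)
      rw [m1]
      exact IsPullback.of_hasPullback _ _
    have h2 : IsPullback q (i' ≫ pullback.snd (e ≫ PSo.str k₀ k κ) (o ≫ s1 k₀ k))
        (j ≫ pullback.snd (e ≫ PSo.str k₀ k κ) (s1 k₀ k)) o := by
      rw [i2]
      exact pb
    have h3 : q ≫ j = i' ≫ m := by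
      refine pullback.hom_ext ?_ ?_
      · rw [Category.assoc, Category.assoc, m1, i1]
      · rw [Category.assoc, Category.assoc, m2, ← Category.assoc i', i2, pb.w]
    have h4 : IsPullback q i' j m := IsPullback.of_bot h2 h3 h1
    have h5 : IsPullback q.left i'.left j.left m.left := h4.map (Over.forget _)
    exact MorphismProperty.of_isPullback (P := @IsClosedImmersion) h5 (affzero_mono H)
  · have hz : u ≫ e ≫ PSo.str k₀ k κ = (t ≫ o) ≫ s1 k₀ k := by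
      rw [Category.assoc, ← h]
    let z : T ⟶ pullback (e ≫ PSo.str k₀ k κ) (s1 k₀ k) := pullback.lift u (t ≫ o) hz
    have z1 : z ≫ pullback.fst _ _ = u := pullback.lift_fst _ _ _
    have z2 : z ≫ pullback.snd _ _ = t ≫ o := pullback.lift_snd _ _ _
    have hstr : z ≫ sgE (e ≫ PSo.str k₀ k κ) e rfl ≫ PSo.str k₀ k (κ × Fin 2) = (t ≫ o) ≫ s1 k₀ k := by
      rw [pencilg_sgE_str, ← Category.assoc, z1, hz]
    have h1 := H.iff T ((t ≫ o) ≫ s1 k₀ k) z (by rw [hstr, Category.comp_id])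
    have hG' : ⊤ ≤ (t ≫ o).left ⁻¹ᵁ psD 0 := fun y _ => hG (Set.mem_univ _)
    have h2 := pencilg_vanO (e ≫ PSo.str k₀ k κ) e rfl z u (t ≫ o) z1 z2 hG'
      (fun p => ((t ≫ o) ≫ s1 k₀ k).left.appTop (cf k₀ (a p)))
    have h3 : (fun i => t.left.appTop (pencilg_co o hG a i)) = pencilg_co (t ≫ o) hG' a := by
      funext i
      exact pencilg_co_comp t o hG hG' a i
    rw [h3]
    refine Iff.trans ?_ (h1.trans h2)
    constructor
    · rintro ⟨v, hv1, hv2⟩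
      have hj : (v ≫ q) ≫ j = z := by
        refine pullback.hom_ext ?_ ?_
        · rw [z1, ← hv2]
          simp only [Category.assoc]
        · rw [z2, ← hv1, Category.assoc, Category.assoc, pb.w, Category.assoc]
      refine ⟨v ≫ q, ?_, hj⟩
      have h5 := H.comm
      rw [Category.comp_id] at h5
      rw [← h5, ← Category.assoc, hj, hstr]
    · rintro ⟨v, hv1, hv2⟩
      have hw : v ≫ j ≫ pullback.snd (e ≫ PSo.str k₀ k κ) (s1 k₀ k) = t ≫ o := by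
        rw [← Category.assoc, hv2, z2]
      refine ⟨pb.lift v t hw, pb.lift_snd _ _ _, ?_⟩
      rw [← Category.assoc, pb.lift_fst, ← Category.assoc, hv2, z1]

/-- The constants on the chart. -/
noncomputable def pencilg_phi (k₀ k : Type) [Field k₀] [Field k] [Algebra k₀ k] :
    k →+* Γ((P1 k₀ k).left, psD 0) :=
  ((Scheme.ΓSpecIso (CommRingCat.of k)).inv ≫ (s1 k₀ k).left.appLE ⊤ (psD 0) le_top).hom

/-- The function `y_1 / y_0` on the chart. -/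
noncomputable def pencilg_tau (k₀ k : Type) [Field k₀] [Field k] [Algebra k₀ k] :
    Γ((P1 k₀ k).left, psD 0) := psf (k := k) (0 : Fin 2) 1

/-- The value of the polynomial `P` at the coefficients, a function on the chart. -/
noncomputable def pencilg_R (k₀ : Type) [Field k₀] [Algebra k₀ k] (a : κ × Fin 2 → k)
    (P : MvPolynomial κ k) : Γ((P1 k₀ k).left, psD 0) :=
  eval₂ (pencilg_phi k₀ k) (fun i => pencilg_phi k₀ k (a (i, 0)) +
    pencilg_tau k₀ k * pencilg_phi k₀ k (a (i, 1))) P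

theorem pencilg_R_app {B : Sch k₀} (o : B ⟶ P1 k₀ k) (hG : ⊤ ≤ o.left ⁻¹ᵁ psD 0)
    (a : κ × Fin 2 → k) (P : MvPolynomial κ k) :
    o.left.appLE (psD 0) ⊤ hG (pencilg_R k₀ a P) =
      eval₂ (cstHom (o ≫ s1 k₀ k)) (pencilg_co o hG a) P := by
  have e1 : ∀ c : k, o.left.appLE (psD 0) ⊤ hG (pencilg_phi k₀ k c) =
      (o ≫ s1 k₀ k).left.appTop (cf k₀ c) := fun c => by
    have h5 := Scheme.Hom.appLE_comp_appLE o.left (s1 k₀ k).left ⊤ (psD 0) ⊤ le_top hG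
    have h6 : (o.left ≫ (s1 k₀ k).left).appLE ⊤ ⊤ le_top =
        (o.left ≫ (s1 k₀ k).left).appTop := Scheme.Hom.appLE_eq_app _
    rw [h6] at h5
    exact congrArg (fun φ => φ (cf k₀ c)) h5
  have h := MvPolynomial.eval₂_comp_left (o.left.appLE (psD 0) ⊤ hG).hom (pencilg_phi k₀ k)
    (fun i => pencilg_phi k₀ k (a (i, 0)) +
      pencilg_tau k₀ k * pencilg_phi k₀ k (a (i, 1))) P
  refine h.trans ?_
  have h1 : (o.left.appLE (psD 0) ⊤ hG).hom.comp (pencilg_phi k₀ k) =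
      cstHom (o ≫ s1 k₀ k) := RingHom.ext e1
  have h2 : (o.left.appLE (psD 0) ⊤ hG).hom ∘ (fun i => pencilg_phi k₀ k (a (i, 0)) +
      pencilg_tau k₀ k * pencilg_phi k₀ k (a (i, 1))) =
        pencilg_co o hG a := by
    funext i
    refine (map_add _ _ _).trans ?_
    refine congrArg₂ (· + ·) (e1 _) ?_
    refine (map_mul _ _ _).trans ?_
    exact congrArg₂ (· * ·) rfl (e1 _)
  rw [h1, h2]

end Chart

section Main

variable {k₀ : Type} [Field k₀] {k : Type} [Field k] [Algebra k₀ k] {κ : Type}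

theorem pencilg_unit_top {Z : Scheme.{0}} {V : Z.Opens} (R : Γ(Z, V)) {B : Scheme.{0}}
    (o : B ⟶ Z) (h : ⊤ ≤ o ⁻¹ᵁ V) (hu : IsUnit (o.appLE V ⊤ h R)) (z : B) :
    o z ∈ Z.basicOpen R := by
  have h1 := Scheme.basicOpen_of_isUnit B hu
  rw [Scheme.basicOpen_appLE] at h1
  have h2 : z ∈ (⊤ ⊓ o ⁻¹ᵁ Z.basicOpen R : B.Opens) := by
    rw [h1]
    trivial
  exact h2.2

theorem pencilg_unit_basic {Z : Scheme.{0}} {V : Z.Opens} (R : Γ(Z, V))
    (h : ⊤ ≤ (Z.basicOpen R).ι ⁻¹ᵁ V) : IsUnit ((Z.basicOpen R).ι.appLE V ⊤ h R) := by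
  have h1 : IsUnit (Z.presheaf.map (homOfLE (Z.basicOpen_le R)).op R) :=
    RingedSpace.isUnit_res_basicOpen Z.toRingedSpace R
  have h2 := h1.map ((Z.basicOpen R).ι.appLE (Z.basicOpen R) ⊤ (by simp)).hom
  have h3 : ((Z.basicOpen R).ι.appLE (Z.basicOpen R) ⊤ (by simp))
      (Z.presheaf.map (homOfLE (Z.basicOpen_le R)).op R) =
        (Z.basicOpen R).ι.appLE V ⊤ h R := by
    rw [← CommRingCat.comp_apply, Scheme.Hom.map_appLE]
  rw [← h3]
  exact h2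

/-- At a point with `τ = 0` the coefficients are constants. -/
theorem pencilg_co_zero {B : Sch k₀} (o : B ⟶ P1 k₀ k) (hG : ⊤ ≤ o.left ⁻¹ᵁ psD 0)
    (h0 : o.left.appLE (psD 0) ⊤ hG (psf 0 1) = 0) (a : κ × Fin 2 → k) :
    pencilg_co o hG a = fun i => (o ≫ s1 k₀ k).left.appTop (cf k₀ (a (i, 0))) := by
  funext i
  have h1 : pencilg_co o hG a i = (o ≫ s1 k₀ k).left.appTop (cf k₀ (a (i, 0))) +
      o.left.appLE (psD 0) ⊤ hG (psf 0 1) * (o ≫ s1 k₀ k).left.appTop (cf k₀ (a (i, 1))) := rfl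
  rw [h1, h0, zero_mul, add_zero]

theorem pencilg_isUnit {B : Sch k₀} (b : B ⟶ pt k₀ k) {c : k} (hc : c ≠ 0) :
    IsUnit (cstHom b c) := (IsUnit.mk0 c hc).map (cstHom b)

end Main

theorem tPencil (h1 : StZeroEx) (_h2 : StZeroB) (_h3 : StZeroY) (h4 : StBertOpen) : StPencil := by
  intro k₀ k _ _ _ _ V m hn
  have hinf : Infinite k := inferInstance
  -- the two polynomials
  have sV : SmoothOfRelativeDimension (m + 1) V.str.left := by
    have h := V.isVar.smooth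
    rw [hn] at h
    exact h
  obtain ⟨P₁, hP₁, B₁⟩ := h4 k₀ k V.κ V.X V.str V.emb V.emb_str V.closed m sV
  let x₂ : pullback V.str (s1 k₀ k) ⟶ pt k₀ k := pullback.fst V.str (s1 k₀ k) ≫ V.str
  have v1 : IsVar (s1 k₀ k) 1 := tPS k₀ k (Fin 2) 1 (Fintype.card_fin 2)
  have s2 : SmoothOfRelativeDimension (m + 1 + 1) x₂.left := by
    have h := (Var.isVar_prod V.isVar v1).smooth
    rw [hn] at h
    exact h
  obtain ⟨P₂, hP₂, B₂⟩ := h4 k₀ k (V.κ × Fin 2) (pullback V.str (s1 k₀ k)) x₂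
    (sgE V.str V.emb V.emb_str) (pencilg_sgE_str _ _ _) (pencilg_sgE_closed _ _ _ V.closed)
    (m + 1) s2
  obtain ⟨a, ha₂, ha₁, ha₀⟩ := pencilg_choice P₁ P₂ hP₁ hP₂ V.i
  -- the total space
  obtain ⟨W, w, j, hW⟩ := h1 k₀ k (V.κ × Fin 2) (pullback V.str (s1 k₀ k))
    (sgE V.str V.emb V.emb_str) (pt k₀ k) (𝟙 _) (fun i => cf k₀ (a i))
  have smW : SmoothOfRelativeDimension (m + 1) w.left := by
    refine B₂ (pt k₀ k) (𝟙 _) _ W w j hW ?_
    rw [pencilg_eval']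
    exact pencilg_isUnit _ ha₂
  -- the point
  obtain ⟨s, hs, hsD, hs0⟩ := pencilg_point (k₀ := k₀) (k := k)
  -- the fibre
  let f : W ⟶ P1 k₀ k := j ≫ pullback.snd _ _
  have pbY : IsPullback (pullback.fst f s) (pullback.snd f s) f s := IsPullback.of_hasPullback f s
  have zY : IsZero V.emb (s ≫ s1 k₀ k) (pencilg_co s hsD a) (pullback.snd f s)
      (pullback.fst f s ≫ j ≫ pullback.fst _ _) := pencilg_chart V.emb_str hW s hsD pbY
  have zY' : IsZero V.emb (𝟙 (pt k₀ k)) (fun i => cf k₀ (a (i, 0))) (pullback.snd f s)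
      (pullback.fst f s ≫ j ≫ pullback.fst _ _) := by
    rw [pencilg_co_zero s hsD hs0] at zY
    rw [hs] at zY
    exact zY
  have smY : SmoothOfRelativeDimension m (pullback.snd f s).left := by
    refine B₁ (pt k₀ k) (𝟙 _) _ _ _ _ zY' ?_
    rw [pencilg_eval']
    exact pencilg_isUnit _ ha₁
  -- the open set
  let R : Γ((P1 k₀ k).left, psD 0) := pencilg_R k₀ a P₁
  let O : (P1 k₀ k).left.Opens := (P1 k₀ k).left.basicOpen R
  have sO : ∀ z, s.left z ∈ O := by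
    refine pencilg_unit_top R s.left hsD ?_
    have e := pencilg_R_app s hsD a P₁
    refine e.symm ▸ ?_
    rw [pencilg_co_zero s hsD hs0, pencilg_eval]
    exact pencilg_isUnit _ ha₁
  have smO : SmoothOfRelativeDimension m (f.left ∣_ O) := by
    let B : Sch k₀ := Over.mk (O.ι ≫ (P1 k₀ k).hom)
    let o : B ⟶ P1 k₀ k := Over.homMk O.ι
    have hO : ⊤ ≤ O.ι ⁻¹ᵁ psD 0 := by
      intro y _
      exact (P1 k₀ k).left.basicOpen_le R y.2
    have hG : ⊤ ≤ o.left ⁻¹ᵁ psD 0 := hO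
    let D' : Sch k₀ := Over.mk ((f.left ⁻¹ᵁ O).ι ≫ W.hom)
    let q : D' ⟶ W := Over.homMk (f.left ⁻¹ᵁ O).ι
    let toB' : D' ⟶ B := Over.homMk (f.left ∣_ O) (by
      change (f.left ∣_ O) ≫ O.ι ≫ (P1 k₀ k).hom = (f.left ⁻¹ᵁ O).ι ≫ W.hom
      rw [← Category.assoc, morphismRestrict_ι, Category.assoc]
      exact congrArg (fun φ => (f.left ⁻¹ᵁ O).ι ≫ φ) (Over.w f))
    have pb : IsPullback q toB' f o :=
      over_isPullback _ _ _ _ (isPullback_morphismRestrict f.left O).flip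
    have zO := pencilg_chart V.emb_str hW o hG pb
    refine B₁ B (o ≫ s1 k₀ k) (pencilg_co o hG a) D' toB' _ zO ?_
    rw [← pencilg_R_app]
    exact pencilg_unit_basic R hO
  exact ⟨{
    a := a
    a_ne := ⟨V.i, ha₀⟩
    W := W
    w := w
    j := j
    isZeroW := hW
    smoothW := smW
    s := s
    s_str := hs
    isZero_s := pencilg_isZero_s hs hsD hs0
    Y := pullback f s
    y := pullback.snd f s
    ι := pullback.fst f s
    isFibre := pbY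
    isZeroY := zY'
    smoothY := smY
    O := O
    s_mem := sO
    smoothO := smO }⟩

end Pool.Agent.Lib.MP_4ca46c_ag.T2
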