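import Mathlib
import Pool.Agent.Lib.MP_4ca46c_ag.T2.SpecG
import Pool.Agent.Lib.MP_4ca46c_ag.Hyp.Square
import Pool.Agent.Lib.MP_4ca46c_ag.Hyp.Zero
import Pool.Agent.Lib.MP_4ca46c_ag.Std.Aff

/-!
# Zero schemes of hyperplane equations: existence and base change
-/

namespace Pool.Agent.Lib.MP_4ca46c_ag.T2

open CategoryTheory Limits AlgebraicGeometry
open Pool.Agent.Lib.MP_4ca46c_ag.Sign Pool.Agent.Lib.MP_4ca46c_ag.Hyp
open Pool.Agent.Lib.MP_4ca46c_ag.Std Pool.Agent.Lib.MP_4ca46c_ag.Div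
open Pool.Agent.Lib.MP_4ca46c_ag.Vtc

section Exists

variable {k₀ : Type} [Field k₀] {k : Type} [Field k] [Algebra k₀ k] {κ : Type} [Fintype κ]

/-- The homogeneous coordinates given by a morphism to projective space. -/
noncomputable def zero_C {Y : Sch k₀} (E : Y ⟶ PSo k₀ k κ) : Coord (𝟙 Y.left) κ :=
  (psCoord k κ).comap E.left (𝟙 Y.left) (E.left ≫ psStr k κ) (Category.id_comp _).symm
    fun _ z z' _ h => (Category.comp_id z).symm.trans (h.trans (Category.comp_id z'))

theorem zero_van {Y : Sch k₀} (E : Y ⟶ PSo k₀ k κ) {T : Sch k₀} (u : T ⟶ Y)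
    (a : κ → Γ(T.left, ⊤)) : (zero_C E).Van u.left a ↔ VanO (u ≫ E) a :=
  PreCoord.comap_van (PreCoord.ps k κ) E.left u.left a

/-- Factorization through a pull-back of the universal hyperplane section. -/
theorem zero_factor {Y : Sch k₀} (E : Y ⟶ PSo k₀ k κ) {P : Scheme.{0}} (p : P ⟶ Y.left)
    (c : κ → Γ(P, ⊤)) {T : Scheme.{0}} (w : T ⟶ P) :
    (∃ v, v ≫ pullback.snd (zero_C E).inc (AffineSpace.homOfVector p c) = w) ↔
      (zero_C E).Van (w ≫ p) (fun j => w.appTop (c j)) := by
  have h1 : (∃ v, v ≫ pullback.snd (zero_C E).inc (AffineSpace.homOfVector p c) = w) ↔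
      ∃ v, v ≫ (zero_C E).inc = w ≫ AffineSpace.homOfVector p c := by
    constructor
    · rintro ⟨v, rfl⟩
      exact ⟨v ≫ pullback.fst _ _, by rw [Category.assoc, Category.assoc, pullback.condition]⟩
    · rintro ⟨v, hv⟩
      exact ⟨pullback.lift v w hv, pullback.lift_snd _ _ _⟩
  rw [h1, (zero_C E).inc_iff, Category.assoc, AffineSpace.homOfVector_over]
  simp only [Scheme.Hom.comp_appTop, CommRingCat.comp_apply, AffineSpace.homOfVector_appTop_coord]

theorem zero_exists {Y : Sch k₀} (E : Y ⟶ PSo k₀ k κ) {B : Sch k₀} (b : B ⟶ pt k₀ k)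
    (a : κ → Γ(B.left, ⊤)) : ∃ (D : Sch k₀) (toB : D ⟶ B) (toY : D ⟶ Y), IsZero E b a toB toY := by
  let P : Sch k₀ := pullback (E ≫ PSo.str k₀ k κ) b
  let p : P ⟶ Y := pullback.fst (E ≫ PSo.str k₀ k κ) b
  let q : P ⟶ B := pullback.snd (E ≫ PSo.str k₀ k κ) b
  let c : κ → Γ(P.left, ⊤) := fun j => q.left.appTop (a j)
  let D : Sch k₀ := Over.mk (pullback.snd (zero_C E).inc (AffineSpace.homOfVector p.left c) ≫ P.hom)
  let i : D ⟶ P := Over.homMk (pullback.snd (zero_C E).inc (AffineSpace.homOfVector p.left c)) rfl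
  have hc : (i ≫ p) ≫ E ≫ PSo.str k₀ k κ = (i ≫ q) ≫ b := by
    rw [Category.assoc, Category.assoc]
    exact congrArg (fun φ => i ≫ φ) pullback.condition
  have hi : pullback.lift (i ≫ p) (i ≫ q) hc = i := by
    refine pullback.hom_ext ?_ ?_
    · exact pullback.lift_fst _ _ _
    · exact pullback.lift_snd _ _ _
  refine ⟨D, i ≫ q, i ≫ p, hc, ?_, fun T t u h => ?_⟩
  · rw [hi]
    exact MorphismProperty.pullback_snd (P := @IsClosedImmersion) (zero_C E).inc
      (AffineSpace.homOfVector p.left c) inferInstance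
  · let w : T ⟶ P := pullback.lift u t h
    have w1 : w ≫ p = u := pullback.lift_fst _ _ _
    have w2 : w ≫ q = t := pullback.lift_snd _ _ _
    have h1 : (∃ v, v ≫ i ≫ q = t ∧ v ≫ i ≫ p = u) ↔ ∃ v, v ≫ i = w := by
      constructor
      · rintro ⟨v, h1, h2⟩
        refine ⟨v, pullback.hom_ext ?_ ?_⟩
        · exact (Category.assoc _ _ _).trans (h2.trans w1.symm)
        · exact (Category.assoc _ _ _).trans (h1.trans w2.symm)
      · rintro ⟨v, hv⟩
        refine ⟨v, ?_, ?_⟩
        · rw [← Category.assoc, hv, w2]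
        · rw [← Category.assoc, hv, w1]
    have h2 : (∃ v, v ≫ i = w) ↔ ∃ v, v ≫ pullback.snd (zero_C E).inc
        (AffineSpace.homOfVector p.left c) = w.left := by
      constructor
      · rintro ⟨v, hv⟩
        exact ⟨v.left, geo_over hv⟩
      · rintro ⟨v, hv⟩
        refine ⟨Over.homMk v ?_, ?_⟩
        · change v ≫ pullback.snd (zero_C E).inc (AffineSpace.homOfVector p.left c) ≫ P.hom = T.hom
          rw [← Category.assoc, hv]
          exact Over.w w
        · apply Over.OverMorphism.ext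
          exact hv
    rw [h1, h2, zero_factor]
    have w3 : w.left ≫ p.left = u.left := geo_over w1
    have w4 : (fun j => w.left.appTop (c j)) = fun j => t.left.appTop (a j) := by
      funext j
      rw [← w2]
      change w.left.appTop (q.left.appTop (a j)) = _
      rw [← CommRingCat.comp_apply, ← Scheme.Hom.comp_appTop]
      rfl
    rw [w3, w4, zero_van]

end Exists

theorem tZeroEx : StZeroEx := by
  intro k₀ k _ _ _ κ _ Y E B b a
  exact zero_exists E b a

section Base

variable {k₀ : Type} [Field k₀] {k : Type} [Field k] [Algebra k₀ k] {κ : Type} [Fintype κ]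

/-- Zero schemes are determined up to unique factorization. -/
theorem zero_ext {Y : Sch k₀} {E : Y ⟶ PSo k₀ k κ} {B : Sch k₀} {b : B ⟶ pt k₀ k}
    {a : κ → Γ(B.left, ⊤)} {D : Sch k₀} {toB : D ⟶ B} {toY : D ⟶ Y} (H : IsZero E b a toB toY)
    {T : Sch k₀} {v v' : T ⟶ D} (h1 : v ≫ toB = v' ≫ toB) (h2 : v ≫ toY = v' ≫ toY) : v = v' := by
  have hm : Mono (pullback.lift toY toB H.comm).left := by
    have := H.closed
    infer_instance
  have hm' : Mono (pullback.lift toY toB H.comm) := (Over.forget _).mono_of_mono_map hm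
  rw [← cancel_mono (pullback.lift toY toB H.comm)]
  refine pullback.hom_ext ?_ ?_
  · rw [Category.assoc, Category.assoc, pullback.lift_fst]
    exact h2
  · rw [Category.assoc, Category.assoc, pullback.lift_snd]
    exact h1

omit [Fintype κ] in
theorem zero_appTop {A B C : Sch k₀} (t : A ⟶ B) (c : B ⟶ C) (a : κ → Γ(C.left, ⊤)) :
    (fun j => (t ≫ c).left.appTop (a j)) = fun j => t.left.appTop (c.left.appTop (a j)) := by
  funext j
  rw [← CommRingCat.comp_apply, ← Scheme.Hom.comp_appTop]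
  rfl

/-- A cartesian square from existence and uniqueness. -/
theorem zero_pb {A B C D : Sch k₀} {f : A ⟶ B} {g : A ⟶ C} {h : B ⟶ D} {i : C ⟶ D}
    (w : f ≫ h = g ≫ i) (ex : ∀ (T : Sch k₀) (x : T ⟶ B) (y : T ⟶ C), x ≫ h = y ≫ i →
      ∃ l : T ⟶ A, l ≫ f = x ∧ l ≫ g = y)
    (un : ∀ (T : Sch k₀) (l l' : T ⟶ A), l ≫ f = l' ≫ f → l ≫ g = l' ≫ g → l = l') :
    IsPullback f g h i := by
  refine ⟨⟨w⟩, ⟨PullbackCone.IsLimit.mk _ (fun s => (ex _ s.fst s.snd s.condition).choose)
    (fun s => (ex _ s.fst s.snd s.condition).choose_spec.1)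
    (fun s => (ex _ s.fst s.snd s.condition).choose_spec.2) (fun s m h1 h2 => ?_)⟩⟩
  refine un _ _ _ ?_ ?_
  · rw [h1, (ex _ s.fst s.snd s.condition).choose_spec.1]
  · rw [h2, (ex _ s.fst s.snd s.condition).choose_spec.2]

end Base

theorem tZeroB : StZeroB := by
  intro k₀ k _ _ _ κ _ Y E B b a D toB toY H B' c D' toB'
  refine ⟨fun q pb => ?_, fun toY' H' => ?_⟩
  · have hc : (q ≫ toY) ≫ E ≫ PSo.str k₀ k κ = toB' ≫ c ≫ b := by
      rw [Category.assoc, H.comm, ← Category.assoc, pb.w, Category.assoc]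
    refine ⟨hc, ?_, fun T t u h => ?_⟩
    · -- base change of the closed immersion
      let P := pullback (E ≫ PSo.str k₀ k κ) b
      let P' := pullback (E ≫ PSo.str k₀ k κ) (c ≫ b)
      let i : D ⟶ P := pullback.lift toY toB H.comm
      let i' : D' ⟶ P' := pullback.lift (q ≫ toY) toB' hc
      let m : P' ⟶ P := pullback.lift (pullback.fst _ _) (pullback.snd _ _ ≫ c) (by
        rw [Category.assoc]
        exact pullback.condition)
      have h1 : IsPullback m (pullback.snd (E ≫ PSo.str k₀ k κ) (c ≫ b))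
          (pullback.snd (E ≫ PSo.str k₀ k κ) b) c := by
        refine IsPullback.of_right (h₁₂ := pullback.fst _ _) (v₁₃ := E ≫ PSo.str k₀ k κ)
          (h₂₂ := b) ?_ (pullback.lift_snd _ _ _) (IsPullback.of_hasPullback _ _)
        have e : m ≫ pullback.fst (E ≫ PSo.str k₀ k κ) b = pullback.fst _ _ :=
          pullback.lift_fst _ _ _
        rw [e]
        exact IsPullback.of_hasPullback _ _
      have h2 : IsPullback q (i' ≫ pullback.snd (E ≫ PSo.str k₀ k κ) (c ≫ b))
          (i ≫ pullback.snd (E ≫ PSo.str k₀ k κ) b) c := by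
        have e1 : i' ≫ pullback.snd (E ≫ PSo.str k₀ k κ) (c ≫ b) = toB' := pullback.lift_snd _ _ _
        have e2 : i ≫ pullback.snd (E ≫ PSo.str k₀ k κ) b = toB := pullback.lift_snd _ _ _
        rw [e1, e2]
        exact pb
      have h3 : q ≫ i = i' ≫ m := by
        refine pullback.hom_ext ?_ ?_
        · rw [Category.assoc, Category.assoc, pullback.lift_fst, pullback.lift_fst,
            pullback.lift_fst]
        · rw [Category.assoc, Category.assoc, pullback.lift_snd, pullback.lift_snd,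
            ← Category.assoc, pullback.lift_snd, pb.w]
      have h4 : IsPullback q i' i m := IsPullback.of_bot h2 h3 h1
      have h5 : IsPullback q.left i'.left i.left m.left := h4.map (Over.forget _)
      exact MorphismProperty.of_isPullback (P := @IsClosedImmersion) h5 H.closed
    · have h' : u ≫ E ≫ PSo.str k₀ k κ = (t ≫ c) ≫ b := by
        rw [h, Category.assoc]
      have h1 := H.iff T (t ≫ c) u h'
      rw [zero_appTop] at h1
      rw [← h1]
      constructor
      · rintro ⟨v, h2, h3⟩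
        refine ⟨v ≫ q, ?_, ?_⟩
        · rw [Category.assoc, pb.w, ← Category.assoc, h2]
        · rw [Category.assoc]
          exact h3
      · rintro ⟨v, h2, h3⟩
        refine ⟨pb.lift v t h2, pb.lift_snd _ _ _, ?_⟩
        rw [← Category.assoc, pb.lift_fst, h3]
  · have h1 : toY' ≫ E ≫ PSo.str k₀ k κ = (toB' ≫ c) ≫ b := by
      rw [Category.assoc]
      exact H'.comm
    have h2 := (H'.iff D' toB' toY' H'.comm).1 ⟨𝟙 _, Category.id_comp _, Category.id_comp _⟩
    have h3 := H.iff D' (toB' ≫ c) toY' h1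
    rw [zero_appTop] at h3
    obtain ⟨q, hq1, hq2⟩ := h3.2 h2
    refine ⟨q, zero_pb hq1 (fun T x y hxy => ?_) (fun T l l' e1 e2 => ?_), hq2⟩
    · have c1 : (x ≫ toY) ≫ E ≫ PSo.str k₀ k κ = y ≫ c ≫ b := by
        rw [Category.assoc, H.comm, ← Category.assoc, hxy, Category.assoc]
      have c2 : (x ≫ toY) ≫ E ≫ PSo.str k₀ k κ = (x ≫ toB) ≫ b := by
        rw [Category.assoc, H.comm, Category.assoc]
      have v1 := (H.iff T (x ≫ toB) (x ≫ toY) c2).1 ⟨x, rfl, rfl⟩
      rw [hxy, zero_appTop] at v1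
      obtain ⟨l, l1, l2⟩ := (H'.iff T y (x ≫ toY) c1).2 v1
      refine ⟨l, zero_ext H ?_ ?_, l1⟩
      · rw [Category.assoc, hq1, ← Category.assoc, l1, hxy]
      · rw [Category.assoc, hq2, l2]
    · refine zero_ext H' e2 ?_
      rw [← hq2, ← Category.assoc, ← Category.assoc, e1]

theorem tZeroY : StZeroY := by
  intro k₀ k _ _ _ κ _ Y E B b a D toB toY H Y' g D' toY'
  refine ⟨fun q pb => ?_, fun toB' H' => ?_⟩
  · have hc : toY' ≫ (g ≫ E) ≫ PSo.str k₀ k κ = (q ≫ toB) ≫ b := by
      have e : toY' ≫ (g ≫ E) ≫ PSo.str k₀ k κ = (toY' ≫ g) ≫ E ≫ PSo.str k₀ k κ := by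
        simp only [Category.assoc]
      rw [e, ← pb.w, Category.assoc, H.comm, Category.assoc]
    refine ⟨hc, ?_, fun T t u h => ?_⟩
    · let P := pullback (E ≫ PSo.str k₀ k κ) b
      let P' := pullback ((g ≫ E) ≫ PSo.str k₀ k κ) b
      let i : D ⟶ P := pullback.lift toY toB H.comm
      let i' : D' ⟶ P' := pullback.lift toY' (q ≫ toB) hc
      let m : P' ⟶ P := pullback.lift (pullback.fst _ _ ≫ g) (pullback.snd _ _) (by
        rw [Category.assoc, ← Category.assoc g]
        exact pullback.condition)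
      have m1 : m ≫ pullback.fst (E ≫ PSo.str k₀ k κ) b = pullback.fst _ _ ≫ g :=
        pullback.lift_fst _ _ _
      have m2 : m ≫ pullback.snd (E ≫ PSo.str k₀ k κ) b = pullback.snd _ _ :=
        pullback.lift_snd _ _ _
      have i1 : i ≫ pullback.fst (E ≫ PSo.str k₀ k κ) b = toY := pullback.lift_fst _ _ _
      have i2 : i ≫ pullback.snd (E ≫ PSo.str k₀ k κ) b = toB := pullback.lift_snd _ _ _
      have i1' : i' ≫ pullback.fst ((g ≫ E) ≫ PSo.str k₀ k κ) b = toY' :=
        pullback.lift_fst _ _ _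
      have i2' : i' ≫ pullback.snd ((g ≫ E) ≫ PSo.str k₀ k κ) b = q ≫ toB :=
        pullback.lift_snd _ _ _
      have h1 : IsPullback m (pullback.fst ((g ≫ E) ≫ PSo.str k₀ k κ) b)
          (pullback.fst (E ≫ PSo.str k₀ k κ) b) g := by
        refine IsPullback.of_right (h₁₂ := pullback.snd _ _) (v₁₃ := b)
          (h₂₂ := E ≫ PSo.str k₀ k κ) ?_ m1 (IsPullback.of_hasPullback _ _).flip
        rw [m2, ← Category.assoc]
        exact (IsPullback.of_hasPullback _ _).flip
      have h2 : IsPullback q (i' ≫ pullback.fst ((g ≫ E) ≫ PSo.str k₀ k κ) b)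
          (i ≫ pullback.fst (E ≫ PSo.str k₀ k κ) b) g := by
        rw [i1, i1']
        exact pb
      have h3 : q ≫ i = i' ≫ m := by
        refine pullback.hom_ext ?_ ?_
        · rw [Category.assoc, Category.assoc, m1, i1, ← Category.assoc, i1', pb.w]
        · rw [Category.assoc, Category.assoc, m2, i2, i2']
      have h4 : IsPullback q i' i m := IsPullback.of_bot h2 h3 h1
      have h5 : IsPullback q.left i'.left i.left m.left := h4.map (Over.forget _)
      exact MorphismProperty.of_isPullback (P := @IsClosedImmersion) h5 H.closed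
    · have h' : (u ≫ g) ≫ E ≫ PSo.str k₀ k κ = t ≫ b := by
        rw [← h, Category.assoc, Category.assoc]
      have h1 := H.iff T t (u ≫ g) h'
      rw [Category.assoc] at h1
      rw [← h1]
      constructor
      · rintro ⟨v, h2, h3⟩
        refine ⟨v ≫ q, ?_, ?_⟩
        · rw [Category.assoc]
          exact h2
        · rw [Category.assoc, pb.w, ← Category.assoc, h3]
      · rintro ⟨v, h2, h3⟩
        refine ⟨pb.lift v u h3, ?_, pb.lift_snd _ _ _⟩
        rw [← Category.assoc, pb.lift_fst, h2]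
  · have h1 : (toY' ≫ g) ≫ E ≫ PSo.str k₀ k κ = toB' ≫ b := by
      rw [← H'.comm, Category.assoc, Category.assoc]
    have h2 := (H'.iff D' toB' toY' H'.comm).1 ⟨𝟙 _, Category.id_comp _, Category.id_comp _⟩
    have h3 := H.iff D' toB' (toY' ≫ g) h1
    rw [Category.assoc] at h3
    obtain ⟨q, hq1, hq2⟩ := h3.2 h2
    refine ⟨q, zero_pb hq2 (fun T x y hxy => ?_) (fun T l l' e1 e2 => ?_), hq1⟩
    · have c1 : y ≫ (g ≫ E) ≫ PSo.str k₀ k κ = (x ≫ toB) ≫ b := by
        rw [Category.assoc, ← Category.assoc, ← hxy, Category.assoc, H.comm, Category.assoc]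
      have c2 : (x ≫ toY) ≫ E ≫ PSo.str k₀ k κ = (x ≫ toB) ≫ b := by
        rw [Category.assoc, H.comm, Category.assoc]
      have v1 := (H.iff T (x ≫ toB) (x ≫ toY) c2).1 ⟨x, rfl, rfl⟩
      rw [hxy, Category.assoc] at v1
      obtain ⟨l, l1, l2⟩ := (H'.iff T (x ≫ toB) y c1).2 v1
      refine ⟨l, zero_ext H ?_ ?_, l2⟩
      · rw [Category.assoc, hq1, l1]
      · rw [Category.assoc, hq2, ← Category.assoc, l2, hxy]
    · refine zero_ext H' ?_ e2
      rw [← hq1, ← Category.assoc, ← Category.assoc, e1]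

end Pool.Agent.Lib.MP_4ca46c_ag.T2
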