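import Mathlib
import Pool.Agent.Lib.MP_4ca46c_ag.Two.VRK
import Pool.Agent.Lib.MP_4ca46c_ag.Two.VRQ
import Pool.Agent.Lib.MP_4ca46c_ag.Two.NetRel

/-!
# Even Künneth components

The relation of the net in even degrees, and the quasi-inverse, from the algebraicity of the
projectors onto the cohomology of even degree.
-/

set_option autoImplicit false

open CategoryTheory MonoidalCategory CartesianMonoidalCategory TensorProduct

namespace Pool.Agent.Lib.MP_4ca46c_ag.T2

open Pool.Agent.Lib.MP_4ca46c_ag.Geo Pool.Agent.Lib.MP_4ca46c_ag.Geo.WeilCohomology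
open Pool.Agent.Lib.MP_4ca46c_ag.Two

section

variable {K : Type} [Field K] [CharZero K] {𝒱 : Type 1} [Category.{0} 𝒱]
  [CartesianMonoidalCategory 𝒱] (W : WeilCohomology K 𝒱)

/-- The projectors onto the cohomology of even degree are algebraic. -/
def EvenK (X : 𝒱) : Prop := ∀ i, Even i → W.pi X i ∈ W.Cor X X 0

/-- The relation of the net in even degrees. -/
def RelE (X : 𝒱) (η : W.H X) : Prop := ∀ m : ℕ, Even m → ∃ w ∈ W.Cor (X ⊗ X) (X ⊗ X) (-1),
  ∀ z ∈ W.gr (X ⊗ X) m, W.tm η η * z = W.tm η η * w ((W.tm η 1 + W.tm 1 η) * z) -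
    (W.tm η 1 + W.tm 1 η) * w (W.tm η η * z)

variable {W}

theorem EvenK.even {X : 𝒱} (h : EvenK W X) : W.even X ∈ W.Cor X X 0 := by
  rw [WeilCohomology.even]
  exact AddSubgroup.sum_mem _ fun i hi => h i (Finset.mem_filter.1 hi).2

theorem evenK_of_kunneth {X : 𝒱} (h : W.Kunneth X) : EvenK W X :=
  fun i _ => W.kunneth_iff.1 h i

end

section VRQ

variable {K : Type} [Field K] [CharZero K] {𝒱 : Type 1} [Category.{0} 𝒱]
  [CartesianMonoidalCategory 𝒱] {W : WeilCohomology K 𝒱} {X : 𝒱}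

open VRQAux

/-- traces of algebraic correspondences supported on the even or on the odd part are rational -/
theorem evena_rat {c : K} (hc : c = 1 ∨ c = -1) {f : W.E X} (hf : f ∈ W.Cor X X 0)
    (hfc : f * (W.eps X : W.E X) = c • f) : ∃ q : ℚ, W.t X f = q := by
  obtain ⟨q, hq⟩ := W.trace_eps_rat hf
  have h2 : W.t X (f * (W.eps X : W.E X)) = q := hq
  rw [hfc, map_smul, smul_eq_mul] at h2
  rcases hc with rfl | rfl
  · exact ⟨q, by rw [← h2, one_mul]⟩
  · exact ⟨-q, by rw [Rat.cast_neg, ← h2, neg_one_mul, neg_neg]⟩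

/-- The claim of `Two/VRQ.lean`, for an operator supported on the even or on the odd part. -/
theorem evena_core {c : K} (hc : c = 1 ∨ c = -1) {T g : W.E X} (hT : T ∈ W.Cor X X 1)
    (hTi : T * (W.eps X : W.E X) = c • T)
    (hg : g ∈ W.R X (-1)) (hTg : T * g * T = T) : ∃ θ ∈ W.Cor X X (-1), T * θ * T = T := by
  classical
  obtain ⟨φ, hφ⟩ := exists_retraction K
  have hφ1 : ∀ q : ℚ, φ (q : K) = q := fun q => (hφ q 0).2
  obtain ⟨l, hl⟩ := (Finsupp.mem_span_iff_linearCombination K _ g).1 hg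
  rw [Finsupp.linearCombination_apply, Finsupp.sum] at hl
  have hrat : ∀ (k : (W.Cor X X (-1) : Set (W.E X))) (y : W.E X), y ∈ W.Cor X X (-1) →
      ∃ q : ℚ, W.t X (y * T * k * T) = q := by
    intro k y hy
    refine evena_rat hc (A_cast (A_mul (A_mul (A_mul hy hT) k.2) hT) (by ring)) ?_
    rw [mul_assoc, hTi, mul_smul_comm]
  have hrat' : ∀ y : W.E X, y ∈ W.Cor X X (-1) → ∃ q : ℚ, W.t X (y * T) = q := by
    intro y hy
    refine evena_rat hc (A_cast (A_mul hy hT) (by ring)) ?_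
    rw [mul_assoc, hTi, mul_smul_comm]
  obtain ⟨g', hg'⟩ : ∃ g' : W.E X, g' = ∑ k ∈ l.support, ((φ (l k) : ℚ) : K) • (k : W.E X) :=
    ⟨_, rfl⟩
  have hg'A : g' ∈ W.Cor X X (-1) := by
    rw [hg']
    exact AddSubgroup.sum_mem _ fun k _ => W.cor_rat k.2 _
  have hkey : ∀ y ∈ W.Cor X X (-1), W.t X (y * T * g' * T) = W.t X (y * T) := by
    intro y hy
    choose q hq using fun k => hrat k y hy
    obtain ⟨q₀, hq₀⟩ := hrat' y hy
    have e1 : W.t X (y * T * g' * T) = ∑ k ∈ l.support, ((φ (l k) * q k : ℚ) : K) := by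
      rw [hg', Finset.mul_sum, Finset.sum_mul, map_sum]
      refine Finset.sum_congr rfl fun k _ => ?_
      rw [mul_smul_comm, smul_mul_assoc, map_smul, hq, smul_eq_mul, Rat.cast_mul]
    have e2 : W.t X (y * T) = ∑ k ∈ l.support, ((q k : ℚ) : K) * l k := by
      have h1 : y * T = y * T * g * T := by
        rw [mul_assoc (y * T), mul_assoc y T, ← mul_assoc T, hTg]
      rw [h1, ← hl, Finset.mul_sum, Finset.sum_mul, map_sum]
      refine Finset.sum_congr rfl fun k _ => ?_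
      rw [mul_smul_comm, smul_mul_assoc, map_smul, hq, smul_eq_mul, mul_comm]
    have e3 : φ (W.t X (y * T)) = ∑ k ∈ l.support, φ (l k) * q k := by
      rw [e2, map_sum]
      refine Finset.sum_congr rfl fun k _ => ?_
      rw [(hφ (q k) (l k)).1, mul_comm]
    rw [e1, ← Rat.cast_sum, ← e3, hq₀, hφ1]
  -- the numerically trivial error
  have hT1 : T ∈ W.R X 1 := cor_le hT
  have hg'R : g' ∈ W.R X (-1) := cor_le hg'A
  obtain ⟨n, hn⟩ : ∃ n, n = T - T * g' * T := ⟨_, rfl⟩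
  have hnN : n ∈ W.N X 1 := by
    refine N_iff.2 ⟨?_, fun y hy => ?_⟩
    · rw [hn]
      exact Submodule.sub_mem _ hT1 (R_cast (R_mul (R_mul hT1 hg'R) hT1) (by ring))
    · refine Submodule.span_induction (p := fun y _ => W.t X (y * n) = 0) (fun y hy => ?_)
        (by rw [zero_mul, map_zero]) (fun a b _ _ ha hb => by rw [add_mul, map_add, ha, hb, add_zero])
        (fun c a _ ha => by rw [smul_mul_assoc, map_smul, ha, smul_zero]) hy
      rw [hn, mul_sub, map_sub, ← mul_assoc, ← mul_assoc, hkey y hy, sub_self]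
  -- lifting
  obtain ⟨x, hx⟩ : ∃ x, x = g' * T := ⟨_, rfl⟩
  have hxA : x ∈ W.Cor X X 0 := by
    rw [hx]
    exact A_cast (A_mul hg'A hT) (by ring)
  have hxx : x - x * x = g' * n := by
    rw [hx, hn, mul_sub, mul_assoc g' T (g' * T), mul_assoc T g' T]
  have hxN : g' * n ∈ W.N X 0 := N_cast (N_mul_left hnN hg'R) (by ring)
  obtain ⟨s, r, he, hr⟩ := lift_idem x (by rw [hxx]; exact N_nilpotent hxN)
  have hsA : Polynomial.aeval x s ∈ W.Cor X X 0 := aeval_mem hxA s
  have hrA : Polynomial.aeval x r ∈ W.Cor X X 0 := aeval_mem hxA r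
  generalize Polynomial.aeval x s = u at he hr hsA
  generalize Polynomial.aeval x r = v at hr hrA
  obtain ⟨e, he'⟩ : ∃ e, e = u * x := ⟨_, rfl⟩
  rw [← he'] at he hr
  -- the product `T (1 - e)`
  obtain ⟨ν, hν⟩ : ∃ ν, ν = T * (1 - e) := ⟨_, rfl⟩
  have hνN : ν ∈ W.N X 1 := by
    have h1 : ν = n + T * (g' * n) * v := by
      have h2 : T * (x - e) = T * (g' * n) * v := by rw [hr, hxx, ← mul_assoc]
      rw [hν, ← h2, hn, hx]
      noncomm_ring
    rw [h1]
    exact Submodule.add_mem _ hnN (N_cast (N_mul_right (N_mul_left hxN hT1) (cor_le hrA))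
      (by ring))
  have hee : e * (g * T) = e := by
    rw [he', hx, mul_assoc u, mul_assoc g' T, ← mul_assoc T g T, hTg]
  have hef : e * (1 - e) = 0 := by rw [mul_sub, mul_one, he, sub_self]
  have hνg : ν * g * ν = ν := by
    have h1 : ν * g * ν = (T * (g * T) - T * (e * (g * T))) * (1 - e) := by
      have h2 : T * (1 - e) * g * (T * (1 - e)) = T * (1 - e) * (g * T) * (1 - e) := by
        simp only [mul_assoc]
      rw [hν, h2]
      congr 1
      rw [mul_sub, mul_one, sub_mul, mul_assoc T e]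
    rw [h1, hee, ← mul_assoc T g T, hTg, sub_mul, mul_assoc T e, hef, mul_zero, sub_zero, hν]
  have hgν : g * ν = 0 := by
    obtain ⟨k, hk⟩ := N_nilpotent (N_cast (N_mul_left hνN hg) (by ring) : g * ν ∈ W.N X 0)
    have h1 : g * ν * (g * ν) = g * ν := by rw [mul_assoc g ν, ← mul_assoc ν g ν, hνg]
    have h2 : ∀ k : ℕ, (g * ν) ^ (k + 1) = g * ν := by
      intro k
      induction k with
      | zero => rw [zero_add, pow_one]
      | succ k ih => rw [pow_succ, ih, h1]
    rw [← h2 k, pow_succ, hk, zero_mul]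
  have hν0 : ν = 0 := by rw [← hνg, mul_assoc, hgν, mul_zero]
  refine ⟨u * g', A_cast (A_mul hsA hg'A) (by ring), ?_⟩
  have h1 : T * (u * g') * T = T * e := by
    rw [he', hx]
    simp only [mul_assoc]
  rw [h1]
  rw [hν, mul_sub, mul_one, sub_eq_zero] at hν0
  exact hν0.symm


theorem evena_eps {r : ℤ} {f : W.E X} (hf : f ∈ W.R X r) :
    (W.eps X : W.E X) * f = f * (W.eps X : W.E X) := by
  refine W.hom_ext fun l x hx => ?_
  rw [Module.End.mul_apply, Module.End.mul_apply, W.eps_gr hx, map_smul]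
  rcases lt_or_ge ((l : ℤ) + 2 * r) 0 with h | h
  · rw [R_gr_zero hf hx h, map_zero, smul_zero]
  · obtain ⟨m, hm⟩ := Int.eq_ofNat_of_zero_le h
    have h1 : f x ∈ W.gr X m := R_gr hf hx hm.symm
    rw [W.eps_gr h1]
    congr 1
    rcases Nat.even_or_odd l with hl | hl
    · have hm2 : Even m := by
        obtain ⟨a, ha⟩ := hl
        exact (Int.even_coe_nat m).1 ⟨a + r, by rw [← hm, ha]; push_cast; ring⟩
      rw [hl.neg_one_pow, hm2.neg_one_pow]
    · have hm2 : Odd m := by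
        obtain ⟨a, ha⟩ := hl
        exact (Int.odd_coe_nat m).1 ⟨a + r, by rw [← hm, ha]; push_cast; ring⟩
      rw [hl.neg_one_pow, hm2.neg_one_pow]

/-- **Quasi-inverse with rational coefficients**, from the sign conjecture. -/
theorem tVRQE {η : W.H X} (hη : η ∈ W.Alg X 1) (hK : W.even X ∈ W.Cor X X 0)
    (hG : ∃ G ∈ W.R X (-1), ∀ z, η * G (η * z) = η * z) : QInv W X η := by
  obtain ⟨g, hg, hgη⟩ := hG
  obtain ⟨L, hL⟩ : ∃ L : W.E X, L = LinearMap.mulLeft K η := ⟨_, rfl⟩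
  have hLA : L ∈ W.Cor X X 1 := by
    rw [hL]
    exact A_cast (W.cor_mul hη) (by norm_num)
  have hLg : L * g * L = L := by
    rw [hL]
    ext z
    exact hgη z
  have h1e : (1 : W.E X) ∈ W.Cor X X 0 := W.cor_id X
  have hεA : (W.eps X : W.E X) ∈ W.Cor X X 0 := W.sign_eps (W.sign_iff.2 hK)
  have hεε : (W.eps X : W.E X) * W.eps X = 1 := W.eps_eps
  -- the projectors
  obtain ⟨e, he⟩ : ∃ e : K → W.E X, ∀ c, e c = (2⁻¹ : K) • (1 + c • (W.eps X : W.E X)) :=
    ⟨_, fun _ => rfl⟩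
  have heA : ∀ c : ℚ, e (c : K) ∈ W.Cor X X 0 := by
    intro c
    rw [he]
    have h2 := W.cor_rat (AddSubgroup.add_mem _ h1e (W.cor_rat hεA c)) 2⁻¹
    rw [Rat.cast_inv, Rat.cast_ofNat] at h2
    exact h2
  have hee : ∀ c : K, c * c = 1 → e c * e c = e c := by
    intro c hc
    rw [he, smul_mul_smul_comm, add_mul, one_mul, mul_add, mul_one, smul_mul_smul_comm, hεε, hc,
      one_smul]
    have h3 : (1 + c • (W.eps X : W.E X) + (c • (W.eps X : W.E X) + 1)) =
        (2 : K) • (1 + c • (W.eps X : W.E X)) := by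
      rw [two_smul]
      abel
    rw [h3, smul_smul, mul_assoc, inv_mul_cancel₀ (two_ne_zero (α := K)), mul_one]
  have heε : ∀ c : K, c * c = 1 → e c * (W.eps X : W.E X) = c • e c := by
    intro c hc
    have h3 : c • (1 + c • (W.eps X : W.E X)) = (W.eps X : W.E X) + c • 1 := by
      rw [smul_add, smul_smul, hc, one_smul, add_comm]
    rw [he, smul_mul_assoc, add_mul, one_mul, smul_mul_assoc, hεε, smul_comm c (2⁻¹ : K), h3]
  have heR : ∀ (c : K) {r : ℤ} {f : W.E X}, f ∈ W.R X r → e c * f = f * e c := by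
    intro c r f hf
    rw [he, smul_mul_assoc, add_mul, one_mul, smul_mul_assoc, evena_eps hf, mul_smul_comm, mul_add,
      mul_one, mul_smul_comm]
  have hT : ∀ c : ℚ, (c = 1 ∨ c = -1) →
      ∃ θ ∈ W.Cor X X (-1), L * e (c : K) * θ * (L * e (c : K)) = L * e (c : K) := by
    intro c hc
    have hc' : (c : K) = 1 ∨ (c : K) = -1 := by
      rcases hc with rfl | rfl
      · exact Or.inl Rat.cast_one
      · exact Or.inr (by rw [Rat.cast_neg, Rat.cast_one])
    have hcc : (c : K) * c = 1 := by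
      rcases hc' with h | h <;> rw [h] <;> norm_num
    refine evena_core hc' (A_cast (A_mul hLA (heA c)) (by ring)) ?_ hg ?_
    · rw [mul_assoc, heε _ hcc, mul_smul_comm]
    · have h1 : e (c : K) * g = g * e (c : K) := heR _ hg
      have h2 : e (c : K) * L = L * e (c : K) := heR _ (cor_le hLA)
      rw [mul_assoc L, h1, ← mul_assoc L, mul_assoc (L * g), ← mul_assoc (e (c : K)), h2,
        mul_assoc L (e (c : K)), hee _ hcc, ← mul_assoc, hLg]
  obtain ⟨θ, hθ, hθT⟩ := hT 1 (Or.inl rfl)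
  obtain ⟨θ', hθ', hθT'⟩ := hT (-1) (Or.inr rfl)
  have hsum : e ((1 : ℚ) : K) + e ((-1 : ℚ) : K) = 1 := by
    have h3 : (1 + ((1 : ℚ) : K) • (W.eps X : W.E X) +
        (1 + ((-1 : ℚ) : K) • (W.eps X : W.E X))) = (2 : K) • (1 : W.E X) := by
      have h4 : ((-1 : ℚ) : K) • (W.eps X : W.E X) = -(W.eps X : W.E X) := by
        rw [Rat.cast_neg, Rat.cast_one]
        exact neg_one_smul K (W.eps X : W.E X)
      rw [h4, Rat.cast_one, one_smul, two_smul]
      abel
    rw [he, he, ← smul_add, h3, smul_smul, inv_mul_cancel₀ (two_ne_zero (α := K)), one_smul]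
  have hLe : ∀ c : K, e c * L = L * e c := fun c => heR c (cor_le hLA)
  refine ⟨e ((1 : ℚ) : K) * θ * e ((1 : ℚ) : K) + e ((-1 : ℚ) : K) * θ' * e ((-1 : ℚ) : K),
    AddSubgroup.add_mem _ (A_cast (A_mul (A_mul (heA 1) hθ) (heA 1)) (by ring))
      (A_cast (A_mul (A_mul (heA (-1)) hθ') (heA (-1))) (by ring)), fun z => ?_⟩
  have key : L * (e ((1 : ℚ) : K) * θ * e ((1 : ℚ) : K) +
      e ((-1 : ℚ) : K) * θ' * e ((-1 : ℚ) : K)) * L = L := by
    have h3 : ∀ (c : K) (t : W.E X), L * (e c * t * e c) * L = L * e c * t * (L * e c) := by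
      intro c t
      rw [← hLe c]
      simp only [mul_assoc]
      rw [← mul_assoc (e c) L, hLe c]
      simp only [mul_assoc]
    rw [mul_add, add_mul, h3, h3, hθT, hθT', ← mul_add, hsum, mul_one]
  have h4 := LinearMap.congr_fun key z
  rw [hL] at h4
  exact h4

end VRQ

section NetRel

variable {K : Type} [Field K] [CharZero K] {𝒱 𝒱' : Type 1} [Category.{0} 𝒱]
  [CartesianMonoidalCategory 𝒱] [Category.{0} 𝒱'] [CartesianMonoidalCategory 𝒱']
  {W : WeilCohomology K 𝒱} {W' : WeilCohomology K 𝒱'}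

open NetRelAux

/-- the relation on `Y`, in one degree -/
theorem evena_rel {Y : 𝒱} {U : 𝒱'} {δ : W.H Y} (N : NetH W W' Y U δ) (m : ℕ)
    (hK : W'.pi U m ∈ W'.Cor U U 0) :
    ∃ w ∈ W.Cor Y Y (-1), ∀ z ∈ W.gr Y m,
      δ * (δ * z) = δ * (δ * w (δ * z)) - δ * w (δ * (δ * z)) := by
  obtain ⟨w, hw, β, hβ, h⟩ := N.split m hK
  refine ⟨w, hw, fun z hz => ?_⟩
  have E1 := h (N.res z)
  rw [W'.pi_same (N.res_gr m z hz), gys_res] at E1
  have hz2 : δ * z ∈ W.gr Y (2 + m) := SetLike.mul_mem_graded N.δ_gr hz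
  have E2 := h (N.res (δ * z))
  rw [W'.pi_ne (N.res_gr _ _ hz2) (by omega), gys_res, map_mul N.res δ z, hβ] at E2
  have E3 : N.res (δ * z) = N.res (δ * w (δ * z) - w (δ * (δ * z))) := by
    have e := congrArg (fun t => N.res δ * t) E1
    simp only [mul_add] at e
    rw [map_mul N.res δ z, map_sub, map_mul N.res δ (w (δ * z)), e, sub_eq_add_neg]
    congr 1
    exact eq_neg_of_add_eq_zero_right E2.symm
  have E4 := congrArg N.gys E3
  rw [gys_res, gys_res, mul_sub] at E4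
  exact E4

theorem tNetRelE {X : 𝒱} {U : 𝒱'} {η : W.H X} (hη : η ∈ W.Alg X 1) (h0 : η * η = 0)
    (hN : Nonempty (NetH W W' (X ⊗ X) U (W.tm η 1 + W.tm 1 η))) (hK : EvenK W' U) :
    RelE W X η := by
  obtain ⟨N⟩ := hN
  have hg : η ∈ W.gr X 2 := W.alg_gr (c := 1) hη
  intro m hm
  obtain ⟨w, hw, h⟩ := evena_rel N m (hK m hm)
  refine ⟨w, hw, fun z hz => ?_⟩
  have h1 := h z hz
  have h2 := sq (W := W) hg h0
  have e1 : ∀ t, (W.tm η 1 + W.tm 1 η) * ((W.tm η 1 + W.tm 1 η) * t) =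
      (2 : K) • (W.tm η η * t) := fun t => by
    rw [← mul_assoc, h2, smul_mul_assoc]
  rw [e1, e1, map_smul, mul_smul_comm, ← smul_sub] at h1
  have h3 := congrArg (fun t => (2 : K)⁻¹ • t) h1
  simpa only [smul_smul, inv_mul_cancel₀ (two_ne_zero (α := K)), one_smul] using h3

end NetRel

section VRK

open VRKAux

/-- **Quasi-inverse with coefficients in `K`**, from the relation in even degrees. -/
theorem tVRKE (hI : StIdem) {K : Type} [Field K] [CharZero K] {𝒱 : Type 1} [Category.{0} 𝒱]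
    [CartesianMonoidalCategory 𝒱] {W : WeilCohomology K 𝒱} {X : 𝒱} {η : W.H X}
    (hη : η ∈ W.Alg X 1) (hε : (W.eps X : W.E X) ∈ W.R X 0) (hrel : RelE W X η) :
    ∃ G ∈ W.R X (-1), ∀ z, η * G (η * z) = η * z := by
  have hη2 : η ∈ W.gr X (2 * 1) := W.alg_gr hη
  obtain ⟨T, hT⟩ : ∃ T : W.E X, T = LinearMap.mulLeft K η := ⟨_, rfl⟩
  have hTR : T ∈ W.R X 1 := by
    rw [hT]
    exact R_cast (cor_le (W.cor_mul hη)) (by norm_num)
  obtain ⟨G, hG, hGTG, hN⟩ := hI K 𝒱 W X 1 T hTR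
  have hn1 : T * (1 - G * T) = T - T * G * T := by rw [mul_sub, mul_one, mul_assoc]
  have hn2 : (1 - T * G) * T = T - T * G * T := by rw [sub_mul, one_mul]
  have hff : (1 - G * T) * (1 - G * T) = 1 - G * T := by
    have h1 : G * T * (G * T) = G * T := by rw [← mul_assoc, hGTG]
    rw [mul_sub, mul_one, sub_mul, one_mul, h1, sub_self, sub_zero]
  have hff' : (1 - T * G) * (1 - T * G) = 1 - T * G := by
    have h1 : T * G * (T * G) = T * G := by
      rw [mul_assoc, ← mul_assoc G T G, hGTG]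
    rw [mul_sub, mul_one, sub_mul, one_mul, h1, sub_self, sub_zero]
  have hf0 : (1 - G * T) ∈ W.R X 0 :=
    Submodule.sub_mem _ R_one (R_cast (R_mul hG hTR) (by norm_num))
  have hf0' : (1 - T * G) ∈ W.R X 0 :=
    Submodule.sub_mem _ R_one (R_cast (R_mul hTR hG) (by norm_num))
  generalize (1 - G * T) = f at hn1 hff hf0
  generalize (1 - T * G) = f' at hn2 hff' hf0'
  generalize hn : T - T * G * T = n at hN hn1 hn2
  have hnf : n * f = n := by rw [← hn1, mul_assoc, hff]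
  have hfn : f' * n = n := by rw [← hn2, ← mul_assoc, hff']
  have hE : ∀ m : ℕ, Even m → ∀ x ∈ W.gr (X ⊗ X) m, W.tens n n x = 0 := by
    intro m hm x hx
    obtain ⟨w, hw, hrw⟩ := hrel m hm
    have hwR : (w : W.E (X ⊗ X)) ∈ W.R (X ⊗ X) (-1) := cor_le hw
    have hF : (W.tens f f : W.E (X ⊗ X)) ∈ W.R (X ⊗ X) 0 :=
      R_cast (R_tens hf0 hf0) (by norm_num)
    have hF' : (W.tens f' f' : W.E (X ⊗ X)) ∈ W.R (X ⊗ X) 0 :=
      R_cast (R_tens hf0' hf0') (by norm_num)
    have hΔ1 : ((W.tens T 1 + W.tens 1 T) * W.tens f f : W.E (X ⊗ X)) ∈ W.N (X ⊗ X) 1 := by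
      have e : ((W.tens T 1 + W.tens 1 T) * W.tens f f : W.E (X ⊗ X)) =
          W.tens n f + W.tens f n := by
        rw [add_mul, ← tens_mul, ← tens_mul, one_mul, hn1]
      rw [e]
      exact Submodule.add_mem _ (N_cast (N_tens hε hN hf0) (by norm_num))
        (N_cast (N_tens' hε hN hf0) (by norm_num))
    have hΔ2 : (W.tens f' f' * (W.tens T 1 + W.tens 1 T) : W.E (X ⊗ X)) ∈ W.N (X ⊗ X) 1 := by
      have e : (W.tens f' f' * (W.tens T 1 + W.tens 1 T) : W.E (X ⊗ X)) =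
          W.tens n f' + W.tens f' n := by
        rw [mul_add, ← tens_mul, ← tens_mul, mul_one, hn2]
      rw [e]
      exact Submodule.add_mem _ (N_cast (N_tens hε hN hf0') (by norm_num))
        (N_cast (N_tens' hε hN hf0') (by norm_num))
    have ha : (W.tens f f * w * ((W.tens T 1 + W.tens 1 T) * W.tens f f) : W.E (X ⊗ X)) ∈
        W.N (X ⊗ X) 0 := N_cast (N_mul_left hΔ1 (R_mul hF hwR)) (by norm_num)
    have hb : (W.tens f' f' * (W.tens T 1 + W.tens 1 T) * (w * W.tens f' f') :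
        W.E (X ⊗ X)) ∈ W.N (X ⊗ X) 0 := N_cast (N_mul_right hΔ2 (R_mul hwR hF')) (by norm_num)
    have hkey : (W.tens n n * W.pi (X ⊗ X) m : W.E (X ⊗ X)) = 0 := by
      refine ring_part (M := W.tens T T) (Δ := W.tens T 1 + W.tens 1 T) (w := w)
        (π := W.pi (X ⊗ X) m) (F := W.tens f f) (F' := W.tens f' f') ?_ ?_ ?_ ?_ ?_ ?_ ?_
        (N_nilpotent ha) (N_nilpotent hb)
      · rw [← tens_mul, hn1]
      · rw [← tens_mul, hn2]
      · rw [← tens_mul, hnf]
      · rw [← tens_mul, hfn]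
      · exact pi_comm hF m
      · have hM : (LinearMap.mulLeft K (W.tm η η) : W.E (X ⊗ X)) = W.tens T T := by
          rw [hT]
          exact mul_both hη2
        have hD : (LinearMap.mulLeft K (W.tm η 1 + W.tm 1 η) : W.E (X ⊗ X)) =
            W.tens T 1 + W.tens 1 T := by
          rw [hT, ← mul_fst, ← mul_snd hη2]
          ext y
          rw [LinearMap.add_apply, LinearMap.mulLeft_apply, LinearMap.mulLeft_apply,
            LinearMap.mulLeft_apply, add_mul]
        rw [← hM, ← hD]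
        ext y
        exact hrw _ (W.pi_mem m y)
      · exact pi_comm (N_le ha) m
    have h1 := LinearMap.congr_fun hkey x
    rw [Module.End.mul_apply, W.pi_same hx] at h1
    exact h1
  have hn0 : n = 0 := by
    refine W.hom_ext fun k x hx => ?_
    rw [LinearMap.zero_apply]
    refine eq_zero_of_tmul_self (K := K) ?_
    have h1 := hE (k + k) ⟨k, rfl⟩ _ (W.tm_gr hx hx)
    rw [W.tens_tm, ← W.kun_tmul] at h1
    exact (LinearEquiv.map_eq_zero_iff _).1 h1
  refine ⟨G, hG, fun z => ?_⟩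
  rw [hn0, sub_eq_zero] at hn
  have h2 := LinearMap.congr_fun hn z
  rw [hT] at h2
  exact h2.symm

end VRK

end Pool.Agent.Lib.MP_4ca46c_ag.T2
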