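import Mathlib
import Pool.Agent.Lib.MP_4ca46c_ag.T2.SpecT

/-!
# Assembly: the pencil as a fibration over the projective line and as a `Two.Pencil`
-/

namespace Pool.Agent.Lib.MP_4ca46c_ag.T2

open CategoryTheory Limits AlgebraicGeometry MonoidalCategory CartesianMonoidalCategory
open Pool.Agent.Lib.MP_4ca46c_ag.Sign Pool.Agent.Lib.MP_4ca46c_ag.Hyp
open Pool.Agent.Lib.MP_4ca46c_ag.Std Pool.Agent.Lib.MP_4ca46c_ag.Div

/-- **Connectedness of hyperplane sections.** A smooth hyperplane section of a smooth projective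
variety of dimension at least two is connected. -/
def StHypConn : Prop := ∀ (k₀ k : Type) [Field k₀] [Field k] [Algebra k₀ k] [IsAlgClosed k]
  (κ : Type) [Fintype κ] (X : Sch k₀) (x : X ⟶ pt k₀ k) (e : X ⟶ PSo k₀ k κ),
  e ≫ PSo.str k₀ k κ = x → IsClosedImmersion e.left → ∀ m : ℕ, 1 ≤ m → IsVar x (m + 1) →
  ∀ (a : κ → k) (D : Sch k₀) (d : D ⟶ pt k₀ k) (toX : D ⟶ X),
  IsZero e (𝟙 (pt k₀ k)) (fun i => cf k₀ (a i)) d toX → SmoothOfRelativeDimension m d.left →
  PreconnectedSpace D.left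

variable {k₀ k : Type} [Field k₀] [Field k] [Algebra k₀ k]

theorem asm_closed {κ : Type} [Fintype κ] {Y : Sch k₀} {E : Y ⟶ PSo k₀ k κ}
    {a : κ → Γ((pt k₀ k).left, ⊤)} {D : Sch k₀} {d : D ⟶ pt k₀ k} {toY : D ⟶ Y}
    (h : IsZero E (𝟙 (pt k₀ k)) a d toY) : IsClosedImmersion toY.left := by
  have h1 : pullback.lift toY d h.comm ≫ pullback.fst (E ≫ PSo.str k₀ k κ) (𝟙 (pt k₀ k)) = toY :=
    pullback.lift_fst _ _ _
  have h3 := h.closed
  have h4 : IsIso (pullback.fst (E ≫ PSo.str k₀ k κ) (𝟙 (pt k₀ k))) := inferInstance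
  have h5 : IsIso (pullback.fst (E ≫ PSo.str k₀ k κ) (𝟙 (pt k₀ k))).left :=
    inferInstanceAs (IsIso ((Over.forget _).map
      (pullback.fst (E ≫ PSo.str k₀ k κ) (𝟙 (pt k₀ k)))))
  have h6 : IsClosedImmersion ((pullback.lift toY d h.comm).left ≫
      (pullback.fst (E ≫ PSo.str k₀ k κ) (𝟙 (pt k₀ k))).left) := inferInstance
  have h7 : (pullback.lift toY d h.comm).left ≫
      (pullback.fst (E ≫ PSo.str k₀ k κ) (𝟙 (pt k₀ k))).left = toY.left := by
    rw [← Over.comp_left, h1]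
  rwa [h7] at h6

theorem asm_str {κ : Type} [Fintype κ] {Y : Sch k₀} {y : Y ⟶ pt k₀ k} {E : Y ⟶ PSo k₀ k κ}
    (hE : E ≫ PSo.str k₀ k κ = y)
    {a : κ → Γ((pt k₀ k).left, ⊤)} {D : Sch k₀} {d : D ⟶ pt k₀ k} {toY : D ⟶ Y}
    (h : IsZero E (𝟙 (pt k₀ k)) a d toY) : toY ≫ y = d := by
  rw [← hE]
  exact h.comm.trans (Category.comp_id _)

theorem asm_proper {κ : Type} [Fintype κ] {Y : Sch k₀} {y : Y ⟶ pt k₀ k} {E : Y ⟶ PSo k₀ k κ}
    (hE : E ≫ PSo.str k₀ k κ = y) (hy : IsProper y.left)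
    {a : κ → Γ((pt k₀ k).left, ⊤)} {D : Sch k₀} {d : D ⟶ pt k₀ k} {toY : D ⟶ Y}
    (h : IsZero E (𝟙 (pt k₀ k)) a d toY) : IsProper d.left := by
  have h1 := asm_closed h
  rw [← asm_str hE h, Over.comp_left]
  infer_instance

theorem asm_nonempty {κ : Type} [Fintype κ] [IsAlgClosed k] (hm : StMeets) {Y : Sch k₀}
    {y : Y ⟶ pt k₀ k} {E : Y ⟶ PSo k₀ k κ} (hE : E ≫ PSo.str k₀ k κ = y)
    (hc : IsClosedImmersion E.left) {m : ℕ} (hs : SmoothOfRelativeDimension (m + 1) y.left)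
    (hp : IsProper y.left) (hn : Nonempty Y.left)
    {a : κ → k} {D : Sch k₀} {d : D ⟶ pt k₀ k} {toY : D ⟶ Y}
    (h : IsZero E (𝟙 (pt k₀ k)) (fun i => cf k₀ (a i)) d toY) : Nonempty D.left :=
  hm k₀ k κ Y y E hE hc m hs hp hn a D d toY h

theorem asm_var_nonempty {X : Sch k₀} {x : X ⟶ pt k₀ k} {n : ℕ} (h : IsVar x n) :
    Nonempty X.left := by
  exact h.connectedSpace.toNonempty

/-- A smooth hyperplane section is a variety. -/
theorem asm_isVar {κ : Type} [Fintype κ] [IsAlgClosed k] (hm : StMeets) (hC : StHypConn)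
    {Y : Sch k₀} {y : Y ⟶ pt k₀ k} {E : Y ⟶ PSo k₀ k κ} (hE : E ≫ PSo.str k₀ k κ = y)
    (hc : IsClosedImmersion E.left) {m : ℕ} (h1 : 1 ≤ m) (hv : IsVar y (m + 1))
    {a : κ → k} {D : Sch k₀} {d : D ⟶ pt k₀ k} {toY : D ⟶ Y}
    (h : IsZero E (𝟙 (pt k₀ k)) (fun i => cf k₀ (a i)) d toY)
    (hs : SmoothOfRelativeDimension m d.left) : IsVar d m := by
  have h2 := hC k₀ k κ Y y E hE hc m h1 hv a D d toY h hs
  have h3 := asm_nonempty hm hE hc hv.smooth hv.proper (asm_var_nonempty hv) h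
  have h4 : ConnectedSpace D.left := { toPreconnectedSpace := h2, toNonempty := h3 }
  exact ⟨hs, asm_proper hE hv.proper h, fGeomConn k D.left d.left h4⟩

theorem asm_sgE_str {κ : Type} {X : Sch k₀} (x : X ⟶ pt k₀ k) (e : X ⟶ PSo k₀ k κ)
    (he : e ≫ PSo.str k₀ k κ = x) :
    sgE x e he ≫ PSo.str k₀ k (κ × Fin 2) = pullback.fst x (s1 k₀ k) ≫ x := by
  rw [sgE, Category.assoc, segO_str, ← Category.assoc, pullback.lift_fst, Category.assoc, he]

theorem asm_sgE_closed {κ : Type} [Finite κ] {X : Sch k₀} (x : X ⟶ pt k₀ k)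
    (e : X ⟶ PSo k₀ k κ) (he : e ≫ PSo.str k₀ k κ = x) (hc : IsClosedImmersion e.left) :
    IsClosedImmersion (sgE x e he).left := by
  have h0 := segO_closed k₀ k κ (Fin 2)
  let u : pullback x (s1 k₀ k) ⟶ pullback (PSo.str k₀ k κ) (s1 k₀ k) :=
    pullback.lift (f := PSo.str k₀ k κ) (g := s1 k₀ k) (pullback.fst x (s1 k₀ k) ≫ e)
    (pullback.snd x (s1 k₀ k)) (by rw [Category.assoc, he, pullback.condition])
  have hu : IsPullback (pullback.fst x (s1 k₀ k)) u e (pullback.fst _ _) := by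
    have h1 : IsPullback (pullback.fst x (s1 k₀ k)) (u ≫ pullback.snd _ _)
        (e ≫ PSo.str k₀ k κ) (s1 k₀ k) := by
      rw [he, pullback.lift_snd]
      exact IsPullback.of_hasPullback _ _
    exact IsPullback.of_bot h1 (pullback.lift_fst _ _ _).symm (IsPullback.of_hasPullback _ _)
  have h1 : IsClosedImmersion u.left :=
    MorphismProperty.of_isPullback (P := @IsClosedImmersion) (hu.map (Over.forget _)) hc
  change IsClosedImmersion (u.left ≫ (segO k₀ k κ (Fin 2)).left)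
  infer_instance

section Pencil

variable [IsAlgClosed k] {V : ProjVar k₀ k} {m : ℕ} (G : GeoPencil V m)

theorem asm_isVarW (hm : StMeets) (hC : StHypConn) (hn : V.n = m + 1) : IsVar G.w (m + 1) := by
  have hX : IsVar (pullback.fst V.str (s1 k₀ k) ≫ V.str) (m + 1 + 1) := by
    have h := Var.isVar_prod V.isVar (tPS k₀ k (Fin 2) 1 (by simp))
    rw [hn] at h
    exact h
  exact asm_isVar hm hC (asm_sgE_str V.str V.emb V.emb_str)
    (asm_sgE_closed V.str V.emb V.emb_str V.closed) (by omega) hX G.isZeroW G.smoothW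

theorem asm_isVarY (hm : StMeets) (hC : StHypConn) (h1 : 1 ≤ m) (hn : V.n = m + 1) :
    IsVar G.y m := by
  have hX : IsVar V.str (m + 1) := by
    rw [← hn]
    exact V.isVar
  exact asm_isVar hm hC V.emb_str V.closed h1 hX G.isZeroY G.smoothY

/-- The total space of the pencil, as a projective variety. -/
noncomputable def asmW (hW : IsVar G.w (m + 1)) : ProjVar k₀ k where
  X := G.W
  str := G.w
  n := m + 1
  isVar := hW
  κ := V.κ × Fin 2
  i := (V.i, 0)
  emb := G.j ≫ sgE V.str V.emb V.emb_str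
  closed := by
    have h1 := asm_closed G.isZeroW
    have h2 := asm_sgE_closed V.str V.emb V.emb_str V.closed
    rw [Over.comp_left]
    infer_instance
  emb_str := by
    rw [Category.assoc, asm_sgE_str]
    exact asm_str (asm_sgE_str V.str V.emb V.emb_str) G.isZeroW

/-- The member of the pencil, as a projective variety. -/
noncomputable def asmY (hY : IsVar G.y m) : ProjVar k₀ k where
  X := G.Y
  str := G.y
  n := m
  isVar := hY
  κ := V.κ
  i := V.i
  emb := (G.ι ≫ G.j ≫ pullback.fst _ _) ≫ V.emb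
  closed := by
    have h1 := asm_closed G.isZeroY
    have h2 := V.closed
    rw [Over.comp_left]
    infer_instance
  emb_str := by
    rw [Category.assoc, V.emb_str]
    exact asm_str V.emb_str G.isZeroY

omit [IsAlgClosed k] in
theorem asm_f_str : (G.j ≫ pullback.snd _ _) ≫ s1 k₀ k = G.w := by
  rw [Category.assoc, ← pullback.condition]
  exact asm_str (asm_sgE_str V.str V.emb V.emb_str) G.isZeroW

/-- The pencil as a fibration over the projective line. -/
noncomputable def asmF (hW : IsVar G.w (m + 1)) (hr : StRatPts) (σ : P1 k₀ k ⟶ G.W)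
    (hσ : σ ≫ G.j ≫ pullback.snd _ _ = 𝟙 _) : Two.Fib k₀ k where
  V := asmW G hW
  m := m
  dim := rfl
  f := G.j ≫ pullback.snd _ _
  f_str := asm_f_str G
  σ := σ
  σ_f := hσ
  S := G.O
  smooth := G.smoothO
  compl := by
    obtain ⟨p⟩ : Nonempty (pt k₀ k).left := inferInstanceAs (Nonempty (Spec (CommRingCat.of k)))
    exact hr k₀ k G.O ⟨_, G.s_mem p⟩

end Pencil

variable (k₀ k) {K : Type} [Field K]

/-- **The pencil.** The interface between the geometry and the assembly. -/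
def StPencilAsm (k₀ K : Type) [Field k₀] [Field K] : Prop :=
  ∀ [CharZero K] (T : WeilTheory k₀ K), Extra T → WeakT T → ∀ (k : Type) [Field k] [Algebra k₀ k]
  [IsAlgClosed k] (V : ProjVar k₀ k) (m : ℕ), 1 ≤ m → V.n = m + 1 →
  ∃ (Φ : Two.Fib k₀ k) (Y : ProjVar k₀ k)
    (P : Two.Pencil (weil T k) (pvar V) (pvar Y) Φ.VV (T.cl V.X (V.h T))),
    P.η = Φ.η T ∧ Φ.m = m ∧ Φ.V.n = m + 1 ∧ Y.n = m ∧
    (weil T k).pull P.i (T.cl V.X (V.h T)) = T.cl Y.X (Y.h T)

theorem tPencilAsm (k₀ K : Type) [Field k₀] [Field K] (h1 : StPencil) (h2 : StRatPts)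
    (h3 : StMeets) (h4 : StSection) (h5 : StPenT k₀ K) (h6 : StHypConn) : StPencilAsm k₀ K := by
  intro _ T E hT k _ _ _ V m hm hn
  obtain ⟨G⟩ := h1 k₀ k V m hn
  have hW := asm_isVarW G h3 h6 hn
  have hY := asm_isVarY G h3 h6 hm hn
  obtain ⟨σ, hσ⟩ := h4 k₀ k V m hm hn G
  obtain ⟨P, hP, hη⟩ := h5 T E hT k V m hn G hW hY
  refine ⟨asmF G hW h2 σ hσ, asmY G hY, P, hη, rfl, rfl, rfl, ?_⟩
  obtain ⟨M, hM⟩ := exists_card V.κ
  have h7 := tPS k₀ k V.κ (M + 1) hM
  change T.pullH P.i.hom (T.cl V.X (V.h T)) = T.cl G.Y (T.pull _ (hypClass T k V.i))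
  rw [hP, ← T.cl_pull _ hY.isWeil V.isVar.isWeil]
  congr 1
  change _ = T.pull ((G.ι ≫ G.j ≫ pullback.fst _ _) ≫ V.emb) (hypClass T k V.i)
  rw [T.pull_comp _ _ hY.sm V.isVar.sm h7.sm]
  rfl

end Pool.Agent.Lib.MP_4ca46c_ag.T2
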