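import Mathlib
import Pool.Agent.Lib.MP_4ca46c_ag.T2.Asm
import Pool.Agent.Lib.MP_4ca46c_ag.T2.KunUL
import Pool.Agent.Lib.MP_4ca46c_ag.Two.BaseCh
import Pool.Agent.Lib.MP_4ca46c_ag.Vtc.Final

/-!
# Assembly: the local form and its consequences
-/

namespace Pool.Agent.Lib.MP_4ca46c_ag.T2

open CategoryTheory Limits AlgebraicGeometry MonoidalCategory CartesianMonoidalCategory
open Pool.Agent.Lib.MP_4ca46c_ag.Sign Pool.Agent.Lib.MP_4ca46c_ag.Hyp
open Pool.Agent.Lib.MP_4ca46c_ag.Std Pool.Agent.Lib.MP_4ca46c_ag.Div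
open Pool.Agent.Lib.MP_4ca46c_ag.Vtc
open Pool.Agent.Lib.MP_4ca46c_ag.Two.KunUAux (M)

/-- The quasi-inverse for a fibration over the projective line, local form. -/
def StFibL (k₀ K : Type) [Field k₀] [Field K] [CharZero K] : Prop :=
  ∀ (T : WeilTheory k₀ K), Extra T → ∀ (k : Type) [Field k] [Algebra k₀ k] [IsAlgClosed k]
  (Φ : Two.Fib k₀ k), ∃ V' : ProjVar k₀ (M k), V'.n = Φ.V.n + Φ.m ∧
    ((weil T (M k)).Kunneth (pvar V') → Two.QInv (weil T k) Φ.VV (Φ.η T))

variable {k₀ K : Type} [Field k₀] [Field K] {D : CohData k₀ K} (h : D.IsTheory)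
  (h' : IsStandard D)

include h in
theorem loc_weakT (hW : WeakLefschetz D) : WeakT (D.weil h) := by
  intro k _ _ _ X Y x y ρ m hx hy hρ hc i hi u hu
  obtain ⟨v, hv, hv'⟩ := hW k X Y x y ρ m 1 hx hy hρ hc i hi u hu
  exact ⟨v, hv, hv'⟩

include h h' in
theorem loc_proj [CharZero K] (hP : StPencilAsm k₀ K) (hF : StFibL k₀ K) (hL : Two.StLefUp)
    (hl : Two.StLow) (hT : WeakT (D.weil h)) (k : Type) [Field k] [Algebra k₀ k] [IsAlgClosed k] :
    ∀ (n : ℕ) (V : ProjVar k₀ k), V.n = n → ∃ U : ℕ → ProjVar k₀ (M k),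
      (∀ i, i + 2 ≤ n → (U i).n = 2 * i + 3) ∧
      ((∀ i, i + 2 ≤ n → (weil (D.weil h) (M k)).Kunneth (pvar (U i))) →
        (weil (D.weil h) k).Lefschetz (pvar V) (D.cls (V.h (D.weil h)))) := by
  have E := bridge_extra h h'
  intro n
  induction n with
  | zero =>
    intro V hV
    refine ⟨fun _ => Two.P2 k₀ (M k), fun i hi => by omega, fun _ => ?_⟩
    exact hl K (Var k₀ k) (weil (D.weil h) k) (pvar V) _ (h_alg h (ofProj V))
      (hard h h' (ofProj V)) (by
        change V.n ≤ 1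
        omega)
  | succ m ih =>
    intro V hV
    rcases Nat.eq_zero_or_pos m with rfl | hm
    · refine ⟨fun _ => Two.P2 k₀ (M k), fun i hi => by omega, fun _ => ?_⟩
      exact hl K (Var k₀ k) (weil (D.weil h) k) (pvar V) _ (h_alg h (ofProj V))
        (hard h h' (ofProj V)) (by
          change V.n ≤ 1
          omega)
    · obtain ⟨Φ, Y, P, hη, hΦ, hΦn, hY, hh⟩ := hP (D.weil h) E hT k V m hm hV
      obtain ⟨V', hV', hQ⟩ := hF (D.weil h) E k Φ
      obtain ⟨U, hU, hUL⟩ := ih Y hY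
      refine ⟨Function.update U (m - 1) V', fun i hi => ?_, fun H => ?_⟩
      · by_cases h1 : i = m - 1
        · subst h1
          rw [Function.update_self, hV', hΦ, hΦn]
          omega
        · rw [Function.update_of_ne h1]
          exact hU i (by omega)
      · have h1 : (weil (D.weil h) (M k)).Kunneth (pvar V') := by
          have := H (m - 1) (by omega)
          rwa [Function.update_self] at this
        have h2 : (weil (D.weil h) k).Lefschetz (pvar Y) (D.cls (Y.h (D.weil h))) := by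
          refine hUL fun i hi => ?_
          have := H i (by omega)
          rwa [Function.update_of_ne (by omega)] at this
        refine hL K (Var k₀ k) (weil (D.weil h) k) (pvar V) (pvar Y) Φ.VV _ P ?_ ?_
        · rw [hη]
          exact hQ h1
        · have e : (weil (D.weil h) k).Lefschetz (pvar Y)
              ((weil (D.weil h) k).pull P.i ((D.weil h).cl V.X (V.h (D.weil h)))) := by
            rw [hh]
            exact h2
          exact e

include h h' in
/-- **The local form.** -/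
theorem loc_main [CharZero K] (hP : StPencilAsm k₀ K) (hF : StFibL k₀ K) (hL : Two.StLefUp)
    (hl : Two.StLow) (hW : WeakLefschetz D) (V : PrVar k₀) : ∃ U : ℕ → PrVar k₀,
      (∀ i, i + 2 ≤ V.n → (U i).IsOver (M V.k) ∧ (U i).n = 2 * i + 3) ∧
      ((∀ i, i + 2 ≤ V.n → (U i).KunnethConj D) → V.LefschetzConj D) := by
  obtain ⟨U, h1, h2⟩ := loc_proj h h' hP hF hL hl (loc_weakT h hW) V.k V.n V.toProj rfl
  refine ⟨fun i => ofProj (U i), fun i hi => ⟨⟨AlgEquiv.refl⟩, h1 i hi⟩, fun H => ?_⟩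
  rw [lef_iff h h']
  exact h2 fun i hi => (kun_iff h h' (ofProj (U i))).1 (H i hi)

theorem loc_trdeg (k : Type) [Field k] [Algebra k₀ k] [IsAlgClosed k] :
    Algebra.trdeg k₀ (M k) = Algebra.trdeg k₀ k + 2 := by
  have := trdeg_closure k₀ k (Fin 2) (FractionRing (MvPolynomial (Fin 2) k)) (M k)
  rw [this, Cardinal.mk_fin]
  norm_cast

include h h' in
/-- **Finite transcendence degree.** -/
theorem loc_fin [CharZero K] (hP : StPencilAsm k₀ K) (hF : StFibL k₀ K) (hL : Two.StLefUp)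
    (hl : Two.StLow) (hW : WeakLefschetz D) (n : ℕ)
    (H : ∀ U : PrVar k₀, Algebra.trdeg k₀ U.k = n → U.KunnethConj D) (V : PrVar k₀) (r : ℕ)
    (hV : Algebra.trdeg k₀ V.k = r) (hr : r + 2 ≤ n) : V.LefschetzConj D := by
  obtain ⟨V', h1, -, -, h2⟩ := Two.exists_pbc h h' V (n - 2 - r)
  refine h2 ?_
  obtain ⟨U, hU, hUL⟩ := loc_main h h' hP hF hL hl hW V'
  refine hUL fun i hi => H _ ?_
  obtain ⟨⟨e⟩, -⟩ := hU i hi
  rw [e.trdeg_eq, loc_trdeg, h1, hV]
  norm_cast
  omega

include h h' in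
/-- **The equivalence.** -/
theorem loc_tfae [IsAlgClosed k₀] (hF' : HasFamilies D) (hM : HasModels k₀)
    (hP : StPencilAsm k₀ K) (hF : ∀ [CharZero K], StFibL k₀ K) (hL : Two.StLefUp)
    (hl : Two.StLow) (hW : WeakLefschetz D) (n : ℕ) (hn : 2 ≤ n) :
    [∀ V : PrVar k₀, V.KunnethConj D, ∀ V : PrVar k₀, V.LefschetzConj D,
      ∀ V : PrVar k₀, Algebra.trdeg k₀ V.k = n → V.KunnethConj D].TFAE := by
  have := char_zero h h'
  have h1 := final_tfae h h' hF' hM
  tfae_have 1 ↔ 2 := h1.out 0 1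
  tfae_have 1 → 3 := fun H V _ => H V
  tfae_have 3 → 2 := fun H => (h1.out 2 1).1 fun V hV =>
    loc_fin h h' hP hF hL hl hW n H V 0 (by rw [Nat.cast_zero]; exact Vtc.IsOver.trdeg hV) (by omega)
  tfae_finish

end Pool.Agent.Lib.MP_4ca46c_ag.T2
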