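import Mathlib
import Pool.Agent.Lib.MP_4ca46c_ag.T2.SpecG
import Pool.Agent.Lib.MP_4ca46c_ag.Std.IsoPt

/-!
# A projective variety of dimension at least one meets every hyperplane
-/

set_option autoImplicit false

namespace Pool.Agent.Lib.MP_4ca46c_ag.T2

open CategoryTheory Limits AlgebraicGeometry
open Pool.Agent.Lib.MP_4ca46c_ag.Sign Pool.Agent.Lib.MP_4ca46c_ag.Hyp
open Pool.Agent.Lib.MP_4ca46c_ag.Std Pool.Agent.Lib.MP_4ca46c_ag.Div

theorem meets_discrete {k : Type} [Field k] {X : Scheme.{0}} (x : X ⟶ Spec (CommRingCat.of k))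
    [IsAffine X] [IsProper x] : DiscreteTopology X := by
  have h1 : IsFinite x := IsFinite.iff_isProper_and_isAffineHom.2 ⟨inferInstance, inferInstance⟩
  have hf : (x.app ⊤).hom.Finite := IsFinite.finite_app x ⊤ (isAffineOpen_top _)
  let : Algebra Γ(Spec (CommRingCat.of k), ⊤) Γ(X, ⊤) := (x.app ⊤).hom.toAlgebra
  have h2 : Module.Finite Γ(Spec (CommRingCat.of k), ⊤) Γ(X, ⊤) := hf
  have h3 : IsArtinianRing Γ(Spec (CommRingCat.of k), ⊤) := inferInstance
  have h4 : IsArtinianRing Γ(X, ⊤) := IsArtinianRing.of_finite Γ(Spec (CommRingCat.of k), ⊤) Γ(X, ⊤)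
  have h5 : DiscreteTopology (Spec Γ(X, ⊤)) := inferInstance
  exact X.isoSpec.hom.homeomorph.symm.discreteTopology

theorem tMeets (h1 : StAffZero) : StMeets := by
  intro k₀ k _ _ _ _ κ _ X x e he hcl m hsm hpr hne a D d toX hD
  by_contra hemp
  rw [not_nonempty_iff] at hemp
  obtain ⟨U, j, hj, hU⟩ := h1 k₀ k κ X x e he hcl a D d toX hD
  have hr : Set.range j.left = Set.univ := by
    rw [hj.compl, Set.range_eq_empty, Set.compl_empty]
  have hop := hj.isOpen
  have hsurj : Surjective j.left := ⟨Set.range_eq_univ.1 hr⟩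
  have hiso : IsIso j.left := (isIso_iff_isOpenImmersion_and_surjective j.left).2 ⟨hop, hsurj⟩
  have haff : IsAffine X.left := IsAffine.of_isIso (inv j.left)
  let x' : X.left ⟶ Spec (CommRingCat.of k) := x.left
  have hpr' : IsProper x' := hpr
  have hdis : DiscreteTopology X.left := meets_discrete x'
  obtain ⟨z⟩ := hne
  exact tIso k X.left x.left (m + 1) (by omega) hsm z (isOpen_discrete _)

end Pool.Agent.Lib.MP_4ca46c_ag.T2
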