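import Pool.Agent.Lib.MP_4ca46c_ag.T2.SpecA
import Pool.Agent.Lib.MP_4ca46c_ag.Geo.Square
import Pool.Agent.Lib.MP_4ca46c_ag.Div.Left

/-!
# The classes of a pencil in `X × P`
-/

namespace Pool.Agent.Lib.MP_4ca46c_ag.T2

open CategoryTheory Limits AlgebraicGeometry MonoidalCategory CartesianMonoidalCategory Finset
open Pool.Agent.Lib.MP_4ca46c_ag.Sign Pool.Agent.Lib.MP_4ca46c_ag.Hyp
open Pool.Agent.Lib.MP_4ca46c_ag.Std Pool.Agent.Lib.MP_4ca46c_ag.Div

section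

variable {K : Type} [Field K] [CharZero K] {𝒱 : Type 1} [Category.{0} 𝒱]
  [CartesianMonoidalCategory 𝒱] (W : Geo.WeilCohomology K 𝒱)

/-- Homogeneous classes on `P`. -/
theorem penabs_hom {P : 𝒱} {t : W.H P} (ht : t ∈ W.gr P 2)
    (hsp : ∀ v : W.H P, ∃ c c' : K, v = c • 1 + c' • t) {l : ℕ} {v : W.H P}
    (hv : v ∈ W.gr P l) :
    (l = 0 ∧ ∃ c : K, v = c • 1) ∨ (l = 2 ∧ ∃ c : K, v = c • t) ∨ v = 0 := by
  obtain ⟨c, c', hcc⟩ := hsp v
  have h1 : (1 : W.H P) ∈ W.gr P 0 := SetLike.one_mem_graded (W.gr P)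
  have h2 := W.pi_same hv
  by_cases h0 : l = 0
  · subst h0
    refine Or.inl ⟨rfl, c, ?_⟩
    rw [← h2, hcc, map_add, map_smul, map_smul, W.pi_same h1, W.pi_ne ht (by omega), smul_zero,
      add_zero]
  · by_cases h3 : l = 2
    · subst h3
      refine Or.inr (Or.inl ⟨rfl, c', ?_⟩)
      rw [← h2, hcc, map_add, map_smul, map_smul, W.pi_ne h1 (by omega), W.pi_same ht, smul_zero,
        zero_add]
    · refine Or.inr (Or.inr ?_)
      rw [← h2, hcc, map_add, map_smul, map_smul, W.pi_ne h1 (Ne.symm h0),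
        W.pi_ne ht (Ne.symm h3), smul_zero, smul_zero, add_zero]

/-- The Künneth formula for `X × P`. -/
theorem penabs_span {X P : 𝒱} {t : W.H P} (ht : t ∈ W.gr P 2)
    (hsp : ∀ v : W.H P, ∃ c c' : K, v = c • 1 + c' • t) {i : ℕ} {z : W.H (X ⊗ P)}
    (hz : z ∈ W.gr (X ⊗ P) i) : ∃ a ∈ W.gr X i, ∃ b, (2 ≤ i → b ∈ W.gr X (i - 2)) ∧
      (i < 2 → b = 0) ∧ z = W.tm a 1 + W.tm b t := by
  refine W.ind_gr (P := fun z => ∃ a ∈ W.gr X i, ∃ b, (2 ≤ i → b ∈ W.gr X (i - 2)) ∧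
      (i < 2 → b = 0) ∧ z = W.tm a 1 + W.tm b t) hz ?_ (fun k l a v hkl ha hv => ?_) ?_
  · exact ⟨0, Submodule.zero_mem _, 0, fun _ => Submodule.zero_mem _, fun _ => rfl, by
      rw [W.tm_zero_left, W.tm_zero_left, add_zero]⟩
  · rcases penabs_hom W ht hsp hv with ⟨rfl, c, rfl⟩ | ⟨rfl, c, rfl⟩ | rfl
    · refine ⟨c • a, Submodule.smul_mem _ _ ?_, 0, fun _ => Submodule.zero_mem _, fun _ => rfl, ?_⟩
      · rwa [← hkl, add_zero]
      · rw [W.tm_zero_left, add_zero, W.tm_smul_left, W.tm_smul_right]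
    · refine ⟨0, Submodule.zero_mem _, c • a, fun _ => Submodule.smul_mem _ _ ?_,
        fun h => by omega, ?_⟩
      · have h1 : i - 2 = k := by omega
        rwa [h1]
      · rw [W.tm_zero_left, zero_add, W.tm_smul_left, W.tm_smul_right]
    · exact ⟨0, Submodule.zero_mem _, 0, fun _ => Submodule.zero_mem _, fun _ => rfl, by
        rw [W.tm_zero_left, W.tm_zero_left, W.tm_zero_right, add_zero]⟩
  · rintro u v ⟨a, ha, b, hb, hb0, rfl⟩ ⟨a', ha', b', hb', hb0', rfl⟩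
    refine ⟨a + a', Submodule.add_mem _ ha ha', b + b',
      fun h => Submodule.add_mem _ (hb h) (hb' h), fun h => ?_, ?_⟩
    · rw [hb0 h, hb0' h, add_zero]
    · rw [W.tm_add_left, W.tm_add_left]
      abel

end

/-- **A2.08.** The class of a pencil. -/
theorem tPenAbs : StPenAbs := by
  intro K _ _ 𝒱 _ _ W X Y V P j ι h t q hh hHL ht hP hY hV hq htr hsp hj hι hη hpush hweak hspV
  have ht2 : t ∈ W.gr P 2 := W.alg_gr ht
  have htr1 : W.tr P 1 = 0 :=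
    W.tr_gr (SetLike.one_mem_graded (W.gr P)) (by omega)
  refine ⟨hh, hHL, W.alg_pull _ ht, hq, hY, hV, ?_, ?_, hι, hη, ?_, ?_⟩
  · refine W.push_eq _ _ _ fun y => ?_
    rw [W.pull_comp, ← W.push_spec, hj, add_mul, map_add]
    simp only [Geo.WeilCohomology.tm]
    rw [W.tr_snd, W.tr_snd, htr1, htr, mul_zero, zero_add, one_mul, smul_mul_assoc, one_mul,
      map_smul, smul_eq_mul, mul_comm]
  · refine W.push_eq _ _ _ fun y => ?_
    rw [← hι, W.push_spec, ← W.pull_comp, ← W.push_spec, hpush]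
  · intro i hi y hy
    obtain ⟨z, hz, rfl⟩ := hweak i hi y hy
    obtain ⟨a, ha, b, hb, hb0, rfl⟩ := penabs_span W ht2 hsp hz
    refine ⟨a, ha, b, hb, hb0, ?_⟩
    rw [map_add, W.pull_tm', W.pull_tm', map_one, mul_one,
      left_central W (W.alg_pull (j ≫ snd X P) ht)]
  · exact hspV

end Pool.Agent.Lib.MP_4ca46c_ag.T2
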