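import Mathlib
import Pool.Agent.Lib.MP_4ca46c_ag.T2.SpecT
import Pool.Agent.Lib.MP_4ca46c_ag.T2.PenAbs
import Pool.Agent.Lib.MP_4ca46c_ag.Std.GeoFacts
import Pool.Agent.Lib.MP_4ca46c_ag.Std.ProdV

/-!
# From a geometric pencil to a pencil
-/

namespace Pool.Agent.Lib.MP_4ca46c_ag.T2

open CategoryTheory Limits AlgebraicGeometry MonoidalCategory CartesianMonoidalCategory
open Pool.Agent.Lib.MP_4ca46c_ag.Sign Pool.Agent.Lib.MP_4ca46c_ag.Hyp
open Pool.Agent.Lib.MP_4ca46c_ag.Std Pool.Agent.Lib.MP_4ca46c_ag.Div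
open Geo Geo.WeilCohomology

attribute [local instance] Geo.WeilCohomology.ring Geo.WeilCohomology.algebra
  Geo.WeilCohomology.finite Geo.WeilCohomology.graded

section sgE

variable {k₀ k : Type} [Field k₀] [Field k] [Algebra k₀ k]

/-- The projective line as a variety. -/
noncomputable def pentP (k₀ k : Type) [Field k₀] [Field k] [Algebra k₀ k] [IsAlgClosed k] :
    Var k₀ k := ⟨P1 k₀ k, s1 k₀ k, 1, tPS k₀ k (Fin 2) 1 rfl⟩

/-- The first factor of `sgE`. -/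
noncomputable def pentL {κ : Type} {X : Sch k₀} (x : X ⟶ pt k₀ k) (e : X ⟶ PSo k₀ k κ)
    (he : e ≫ PSo.str k₀ k κ = x) :
    pullback x (s1 k₀ k) ⟶ pullback (PSo.str k₀ k κ) (s1 k₀ k) :=
  pullback.lift (pullback.fst x (s1 k₀ k) ≫ e) (pullback.snd x (s1 k₀ k))
    (by rw [Category.assoc, he, pullback.condition])

theorem pent_sgE {κ : Type} {X : Sch k₀} (x : X ⟶ pt k₀ k) (e : X ⟶ PSo k₀ k κ)
    (he : e ≫ PSo.str k₀ k κ = x) : sgE x e he = pentL x e he ≫ segO k₀ k κ (Fin 2) := rfl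

theorem pent_L_fst {κ : Type} {X : Sch k₀} (x : X ⟶ pt k₀ k) (e : X ⟶ PSo k₀ k κ)
    (he : e ≫ PSo.str k₀ k κ = x) : pentL x e he ≫ pullback.fst _ _ = pullback.fst _ _ ≫ e :=
  pullback.lift_fst _ _ _

theorem pent_L_snd {κ : Type} {X : Sch k₀} (x : X ⟶ pt k₀ k) (e : X ⟶ PSo k₀ k κ)
    (he : e ≫ PSo.str k₀ k κ = x) : pentL x e he ≫ pullback.snd _ _ = pullback.snd _ _ :=
  pullback.lift_snd _ _ _

theorem pent_sgE_str {κ : Type} {X : Sch k₀} (x : X ⟶ pt k₀ k) (e : X ⟶ PSo k₀ k κ)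
    (he : e ≫ PSo.str k₀ k κ = x) :
    sgE x e he ≫ PSo.str k₀ k (κ × Fin 2) = pullback.fst _ _ ≫ x := by
  rw [pent_sgE, Category.assoc, segO_str, ← Category.assoc, pent_L_fst, Category.assoc, he]

theorem pent_sgE_closed {κ : Type} [Finite κ] {X : Sch k₀} (x : X ⟶ pt k₀ k)
    (e : X ⟶ PSo k₀ k κ) (he : e ≫ PSo.str k₀ k κ = x) (hc : IsClosedImmersion e.left) :
    IsClosedImmersion (sgE x e he).left := by
  have hu : IsPullback (pullback.fst x (s1 k₀ k)) (pentL x e he) e (pullback.fst _ _) := by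
    have h1 : IsPullback (pullback.fst x (s1 k₀ k)) (pentL x e he ≫ pullback.snd _ _)
        (e ≫ PSo.str k₀ k κ) (s1 k₀ k) := by
      rw [he, pent_L_snd]
      exact IsPullback.of_hasPullback _ _
    exact IsPullback.of_bot h1 (pent_L_fst x e he).symm (IsPullback.of_hasPullback _ _)
  have h1 : IsClosedImmersion (pentL x e he).left :=
    MorphismProperty.of_isPullback (P := @IsClosedImmersion) (hu.map (Over.forget _)) hc
  have h2 := segO_closed k₀ k κ (Fin 2)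
  rw [pent_sgE, Over.comp_left]
  infer_instance

end sgE

section abs

variable {K : Type} [Field K] [CharZero K] {𝒱 : Type 1} [Category.{0} 𝒱]
  [CartesianMonoidalCategory 𝒱] (W : Geo.WeilCohomology K 𝒱)

theorem pent_zero {V Y P U : 𝒱} (ι : V ⟶ Y) (g : Y ⟶ P) (y : V ⟶ U) (s : U ⟶ P)
    (e : ι ≫ g = y ≫ s) (hU : W.dim U = 0) {t : W.H P} (ht : t ∈ W.Alg P 1) :
    W.pull ι (W.pull g t) = 0 := by
  have e2 : W.pull s t = 0 := W.gr_top (W.pull_gr s (W.alg_gr ht)) (by omega)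
  rw [← W.pull_comp, e, W.pull_comp, e2, map_zero]

theorem pent_sq {Y P : 𝒱} (g : Y ⟶ P) (hP : W.dim P = 1) {t : W.H P} (ht : t ∈ W.Alg P 1) :
    W.pull g t * W.pull g t = 0 := by
  have h5 := W.alg_gr ht
  have e2 : t * t = 0 := W.gr_top (SetLike.mul_mem_graded h5 h5) (by omega)
  rw [← map_mul, e2, map_zero]

end abs

section cls

variable {k₀ K : Type} [Field k₀] [Field K] [CharZero K] (T : WeilTheory k₀ K)
  {k : Type} [Field k] [Algebra k₀ k] [IsAlgClosed k]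

/-- The class of the push-forward. -/
theorem pent_push {X Y : Var k₀ k} (f : X ⟶ Y) (a : T.CH X.X) :
    (weil T k).push f (T.cl X.X a) = T.cl Y.X (T.push f.hom a) := by
  refine (weil T k).push_eq _ _ _ fun v => ?_
  exact T.cl_push X.str Y.str f.hom f.comm X.dim Y.dim X.isVar Y.isVar a v

theorem pent_push_one {X Y : Var k₀ k} (f : X ⟶ Y) :
    (weil T k).push f 1 = T.cl Y.X (T.push f.hom 1) := by
  rw [← pent_push]
  congr 1
  exact (map_one (T.cl X.X)).symm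

end cls

theorem pent_affine {k₀ : Type} [Field k₀] {X Y U : Sch k₀} {ρ : Y ⟶ X} {j : U ⟶ X}
    (hU : IsComplement ρ j) (hUa : IsAffine U.left) : AffineCompl ρ.left 1 := by
  have h1 := hU.isOpen
  refine ⟨hU.closed, fun _ => j.left.opensRange, fun _ => isAffineOpen_opensRange j.left, ?_⟩
  rw [← hU.compl]
  exact (Set.iUnion_const _).symm

section pencil

variable {k₀ K : Type} [Field k₀] [Field K] {k : Type} [Field k] [Algebra k₀ k] {V : ProjVar k₀ k}
  {m : ℕ} (G : GeoPencil V m)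

theorem pent_j_str : G.j ≫ pullback.fst _ _ ≫ V.str = G.w := by
  have h1 := G.isZeroW.comm
  rw [pent_sgE_str, Category.comp_id] at h1
  exact h1

theorem pent_j_str' : (G.j ≫ pullback.snd _ _) ≫ s1 k₀ k = G.w := by
  rw [Category.assoc, ← pullback.condition]
  exact pent_j_str G

theorem pent_ι_str : G.ι ≫ G.w = G.y := by
  rw [← pent_j_str' G, ← Category.assoc, G.isFibre.w, Category.assoc, G.s_str, Category.comp_id]

end pencil

theorem tPenT (k₀ K : Type) [Field k₀] [Field K] (h1 : StHypCls k₀ K) (h2 : StSegCls k₀ K)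
    (h3 : StLineCls k₀ K) (h4 : StAffZero) : StPenT k₀ K := by
  intro _ T E hw k _ _ _ V m hn G hW hY
  obtain ⟨l1, l2, l3⟩ := h3 T E k G.s G.s_str G.isZero_s
  let X : Var k₀ k := pvar V
  let YY : Var k₀ k := ⟨G.W, G.w, m + 1, hW⟩
  let VV : Var k₀ k := ⟨G.Y, G.y, m, hY⟩
  let P : Var k₀ k := pentP k₀ k
  let j : YY ⟶ X ⊗ P := ⟨G.j, pent_j_str G⟩
  let ι : VV ⟶ YY := ⟨G.ι, pent_ι_str G⟩
  let s : Var.unit ⟶ P := ⟨G.s, G.s_str⟩
  have hP : IsVar (s1 k₀ k) 1 := tPS k₀ k (Fin 2) 1 rfl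
  obtain ⟨M, hM⟩ := exists_card V.κ
  have hPV : IsVar (PSo.str k₀ k V.κ) (M + 1) := tPS k₀ k V.κ (M + 1) hM
  have hPP : IsVar (pullback.fst (PSo.str k₀ k V.κ) (s1 k₀ k) ≫ PSo.str k₀ k V.κ) (M + 1 + 1) :=
    Var.isVar_prod hPV hP
  obtain ⟨N, hN⟩ := exists_card (V.κ × Fin 2)
  have hPN : IsVar (PSo.str k₀ k (V.κ × Fin 2)) (N + 1) := tPS k₀ k (V.κ × Fin 2) (N + 1) hN
  have hXP : IsVar (pullback.fst V.str (s1 k₀ k) ≫ V.str) (V.n + 1) :=
    Var.isVar_prod V.isVar hP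
  have hXP' : IsVar (pullback.fst V.str (s1 k₀ k) ≫ V.str) (m + 1 + 1) := hn ▸ hXP
  have hX' : IsVar V.str (m + 1) := hn ▸ V.isVar
  have hcl := pent_sgE_closed V.str V.emb V.emb_str V.closed
  -- the class of `W`
  have c1 : T.push G.j 1 = T.pull (pullback.fst V.str (s1 k₀ k)) (V.h T) +
      T.pull (pullback.snd V.str (s1 k₀ k)) (hypClass T k (0 : Fin 2)) := by
    rw [h1 T E k (V.κ × Fin 2) (V.i, 0) G.a _ _ (m + 1) hXP' (sgE V.str V.emb V.emb_str)
      (pent_sgE_str _ _ _) hcl G.W G.w G.j G.isZeroW G.smoothW, pent_sgE,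
      T.pull_comp _ _ hXP.sm hPP.sm hPN.sm, h2 T E k V.κ (Fin 2) V.i 0, map_add,
      ← T.pull_comp _ _ hXP.sm hPP.sm hPV.sm, ← T.pull_comp _ _ hXP.sm hPP.sm hP.sm,
      pent_L_fst, pent_L_snd, T.pull_comp _ _ hXP.sm V.isVar.sm hPV.sm]
    rfl
  -- the class of `Y`
  have c2 : T.push (G.ι ≫ G.j ≫ pullback.fst _ _) 1 = V.h T :=
    h1 T E k V.κ V.i (fun i => G.a (i, 0)) V.X V.str m hX' V.emb V.emb_str V.closed G.Y G.y _
      G.isZeroY G.smoothY
  -- the class of a fibre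
  have c3 : T.push G.ι 1 = T.pull (G.j ≫ pullback.snd _ _) (hypClass T k (0 : Fin 2)) := by
    have e1 : (G.j ≫ pullback.snd _ _) ≫ s1 k₀ k = G.w := pent_j_str' G
    have e2 : G.ι ≫ (G.j ≫ pullback.snd _ _) ≫ s1 k₀ k = G.y := by
      rw [e1]
      exact pent_ι_str G
    have hpt : IsVar (𝟙 (pt k₀ k)) 0 := Var.isVar_pt
    have h := E.transversal (s1 k₀ k) G.s G.ι G.y (G.j ≫ pullback.snd _ _) G.isFibre.flip
      hP.isSm (by rw [G.s_str]; exact hpt.isSm) (by rw [e1]; exact hW.isSm)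
      (by rw [e2]; exact hY.isSm) (Var.isProper s) 1 0 (m + 1) m hP.smooth
      (by rw [G.s_str]; exact hpt.smooth) (by rw [e1]; exact hW.smooth)
      (by rw [e2]; exact hY.smooth) (by omega) 1
    rw [l1, map_one] at h
    exact h.symm
  -- weak Lefschetz
  have w1 : ∀ i < m + 1, ∀ u ∈ T.deg G.W i, ∃ v ∈ T.deg (pullback V.str (s1 k₀ k)) i,
      T.pullH G.j v = u := by
    obtain ⟨U, jU, hU, hUa⟩ := h4 k₀ k (V.κ × Fin 2) _ _ (sgE V.str V.emb V.emb_str)
      (pent_sgE_str _ _ _) hcl G.a G.W G.w G.j G.isZeroW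
    exact hw k _ _ (pullback.fst V.str (s1 k₀ k) ≫ V.str) G.w G.j (m + 1) hXP' hW
      (pent_j_str G) (pent_affine hU hUa)
  have w2 : ∀ i < m, ∀ u ∈ T.deg G.Y i, ∃ v ∈ T.deg V.X i,
      T.pullH (G.ι ≫ G.j ≫ pullback.fst _ _) v = u := by
    obtain ⟨U, jU, hU, hUa⟩ := h4 k₀ k V.κ _ _ V.emb V.emb_str V.closed
      (fun i => G.a (i, 0)) G.Y G.y _ G.isZeroY
    refine hw k _ _ V.str G.y _ m hX' hY ?_ (pent_affine hU hUa)
    rw [Category.assoc, Category.assoc, pent_j_str]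
    exact pent_ι_str G
  have hh : T.cl V.X (V.h T) ∈ (weil T k).Alg X 1 := ⟨V.h T, V.h_mem T tPS tHyp, rfl⟩
  have hHL : HL (weil T k) X (T.cl V.X (V.h T)) :=
    ⟨(E.lefschetz V.str V.n V.isVar V.i V.emb V.closed V.emb_str).1,
      (E.lefschetz V.str V.n V.isVar V.i V.emb V.closed V.emb_str).2⟩
  have ht : T.cl _ (hypClass T k (0 : Fin 2)) ∈ (weil T k).Alg P 1 :=
    ⟨hypClass T k (0 : Fin 2), hypClass_mem T tPS tHyp k (0 : Fin 2), rfl⟩
  have hj : (weil T k).push j 1 = (weil T k).tm (X := X) (Y := P) (T.cl V.X (V.h T)) 1 +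
      (weil T k).tm (X := X) (Y := P) 1 (T.cl _ (hypClass T k (0 : Fin 2))) := by
    rw [pent_push_one]
    change T.cl _ (T.push G.j 1) = _
    rw [c1, map_add, T.cl_pull _ hXP.isWeil V.isVar.isWeil, T.cl_pull _ hXP.isWeil hP.isWeil]
    simp only [Geo.WeilCohomology.tm, map_one, mul_one, one_mul]
    rfl
  have hη' : (weil T k).pull (j ≫ snd X P) (T.cl _ (hypClass T k (0 : Fin 2))) =
      T.cl G.W (T.pull (G.j ≫ pullback.snd _ _) (hypClass T k (0 : Fin 2))) :=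
    (T.cl_pull (G.j ≫ pullback.snd V.str (s1 k₀ k)) hW.isWeil hP.isWeil _).symm
  have hι : (weil T k).push ι 1 =
      (weil T k).pull (j ≫ snd X P) (T.cl _ (hypClass T k (0 : Fin 2))) := by
    rw [pent_push_one, hη', ← c3]
  have hη : (weil T k).pull ι
      ((weil T k).pull (j ≫ snd X P) (T.cl _ (hypClass T k (0 : Fin 2)))) = 0 := by
    have e1 : ι ≫ j ≫ snd X P = (⟨G.y, Category.comp_id _⟩ : VV ⟶ Var.unit) ≫ s := by
      apply Var.hom_ext'
      exact G.isFibre.w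
    exact pent_zero (weil T k) ι (j ≫ snd X P) _ s e1 rfl ht
  have hpush : (weil T k).push (ι ≫ j ≫ fst X P) 1 = T.cl V.X (V.h T) := by
    rw [pent_push_one, ← c2]
    rfl
  have P0 := tPenAbs K (Var k₀ k) (weil T k) X YY VV P j ι (T.cl V.X (V.h T))
    (T.cl _ (hypClass T k (0 : Fin 2))) 1 hh hHL ht rfl hn.symm hn.symm one_ne_zero
    (by rw [Rat.cast_one]; exact l2) l3 hj hι hη hpush
    (fun i hi y hy => w1 i (hn ▸ hi) y hy) w2
  refine ⟨{
    i := ι ≫ j ≫ fst X P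
    p := j ≫ fst X P
    ι := ι
    η := T.cl G.W (T.pull (G.j ≫ pullback.snd _ _) (hypClass T k (0 : Fin 2)))
    ι_p := rfl
    dim_V := hn
    dim_Z := hn.symm
    h_alg := hh
    η_alg := hη' ▸ P0.η_alg
    η_sq := ?_
    η_ι := hη' ▸ hη
    cls_V := hpush
    cls_η := hη' ▸ hι
    deg_p := ?_
    hard_X := ?_
    weak_V := w2
    weak_Z := ?_ }, rfl, rfl⟩
  · rw [← hη']
    exact pent_sq (weil T k) (j ≫ snd X P) rfl ht
  · have h5 := P0.push_one
    rw [Rat.cast_one, one_smul] at h5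
    exact h5
  · intro i j' hij'
    have hij : i + j' = (weil T k).dim X := hij'
    clear hij'
    have hi : (weil T k).dim X - j' = i := by omega
    have hi2 : (weil T k).dim X + j' = i + 2 * j' := by omega
    have hd := (weil T k).alg_gr hh
    refine ⟨fun x hx => ?_, fun x hx y hy hxy => ?_, fun y hy => ?_⟩
    · exact (weil T k).pow_gr hd j' hx
    · have h5 := hHL.1 j' (by omega) (x - y) (by rw [hi]; exact Submodule.sub_mem _ hx hy)
        (by rw [mul_sub]; exact sub_eq_zero.2 hxy)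
      exact sub_eq_zero.1 h5
    · obtain ⟨u, hu, hu2⟩ := hHL.2 j' (by omega) y (by rw [hi2]; exact hy)
      rw [hi] at hu
      exact ⟨u, hu, hu2⟩
  · intro l hl z hz
    obtain ⟨a, ha, b, hb, hb0, hz'⟩ := P0.spanY l (by
      change l < V.n
      rw [hn]
      exact hl) z hz
    rw [hη'] at hz'
    by_cases h5 : 2 ≤ l
    · exact ⟨a, ha, b, hb h5, fun h => hb0 h, hz'⟩
    · refine ⟨a, ha, b, ?_, fun h => hb0 h, hz'⟩
      rw [hb0 (by omega)]
      exact Submodule.zero_mem _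

end Pool.Agent.Lib.MP_4ca46c_ag.T2
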