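import Mathlib
import Pool.Agent.Lib.MP_4ca46c_ag.T2.SpecG
import Pool.Agent.Lib.MP_4ca46c_ag.Hyp.Chart

/-!
# Points outside an open subset of the projective line
-/

set_option autoImplicit false

namespace Pool.Agent.Lib.MP_4ca46c_ag.T2

open CategoryTheory Limits AlgebraicGeometry
open Pool.Agent.Lib.MP_4ca46c_ag.Sign Pool.Agent.Lib.MP_4ca46c_ag.Hyp
open Pool.Agent.Lib.MP_4ca46c_ag.Std Pool.Agent.Lib.MP_4ca46c_ag.Div

theorem ratpts_maximal {k : Type} [Field k] {σ : Type} [Unique σ]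
    (p : Ideal (MvPolynomial σ k)) [p.IsPrime] (hp : p ≠ ⊥) : p.IsMaximal := by
  have : IsPrincipalIdealRing (MvPolynomial σ k) :=
    IsPrincipalIdealRing.of_surjective
      ((MvPolynomial.uniqueAlgEquiv k σ).symm.toRingEquiv.toRingHom)
      (MvPolynomial.uniqueAlgEquiv k σ).symm.surjective
  exact IsPrime.to_maximal_ideal hp

theorem ratpts_unique (i : Fin 2) : Nonempty (Unique {j : Fin 2 // j ≠ i}) := by
  refine Fintype.card_eq_one_iff_nonempty_unique.1 ?_
  revert i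
  decide

theorem ratpts_irr (k : Type) [Field k] (κ : Type) [Nonempty κ] : IrreducibleSpace (PS k κ) := by
  have h := ps_irr (k := k) (κ := κ)
  exact h.1 (𝟙 _) _ _ (IsPullback.of_id_fst (f := psStr k κ))

theorem ratpts_closed {k : Type} [Field k] (O : (PS k (Fin 2)).Opens) (hO : ∃ z, z ∈ O)
    (i : Fin 2) (z : (psD (k := k) i).toScheme) (hz : z.1 ∉ O) : IsClosed {z} := by
  obtain ⟨e, -⟩ := chart_iso (IsPullback.of_id_fst (f := psStr k (Fin 2))) i
  let e' : (psD (k := k) i).toScheme ≅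
      Spec (CommRingCat.of (MvPolynomial {j : Fin 2 // j ≠ i} k)) :=
    e ≪≫ AffineSpace.SpecIso {j : Fin 2 // j ≠ i} (CommRingCat.of k)
  let x : PrimeSpectrum (MvPolynomial {j : Fin 2 // j ≠ i} k) := e'.hom z
  have hx : x.asIdeal ≠ ⊥ := by
    intro h0
    have := ratpts_irr k (Fin 2)
    have h1 : ((psD (k := k) i : (PS k (Fin 2)).Opens) ∩ O : Set (PS k (Fin 2))).Nonempty := by
      refine nonempty_preirreducible_inter (psD i).isOpen O.isOpen ⟨z.1, z.2⟩ ?_
      obtain ⟨w, hw⟩ := hO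
      exact ⟨w, hw⟩
    obtain ⟨w, hw1, hw2⟩ := h1
    let w' : (psD (k := k) i).toScheme := ⟨w, hw1⟩
    let y : PrimeSpectrum (MvPolynomial {j : Fin 2 // j ≠ i} k) := e'.hom w'
    have hs : x ⤳ y := (PrimeSpectrum.le_iff_specializes x y).1 (by
      change x.asIdeal ≤ y.asIdeal
      rw [h0]
      exact bot_le)
    have h2 : IsOpen (e'.inv ⁻¹' ((psD (k := k) i).ι ⁻¹' (O : Set (PS k (Fin 2))))) :=
      (O.isOpen.preimage (psD (k := k) i).ι.continuous).preimage e'.inv.continuous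
    have inv : ∀ v, e'.inv (e'.hom v) = v := fun v => by
      rw [← Scheme.Hom.comp_apply, Iso.hom_inv_id]
      rfl
    have h3 : x ∈ e'.inv ⁻¹' ((psD (k := k) i).ι ⁻¹' (O : Set (PS k (Fin 2)))) := by
      refine hs.mem_open h2 ?_
      change (psD (k := k) i).ι (e'.inv (e'.hom w')) ∈ O
      rw [inv]
      exact hw2
    change (psD (k := k) i).ι (e'.inv (e'.hom z)) ∈ O at h3
    rw [inv] at h3
    exact hz h3
  have hu := ratpts_unique i
  obtain ⟨hu⟩ := hu
  have hm : x.asIdeal.IsMaximal := ratpts_maximal x.asIdeal hx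
  have hc : IsClosed {x} := (PrimeSpectrum.isClosed_singleton_iff_isMaximal x).2 hm
  have h1 : {z} = e'.hom ⁻¹' {e'.hom z} := by
    ext v
    exact ⟨fun h => congrArg e'.hom h, fun h => e'.hom.isOpenEmbedding.injective h⟩
  rw [h1]
  exact hc.preimage e'.hom.continuous

theorem tRatPts : StRatPts := by
  intro k₀ k _ _ _ _ O hO z hz
  obtain ⟨i, hi⟩ := TopologicalSpace.Opens.mem_iSup.1
    ((iSup_psD (k := k) (κ := Fin 2)).ge (Set.mem_univ z))
  have hc := ratpts_closed O hO i ⟨z, hi⟩ hz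
  have hs := ps_smooth (k := k) (κ := Fin 2) 1 (by simp)
  have hft : LocallyOfFiniteType ((psD (k := k) i).ι ≫ psStr k (Fin 2)) := by
    have : LocallyOfFiniteType (psStr k (Fin 2)) := inferInstance
    infer_instance
  let p := pointOfClosedPoint ((psD (k := k) i).ι ≫ psStr k (Fin 2)) ⟨z, hi⟩ hc
  have hp : p ≫ (psD (k := k) i).ι ≫ psStr k (Fin 2) = 𝟙 _ := pointOfClosedPoint_comp _ _ _
  refine ⟨Over.homMk (p ≫ (psD (k := k) i).ι) ?_, ?_, ?_⟩
  · change (p ≫ (psD (k := k) i).ι) ≫ psStr k (Fin 2) ≫ (pt k₀ k).hom = (pt k₀ k).hom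
    rw [Category.assoc]
    refine Eq.trans (congrArg (fun ψ => p ≫ ψ) (Category.assoc _ _ _).symm) ?_
    refine Eq.trans (Category.assoc _ _ _).symm ?_
    rw [hp]
    exact Category.id_comp _
  · apply Over.OverMorphism.ext
    refine Eq.trans (Category.assoc _ _ _) hp
  · refine ⟨IsLocalRing.closedPoint k, ?_⟩
    change (psD (k := k) i).ι (p _) = z
    have h1 : p (IsLocalRing.closedPoint k) = ⟨z, hi⟩ := pointOfClosedPoint_apply _ _ _ _
    rw [h1]
    rfl

end Pool.Agent.Lib.MP_4ca46c_ag.T2
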