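import Mathlib
import Pool.Agent.Lib.MP_4ca46c_ag.Two.KunU
import Pool.Agent.Lib.MP_4ca46c_ag.T2.SpecT
import Pool.Agent.Lib.MP_4ca46c_ag.Two.Retr

/-!
# The member of the net over the closure of `k(b, c)`, local form with the total space
-/

namespace Pool.Agent.Lib.MP_4ca46c_ag.T2

open CategoryTheory Limits AlgebraicGeometry
open Pool.Agent.Lib.MP_4ca46c_ag.Sign Pool.Agent.Lib.MP_4ca46c_ag.Hyp
open Pool.Agent.Lib.MP_4ca46c_ag.Std Pool.Agent.Lib.MP_4ca46c_ag.Geo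
open Pool.Agent.Lib.MP_4ca46c_ag.Two Pool.Agent.Lib.MP_4ca46c_ag.Two.KunUAux

/-- The general statement, in the local form. -/
theorem kunus_core {k₀ K : Type} [Field k₀] [Field K] [CharZero K] (h1 : StMemEx) (h2 : StMemBC)
    (h3 : StMemScale) (h4 : StUSm) (h5 : StKunBC k₀ K) (T : WeilTheory k₀ K)
    (k : Type) [Field k] [Algebra k₀ k] [IsAlgClosed k] (Φ : Fib k₀ k)
    (ψ₀ : Two.PP k₀ k ⟶ PSo k₀ k (Fin 3)) (hψ : IsPsi ψ₀) 
    (F L : Type) [Field F] [Algebra k₀ F] [Algebra k F] [IsScalarTower k₀ k F]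
    [Field L] [Algebra k₀ L] [Algebra k L] [IsScalarTower k₀ k L] [Algebra F L]
    [IsScalarTower k₀ F L] [IsScalarTower k F L] [IsAlgClosed L] (x : Fin 3 → F)
    (hx : AlgebraicIndependent k x) (U₀ : Sch k₀) (toY : U₀ ⟶ Φ.Y) (u₀ : U₀ ⟶ pt k₀ F)
    (hM : IsMem Φ.y (Φ.ff ≫ ψ₀) x toY u₀) (U : Var k₀ L) (g : U.X ⟶ U₀)
    (hd : U.dim = Φ.V.n + Φ.m)
    (hPB : IsPullback g U.str u₀ (ptMap k₀ (IsScalarTower.toAlgHom k₀ F L))) :
    ∃ V' : ProjVar k₀ (M k), V'.n = Φ.V.n + Φ.m ∧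
      (∃ r' : V'.X ⟶ Φ.Y, IsMem Φ.y (Φ.ff ≫ ψ₀) (vec k) r' V'.str) ∧
      ((weil T (M k)).Kunneth ⟨V'.X, V'.str, V'.n, V'.isVar⟩ → (weil T L).Kunneth U) := by
  -- the coordinates in `L`
  have hxL : AlgebraicIndependent k (fun j => algebraMap F L (x j)) :=
    hx.map' (f := IsScalarTower.toAlgHom k F L) (algebraMap F L).injective
  set xL : Fin 3 → L := fun j => algebraMap F L (x j) with hxLdef
  have hx0 : xL 0 ≠ 0 := hxL.ne_zero 0
  obtain ⟨φ, hφ⟩ := exists_embed k L _ (quot_ind k L xL hxL)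
  let _ : Algebra (M k) L := φ.toRingHom.toAlgebra
  have t1 : IsScalarTower k (M k) L := IsScalarTower.of_algebraMap_eq fun r => (φ.commutes r).symm
  have t2 : IsScalarTower k₀ (M k) L := by
    refine IsScalarTower.of_algebraMap_eq fun r => ?_
    rw [IsScalarTower.algebraMap_apply k₀ k L, IsScalarTower.algebraMap_apply k₀ k (M k),
      ← IsScalarTower.algebraMap_apply k (M k) L]
  have hscale : (fun j => xL 0 * algebraMap (M k) L (vec k j)) = xL := by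
    funext j
    fin_cases j
    · simp [vec]
    · have : algebraMap (M k) L (bc k 0) = xL 1 / xL 0 := hφ 0
      simp only [vec, Fin.mk_one, Matrix.cons_val_one, Matrix.cons_val_zero, this]
      field_simp
    · have : algebraMap (M k) L (bc k 1) = xL 2 / xL 0 := hφ 1
      simp only [vec, Fin.reduceFinMk, Matrix.cons_val, this]
      field_simp
  -- the member over `M`
  obtain ⟨U', r', u', hM'⟩ := h1 k₀ k (Fin 3) (M k) Φ.Y Φ.y (Φ.ff ≫ ψ₀) (ff_str Φ ψ₀ hψ) (vec k)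
  have hdet : det3 (vec k) ≠ 0 := by
    have e : det3 (vec k) = bc k 0 + bc k 1 + bc k 0 * bc k 1 := by
      simp only [det3, vec, Matrix.cons_val_zero, Matrix.cons_val_one, Matrix.cons_val]
      ring
    rw [e]
    exact vec_det k
  obtain ⟨hsm, hpr⟩ := h4 k₀ k Φ ψ₀ hψ (M k) (vec k) (vec_li k) hdet U' r' u' hM'
  -- the base change to `L`
  let pm : pt k₀ L ⟶ pt k₀ (M k) := ptMap k₀ (IsScalarTower.toAlgHom k₀ (M k) L)
  have hPB'' : IsPullback (pullback.fst u' pm) (pullback.snd u' pm) u' pm :=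
    IsPullback.of_hasPullback _ _
  have hM'' := h2 k₀ k (Fin 3) (M k) L Φ.Y Φ.y (Φ.ff ≫ ψ₀) (vec k) U' r' u' _ _ _ hM' hPB''
  have hMU := h2 k₀ k (Fin 3) F L Φ.Y Φ.y (Φ.ff ≫ ψ₀) x U₀ toY u₀ _ _ _ hM hPB
  obtain ⟨e, he, he1, he2⟩ := h3 k₀ k (Fin 3) L Φ.Y Φ.y (Φ.ff ≫ ψ₀)
    (fun j => algebraMap (M k) L (vec k j)) (xL 0) hx0 _ _ _ U.X (g ≫ toY) U.str hM'' (by
      rw [hscale]; exact hMU)
  let g' : U.X ⟶ U' := inv e ≫ pullback.fst u' pm
  have hg' : IsPullback g' U.str u' pm := by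
    refine IsPullback.of_iso hPB'' (asIso e) (Iso.refl _) (Iso.refl _) (Iso.refl _) ?_ ?_ ?_ ?_
    · simp [g']
    · simp [he2]
    · simp
    · simp
  -- connectedness
  have hgl : IsPullback g'.left U.str.left u'.left pm.left := hg'.map (Over.forget _)
  have hsurj : AlgebraicGeometry.Surjective g'.left :=
    MorphismProperty.of_isPullback hgl.flip (conn_surjective _)
  have hUc : ConnectedSpace U.X.left := by
    have h := U.isVar.connected
    have i1 : Subsingleton (pt k₀ L).left := inferInstanceAs (Subsingleton (PrimeSpectrum L))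
    have i2 : Nonempty (pt k₀ L).left := inferInstanceAs (Nonempty (PrimeSpectrum L))
    exact GeometricallyConnected.connectedSpace_of_subsingleton U.str.left
  have hU'c : ConnectedSpace U'.left := hsurj.surj.connectedSpace g'.left.continuous
  have hconn : GeometricallyConnected u'.left := fGeomConn (M k) U'.left u'.left hU'c
  -- the embedding
  obtain ⟨κ, _, _, i, eY, hPc, hPs⟩ := exists_embY Φ
  obtain ⟨em, hem1, hem2⟩ := tEmb k₀ k (M k) (IsScalarTower.toAlgHom k₀ k (M k)) κ U' u'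
    (r' ≫ eY) hpr (by
      rw [Category.assoc, hPs]
      exact hM'.comm) (by
      intro S t t' e1 e2
      refine hM'.ext S t t' ?_ e1
      apply Over.OverMorphism.ext
      rw [← cancel_mono eY.left]
      have h5 := congrArg CommaMorphism.left e2
      simpa using h5)
  let V' : ProjVar k₀ (M k) :=
    { X := U'
      str := u'
      n := Φ.V.n + Φ.m
      isVar := ⟨hsm, hpr, hconn⟩
      κ := κ
      i := i
      emb := em
      closed := hem1
      emb_str := hem2 }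
  exact ⟨V', rfl, ⟨r', hM'⟩, fun hkun =>
    h5 T (M k) L ⟨U', u', Φ.V.n + Φ.m, ⟨hsm, hpr, hconn⟩⟩ U g' hg' hd hkun⟩


/-- The local form of `StKunU`, with the total space of the fibration. -/
def StKunUS (k₀ K : Type) [Field k₀] [Field K] [CharZero K] : Prop :=
  ∀ (T : WeilTheory k₀ K), Extra T → ∀ (k : Type) [Field k] [Algebra k₀ k] [IsAlgClosed k]
  (Φ : Fib k₀ k) (ψ₀ : Two.PP k₀ k ⟶ PSo k₀ k (Fin 3)), IsPsi ψ₀ → ∀ (U₀ : Sch k₀)
  (toY : U₀ ⟶ Φ.Y) (u₀ : U₀ ⟶ pt k₀ (P2 k₀ k).F), IsMem Φ.y (Φ.ff ≫ ψ₀)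
    (fun j : Fin 3 => algebraMap (P2 k₀ k).R (P2 k₀ k).F (MvPolynomial.X j)) toY u₀ →
  ∀ (U : Var k₀ (P2 k₀ k).L) (g : U.X ⟶ U₀), U.dim = Φ.V.n + Φ.m →
  IsPullback g U.str u₀ (ptMap k₀ (IsScalarTower.toAlgHom k₀ (P2 k₀ k).F (P2 k₀ k).L)) →
  ∃ V' : ProjVar k₀ (M k), V'.n = Φ.V.n + Φ.m ∧
    ((weil T (M k)).Kunneth (pvar V') →
      (weil T (P2 k₀ k).L).Kunneth U ∧ (weil T k).Kunneth Φ.VV)

/-- The local form of `StRelW`, with the total space of the fibration.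

PROOF. As for `StRelW` (`Two/SpecU.lean`), with `StKunUS` in place of `StKunU`: take `ψ₀`, `U₀`,
`toP`, `toY` from `StNetWW`, and the net `D` with `Y = Φ.Y`, `str = Φ.y`, `N = Φ.V.n + Φ.m`
(`isVar`: `Var.isVar_prod`, `Φ.dim`). `StNetH` gives `NetH (weil T k) (weil T L) D.YV (D.UV hv) δ`;
`D.YV` is `Φ.VV ⊗ Φ.VV` up to the equality `N + 1 = n + n` of the dimensions (generalize, `subst`).
`StKunUS` gives `V'` and `Kunneth V' → Kunneth (D.UV hv) ∧ Kunneth Φ.VV` (`D.isBC`). Then `StNetRel`. -/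
def StRelWS (k₀ K : Type) [Field k₀] [Field K] [CharZero K] : Prop :=
  ∀ (T : WeilTheory k₀ K), Extra T → ∀ (k : Type) [Field k] [Algebra k₀ k] [IsAlgClosed k]
  (Φ : Fib k₀ k), Φ.η T ∈ (weil T k).Alg Φ.VV 1 ∧ Φ.η T * Φ.η T = 0 ∧
  ∃ V' : ProjVar k₀ (M k), V'.n = Φ.V.n + Φ.m ∧
    ((weil T (M k)).Kunneth (pvar V') →
      Rel (weil T k) Φ.VV (Φ.η T) ∧ (weil T k).Kunneth Φ.VV)

theorem tKunUS (k₀ K : Type) [Field k₀] [Field K] [CharZero K] (h1 : StMemEx) (h2 : StMemBC)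
    (h3 : StMemScale) (h4 : StUSm) (h5 : StKunBC k₀ K) (h6 : StGraph) : StKunUS k₀ K := by
  intro T E k _ _ _ Φ ψ₀ hψ U₀ toY u₀ hM U g hd hPB
  have hx : AlgebraicIndependent k
      (fun j : Fin 3 => algebraMap (P2 k₀ k).R (P2 k₀ k).F (MvPolynomial.X j)) := by
    have h : AlgebraicIndependent k
        (MvPolynomial.X : (P2 k₀ k).κ → MvPolynomial (P2 k₀ k).κ k) :=
      MvPolynomial.algebraicIndependent_X _ k
    exact h.map' (f := IsScalarTower.toAlgHom k (P2 k₀ k).R (P2 k₀ k).F)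
      (IsFractionRing.injective _ _)
  obtain ⟨V', hn, ⟨r', hM'⟩, hV'⟩ := kunus_core h1 h2 h3 h4 h5 T k Φ ψ₀ hψ (P2 k₀ k).F
    (P2 k₀ k).L _ hx U₀ toY u₀ hM U g hd hPB
  have hdet : det3 (vec k) ≠ 0 := by
    have e : det3 (vec k) = bc k 0 + bc k 1 + bc k 0 * bc k 1 := by
      simp only [det3, vec, Matrix.cons_val_zero, Matrix.cons_val_one, Matrix.cons_val]
      ring
    rw [e]
    exact vec_det k
  exact ⟨V', hn, fun hK => ⟨hV' hK, kunneth_of_member h1 h6 T E k Φ ψ₀ hψ (vec k) hdet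
    (pvar V') r' hM' hK⟩⟩

end Pool.Agent.Lib.MP_4ca46c_ag.T2
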