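import Mathlib
import Pool.Agent.Lib.MP_4ca46c_ag.T2.KunUL
import Pool.Agent.Lib.MP_4ca46c_ag.Two.NetWW
import Pool.Agent.Lib.MP_4ca46c_ag.Std.GeoFacts

/-!
# The relation for the class of a fibre, local form
-/

set_option autoImplicit false

namespace Pool.Agent.Lib.MP_4ca46c_ag.T2

open CategoryTheory Limits AlgebraicGeometry MonoidalCategory CartesianMonoidalCategory
open Pool.Agent.Lib.MP_4ca46c_ag.Sign Pool.Agent.Lib.MP_4ca46c_ag.Hyp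
open Pool.Agent.Lib.MP_4ca46c_ag.Std Pool.Agent.Lib.MP_4ca46c_ag.Geo
open Pool.Agent.Lib.MP_4ca46c_ag.Two Pool.Agent.Lib.MP_4ca46c_ag.Two.KunUAux

theorem relwl_cast {k₀ K : Type} [Field k₀] [Field K] [CharZero K] (T : WeilTheory k₀ K)
    {k : Type} [Field k] [Algebra k₀ k] [IsAlgClosed k] {Y : Sch k₀} {y : Y ⟶ pt k₀ k}
    {N M : ℕ} (hN : IsVar y N) (hM : IsVar y M) (h : N = M) {𝒱' : Type 1} [Category.{0} 𝒱']
    [CartesianMonoidalCategory 𝒱'] (W' : WeilCohomology K 𝒱') (U : 𝒱') (δ : T.H Y)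
    (H : Nonempty (NetH (weil T k) W' (⟨Y, y, N, hN⟩ : Var k₀ k) U δ)) :
    Nonempty (NetH (weil T k) W' (⟨Y, y, M, hM⟩ : Var k₀ k) U δ) := by
  subst h
  exact H

theorem relwl_η {k₀ K : Type} [Field k₀] [Field K] [CharZero K] (T : WeilTheory k₀ K)
    {k : Type} [Field k] [Algebra k₀ k] [IsAlgClosed k] (Φ : Fib k₀ k) :
    Φ.η T ∈ (weil T k).Alg Φ.VV 1 ∧ Φ.η T * Φ.η T = 0 := by
  have hP : IsVar (PSo.str k₀ k (Fin 2)) 1 := NetWWAux.p1_var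
  have hc := hypClass_mem T tPS tHyp k (0 : Fin 2)
  refine ⟨⟨T.pull Φ.f (hypClass T k (0 : Fin 2)), T.pull_mem _ Φ.V.isVar.sm hP.sm _ _ hc, rfl⟩, ?_⟩
  let X : Var k₀ k := ⟨PSo k₀ k (Fin 2), PSo.str k₀ k (Fin 2), 1, hP⟩
  let t : (weil T k).H X := T.cl (PSo k₀ k (Fin 2)) (hypClass T k (0 : Fin 2))
  have ht : t ∈ (weil T k).gr X 2 := T.cl_mem _ hP.isWeil 1 _ hc
  have htt : t * t ∈ (weil T k).gr X (2 + 2) := SetLike.mul_mem_graded ht ht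
  have h0 : t * t = 0 := by
    rw [← WeilCohomology.pi_same (W := weil T k) htt]
    exact WeilCohomology.pi_top (W := weil T k) (X := X) (by
      change 2 * 1 < 2 + 2
      omega) _
  have e : Φ.η T = T.pullH Φ.f t := T.cl_pull Φ.f Φ.V.isVar.isWeil hP.isWeil _
  have e2 : T.pullH Φ.f t * T.pullH Φ.f t = T.pullH Φ.f (t * t) := (map_mul _ _ _).symm
  rw [e, e2, h0]
  exact map_zero (T.pullH Φ.f)

theorem tRelWL (k₀ K : Type) [Field k₀] [Field K] [CharZero K] (hv : StNetVar k₀)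
    (h1 : StNetWW k₀ K) (h2 : StNetH k₀ K) (h3 : StKunUL k₀ K) (h4 : StNetRel) :
    StRelWL k₀ K := by
  intro T hT k _ _ _ Φ
  obtain ⟨hη, hηη⟩ := relwl_η T Φ
  obtain ⟨ψ₀, hψ, U₀, toP, toY, hPB, hsm, hconn, hmem, hcls⟩ := h1 T hT k Φ
  have hN : Φ.V.n + Φ.m + 1 = Φ.V.n + Φ.V.n := by rw [Φ.dim]; omega
  have hvar : IsVar Φ.y (Φ.V.n + Φ.m + 1) := by
    rw [hN]
    exact NetWWAux.y_var Φ
  let D : Net (P2 k₀ k) :=
    { Y := Φ.Y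
      str := Φ.y
      N := Φ.V.n + Φ.m
      isVar := hvar
      ψ := Φ.ff ≫ ψ₀
      ψ_str := NetWWAux.psi_str Φ hψ
      U₀ := U₀
      toP := toP
      toY := toY
      isPB := hPB
      smooth := hsm
      conn := hconn }
  have hH := h2 hv T hT k (P2 k₀ k) D 1 rfl
  have hH' := relwl_cast T D.isVar (NetWWAux.y_var Φ) hN (weil T (P2 k₀ k).L) (D.UV hv) _ hH
  obtain ⟨V', hV', hkun⟩ := h3 T k Φ ψ₀ hψ U₀ toY (toP ≫ (P2 k₀ k).y₀) hmem (D.UV hv) D.pU rfl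
    D.isBC
  refine ⟨hη, hηη, V', hV', fun hk => ?_⟩
  refine h4 K _ _ (weil T k) (weil T (P2 k₀ k).L) Φ.VV (D.UV hv) (Φ.η T) hη hηη ?_ (hkun hk)
  rw [← hcls]
  exact hH'

end Pool.Agent.Lib.MP_4ca46c_ag.T2
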