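import Mathlib
import Pool.Agent.Lib.MP_4ca46c_ag.T2.KunUS
import Pool.Agent.Lib.MP_4ca46c_ag.T2.RelWL
import Pool.Agent.Lib.MP_4ca46c_ag.Two.NetWW
import Pool.Agent.Lib.MP_4ca46c_ag.Std.GeoFacts

/-!
# The relation for the class of a fibre, local form with the total space
-/

set_option autoImplicit false

namespace Pool.Agent.Lib.MP_4ca46c_ag.T2

open CategoryTheory Limits AlgebraicGeometry MonoidalCategory CartesianMonoidalCategory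
open Pool.Agent.Lib.MP_4ca46c_ag.Sign Pool.Agent.Lib.MP_4ca46c_ag.Hyp
open Pool.Agent.Lib.MP_4ca46c_ag.Std Pool.Agent.Lib.MP_4ca46c_ag.Geo
open Pool.Agent.Lib.MP_4ca46c_ag.Two Pool.Agent.Lib.MP_4ca46c_ag.Two.KunUAux

theorem tRelWS (k₀ K : Type) [Field k₀] [Field K] [CharZero K] (hv : StNetVar k₀)
    (h1 : StNetWW k₀ K) (h2 : StNetH k₀ K) (h3 : StKunUS k₀ K) (h4 : StNetRel) :
    StRelWS k₀ K := by
  intro T hT k _ _ _ Φ
  obtain ⟨hη, hηη⟩ := relwl_η T Φ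
  obtain ⟨ψ₀, hψ, U₀, toP, toY, hPB, hsm, hconn, hmem, hcls⟩ := h1 T hT k Φ
  have hN : Φ.V.n + Φ.m + 1 = Φ.V.n + Φ.V.n := by rw [Φ.dim]; omega
  have hvar : IsVar Φ.y (Φ.V.n + Φ.m + 1) := by
    rw [hN]
    exact NetWWAux.y_var Φ
  let D : Net (P2 k₀ k) :=
    { Y := Φ.Y
      str := Φ.y
      N := Φ.V.n + Φ.m
      isVar := hvar
      ψ := Φ.ff ≫ ψ₀
      ψ_str := NetWWAux.psi_str Φ hψ
      U₀ := U₀
      toP := toP
      toY := toY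
      isPB := hPB
      smooth := hsm
      conn := hconn }
  have hH := h2 hv T hT k (P2 k₀ k) D 1 rfl
  have hH' := relwl_cast T D.isVar (NetWWAux.y_var Φ) hN (weil T (P2 k₀ k).L) (D.UV hv) _ hH
  obtain ⟨V', hV', hkun⟩ := h3 T hT k Φ ψ₀ hψ U₀ toY (toP ≫ (P2 k₀ k).y₀) hmem (D.UV hv) D.pU rfl
    D.isBC
  refine ⟨hη, hηη, V', hV', fun hk => ⟨?_, (hkun hk).2⟩⟩
  refine h4 K _ _ (weil T k) (weil T (P2 k₀ k).L) Φ.VV (D.UV hv) (Φ.η T) hη hηη ?_ (hkun hk).1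
  rw [← hcls]
  exact hH'

end Pool.Agent.Lib.MP_4ca46c_ag.T2
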