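import Pool.Agent.Lib.MP_4ca46c_ag.T2.SpecG

/-!
# The section of the pencil over a base point
-/

set_option autoImplicit false

namespace Pool.Agent.Lib.MP_4ca46c_ag.T2

open CategoryTheory Limits AlgebraicGeometry MvPolynomial
open Pool.Agent.Lib.MP_4ca46c_ag.Sign Pool.Agent.Lib.MP_4ca46c_ag.Hyp
open Pool.Agent.Lib.MP_4ca46c_ag.Std Pool.Agent.Lib.MP_4ca46c_ag.Div

section geo

variable {k₀ k : Type} [Field k₀] [Field k] [Algebra k₀ k]

/-- A zero scheme over the base field is a closed subscheme. -/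
theorem section_closed {κ : Type} [Fintype κ] {Y : Sch k₀} {E : Y ⟶ PSo k₀ k κ}
    {a : κ → Γ((pt k₀ k).left, ⊤)} {D : Sch k₀} {d : D ⟶ pt k₀ k} {toY : D ⟶ Y}
    (h : IsZero E (𝟙 (pt k₀ k)) a d toY) : IsClosedImmersion toY.left := by
  have h1 := h.closed
  have h2 : IsIso (pullback.fst (E ≫ PSo.str k₀ k κ) (𝟙 (pt k₀ k))) := inferInstance
  have h3 : IsIso (pullback.fst (E ≫ PSo.str k₀ k κ) (𝟙 (pt k₀ k))).left := by
    exact inferInstanceAs (IsIso ((Over.forget _).map _))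
  have h4 : toY.left = (pullback.lift toY d h.comm).left ≫
      (pullback.fst (E ≫ PSo.str k₀ k κ) (𝟙 (pt k₀ k))).left := by
    rw [← Over.comp_left, pullback.lift_fst]
  rw [h4]
  infer_instance

/-- A nonempty proper scheme over an algebraically closed field has a rational point. -/
theorem section_point [IsAlgClosed k] {X : Sch k₀} (x : X ⟶ pt k₀ k) (h2 : IsProper x.left)
    (h1 : Nonempty X.left) : ∃ p : pt k₀ k ⟶ X, p ≫ x = 𝟙 _ := by
  have h3 : CompactSpace X.left := by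
    have : CompactSpace (pt k₀ k).left :=
      inferInstanceAs (CompactSpace (Spec (CommRingCat.of k)))
    exact QuasiCompact.compactSpace_of_compactSpace x.left
  obtain ⟨z, hz⟩ : ∃ z : X.left, IsClosed ({z} : Set X.left) := by
    obtain ⟨z, _, hz⟩ := IsClosed.exists_closed_singleton (X := X.left) isClosed_univ
      Set.univ_nonempty
    exact ⟨z, hz⟩
  let f : X.left ⟶ Spec (CommRingCat.of k) := x.left
  have hf : LocallyOfFiniteType f := inferInstanceAs (LocallyOfFiniteType x.left)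
  have hp : pointOfClosedPoint f z hz ≫ f = 𝟙 _ := pointOfClosedPoint_comp f z hz
  have hw : x.left ≫ (pt k₀ k).hom = X.hom := Over.w x
  refine ⟨Over.homMk (pointOfClosedPoint f z hz) ?_, ?_⟩
  · change pointOfClosedPoint f z hz ≫ X.hom = (pt k₀ k).hom
    rw [← hw, ← Category.assoc]
    erw [hp]
    exact Category.id_comp _
  · ext1
    exact hp

variable {κ κ' : Type} [Fintype κ] [Fintype κ'] {T : Scheme.{0}}

/-- A pair of points satisfies a bilinear equation if the first one satisfies all the equations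
with coefficients `c (·, j)`. -/
theorem section_van (F : T ⟶ PS k κ) (G : T ⟶ PS k κ') (c : κ × κ' → Γ(T, ⊤))
    (h : ∀ j, (PreCoord.ps k κ).Van F (fun i => c (i, j))) :
    (PreCoord.ps k (κ × κ')).Van (segre F G) c := by
  rintro ⟨i₀, j₀⟩
  set W : T.Opens := segre F G ⁻¹ᵁ psD (i₀, j₀) with hW
  have hW' : W = F ⁻¹ᵁ psD i₀ ⊓ G ⁻¹ᵁ psD j₀ := segre_pre F G (i₀, j₀)
  have h₁ : W ≤ F ⁻¹ᵁ psD i₀ := hW'.le.trans inf_le_left
  have h₂ : W ≤ G ⁻¹ᵁ psD j₀ := hW'.le.trans inf_le_right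
  have key : ∀ j, ∑ i, T.presheaf.map (homOfLE le_top).op (c (i, j)) *
      F.appLE (psD i₀) W h₁ (psf i₀ i) = 0 := by
    intro j
    have h3 := (PreCoord.ps k κ).eqn_res F (fun i => c (i, j)) i₀ le_rfl h₁
    rw [h j i₀, map_zero] at h3
    exact h3.symm
  have h4 : ∀ b : κ × κ', (segre F G).appLE (psD (i₀, j₀)) W le_rfl (psf (i₀, j₀) b) =
      F.appLE (psD i₀) W h₁ (psf i₀ b.1) * G.appLE (psD j₀) W h₂ (psf j₀ b.2) := by
    intro b
    have e1 := segre_app F G (𝟙 T) (i₀, j₀) b W le_rfl h₁ h₂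
    rw [appLE_congr (Category.id_comp (segre F G)) _ W _ le_rfl,
      appLE_congr (Category.id_comp F) _ W _ h₁, appLE_congr (Category.id_comp G) _ W _ h₂] at e1
    exact e1
  have fin : ∑ b : κ × κ', T.presheaf.map (homOfLE le_top).op (c b) *
      (segre F G).appLE (psD (i₀, j₀)) W le_rfl (psf (i₀, j₀) b) = (0 : Γ(T, W)) := by
    rw [Fintype.sum_prod_type_right]
    refine Finset.sum_eq_zero fun j _ => ?_
    have h5 : ∀ i, T.presheaf.map (homOfLE le_top).op (c (i, j)) *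
        (segre F G).appLE (psD (i₀, j₀)) W le_rfl (psf (i₀, j₀) (i, j)) =
        (T.presheaf.map (homOfLE le_top).op (c (i, j)) * F.appLE (psD i₀) W h₁ (psf i₀ i)) *
        G.appLE (psD j₀) W h₂ (psf j₀ j) := by
      intro i
      rw [h4, mul_assoc]
    rw [Finset.sum_congr rfl fun i _ => h5 i, ← Finset.sum_mul, key, zero_mul]
  exact fin

end geo

/-- The pencil has a base point, so its total space has a section over the line. -/
theorem tSection (h1 : StZeroEx) (_h2 : StZeroY) (_h3 : StAffZero) (h4 : StMeets) :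
    StSection := by
  intro k₀ k _ _ _ _ V m hm hn G
  have hV := V.isVar
  rw [hn] at hV
  have hconn := hV.connectedSpace
  have hVp := hV.proper
  have hY : Nonempty G.Y.left := h4 k₀ k V.κ V.X V.str V.emb V.emb_str V.closed m hV.smooth
    hV.proper inferInstance (fun i => G.a (i, 0)) G.Y G.y _ G.isZeroY
  obtain ⟨m', rfl⟩ : ∃ m', m = m' + 1 := ⟨m - 1, by omega⟩
  set ρ : G.Y ⟶ V.X := G.ι ≫ G.j ≫ pullback.fst _ _ with hρ
  have hρc : IsClosedImmersion ρ.left := section_closed G.isZeroY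
  have hec := V.closed
  have hcl : IsClosedImmersion (ρ ≫ V.emb).left := by
    rw [Over.comp_left]
    infer_instance
  have hstr : (ρ ≫ V.emb) ≫ PSo.str k₀ k V.κ = G.y := by
    have h5 := G.isZeroY.comm
    rw [Category.comp_id] at h5
    rw [Category.assoc]
    exact h5
  have hyp : IsProper G.y.left := by
    have h5 : ρ ≫ V.str = G.y := by
      rw [← V.emb_str, ← Category.assoc, hstr]
    rw [← h5, Over.comp_left]
    infer_instance
  obtain ⟨D, d, toY, hD⟩ := h1 k₀ k V.κ G.Y (ρ ≫ V.emb) (pt k₀ k) (𝟙 (pt k₀ k))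
    (fun i => cf k₀ (G.a (i, 1)))
  have hDn : Nonempty D.left := h4 k₀ k V.κ G.Y G.y (ρ ≫ V.emb) hstr hcl m' G.smoothY hyp hY
    (fun i => G.a (i, 1)) D d toY hD
  have hdY : toY ≫ G.y = d := by
    have h5 := hD.comm
    rw [Category.comp_id, hstr] at h5
    exact h5
  have hDc : IsClosedImmersion toY.left := section_closed hD
  have hdp : IsProper d.left := by
    rw [← hdY, Over.comp_left]
    infer_instance
  obtain ⟨p, hp⟩ := section_point d hdp hDn
  set β : pt k₀ k ⟶ V.X := p ≫ toY ≫ ρ with hβ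
  have hβs : β ≫ V.str = 𝟙 _ := by
    rw [hβ, ← hp, ← hdY, ← hstr, ← V.emb_str]
    simp only [Category.assoc]
  have hv0 : VanO (β ≫ V.emb) (fun i => cf k₀ (G.a (i, 0))) := by
    have h5 := (G.isZeroY.iff (pt k₀ k) (𝟙 _) β (by
      rw [V.emb_str, hβs, Category.comp_id])).1 ⟨p ≫ toY, by
        rw [Category.assoc, hdY, hp], by rw [Category.assoc]⟩
    have h6 : (fun j => (𝟙 (pt k₀ k) : pt k₀ k ⟶ pt k₀ k).left.appTop (cf k₀ (G.a (j, 0)))) =
        fun i => cf k₀ (G.a (i, 0)) := by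
      funext j
      rw [Over.id_left, Scheme.Hom.id_appTop]
      rfl
    rwa [h6] at h5
  have hv1 : VanO (β ≫ V.emb) (fun i => cf k₀ (G.a (i, 1))) := by
    have h5 := (hD.iff (pt k₀ k) (𝟙 _) (p ≫ toY) (by
      rw [hstr, Category.assoc, hdY, hp, Category.comp_id])).1 ⟨p, hp, rfl⟩
    have h6 : (fun j => (𝟙 (pt k₀ k) : pt k₀ k ⟶ pt k₀ k).left.appTop (cf k₀ (G.a (j, 1)))) =
        fun i => cf k₀ (G.a (i, 1)) := by
      funext j
      rw [Over.id_left, Scheme.Hom.id_appTop]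
      rfl
    have h7 : (p ≫ toY) ≫ ρ ≫ V.emb = β ≫ V.emb := by
      rw [hβ]
      simp only [Category.assoc]
    rwa [h6, h7] at h5
  -- the point of `X × ℙ^1`
  obtain ⟨w, w1, w2⟩ : ∃ w : P1 k₀ k ⟶ pullback V.str (s1 k₀ k),
      w ≫ pullback.fst _ _ = s1 k₀ k ≫ β ∧ w ≫ pullback.snd _ _ = 𝟙 _ :=
    ⟨pullback.lift (s1 k₀ k ≫ β) (𝟙 _) (by
      rw [Category.assoc, hβs, Category.comp_id, Category.id_comp]), pullback.lift_fst _ _ _,
      pullback.lift_snd _ _ _⟩
  have hF : (w ≫ sgE V.str V.emb V.emb_str).left = segre (s1 k₀ k ≫ β ≫ V.emb).left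
      (𝟙 (P1 k₀ k) : P1 k₀ k ⟶ P1 k₀ k).left := by
    rw [sgE, ← Category.assoc]
    refine segO_left _ _ _ ?_ ?_
    · rw [Category.assoc, pullback.lift_fst, ← Category.assoc, w1, Category.assoc]
    · rw [Category.assoc, pullback.lift_snd, w2]
  have hvan : VanO (w ≫ sgE V.str V.emb V.emb_str)
      (fun j => (s1 k₀ k).left.appTop (cf k₀ (G.a j))) := by
    have h5 : ∀ j : Fin 2, VanO (β ≫ V.emb) (fun i => cf k₀ (G.a (i, j))) := by
      intro j
      fin_cases j
      · exact hv0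
      · exact hv1
    unfold VanO
    rw [hF]
    refine section_van _ _ _ fun j => ?_
    exact PreCoord.Van.comp _ (s1 k₀ k).left (h5 j)
  obtain ⟨σ, -, hσ⟩ := (G.isZeroW.iff (P1 k₀ k) (s1 k₀ k) w (by
    have h5 : sgE V.str V.emb V.emb_str ≫ PSo.str k₀ k (V.κ × Fin 2) =
        pullback.snd V.str (s1 k₀ k) ≫ s1 k₀ k := by
      rw [sgE, Category.assoc, segO_str, ← Category.assoc, pullback.lift_fst, Category.assoc,
        V.emb_str, pullback.condition]
    rw [h5, ← Category.assoc, w2, Category.id_comp, Category.comp_id])).2 hvan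
  exact ⟨σ, by rw [← Category.assoc, hσ, w2]⟩

end Pool.Agent.Lib.MP_4ca46c_ag.T2
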