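import Mathlib
import Pool.Agent.Lib.MP_4ca46c_ag.T2.Loc
import Pool.Agent.Lib.MP_4ca46c_ag.T2.RelWS
import Pool.Agent.Lib.MP_4ca46c_ag.T2.Section
import Pool.Agent.Lib.MP_4ca46c_ag.T2.Zero
import Pool.Agent.Lib.MP_4ca46c_ag.T2.AffZero
import Pool.Agent.Lib.MP_4ca46c_ag.T2.Meets
import Pool.Agent.Lib.MP_4ca46c_ag.T2.RatPts
import Pool.Agent.Lib.MP_4ca46c_ag.T2.HypCls
import Pool.Agent.Lib.MP_4ca46c_ag.T2.SegCls
import Pool.Agent.Lib.MP_4ca46c_ag.T2.LineCls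
import Pool.Agent.Lib.MP_4ca46c_ag.T2.PenT
import Pool.Agent.Lib.MP_4ca46c_ag.Two.MemEx
import Pool.Agent.Lib.MP_4ca46c_ag.Two.MemBC
import Pool.Agent.Lib.MP_4ca46c_ag.Two.MemGen
import Pool.Agent.Lib.MP_4ca46c_ag.Two.GeomUp
import Pool.Agent.Lib.MP_4ca46c_ag.Two.Graph
import Pool.Agent.Lib.MP_4ca46c_ag.Two.NotRat
import Pool.Agent.Lib.MP_4ca46c_ag.Two.USm
import Pool.Agent.Lib.MP_4ca46c_ag.Two.UConn
import Pool.Agent.Lib.MP_4ca46c_ag.Two.KunBC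
import Pool.Agent.Lib.MP_4ca46c_ag.Two.NetPP
import Pool.Agent.Lib.MP_4ca46c_ag.Two.NetVar
import Pool.Agent.Lib.MP_4ca46c_ag.Two.NetCH
import Pool.Agent.Lib.MP_4ca46c_ag.Two.NetCls
import Pool.Agent.Lib.MP_4ca46c_ag.Two.NetDel
import Pool.Agent.Lib.MP_4ca46c_ag.Two.NetAvg
import Pool.Agent.Lib.MP_4ca46c_ag.Two.NetH
import Pool.Agent.Lib.MP_4ca46c_ag.Two.NetRel
import Pool.Agent.Lib.MP_4ca46c_ag.Two.NetWW
import Pool.Agent.Lib.MP_4ca46c_ag.Two.PsiCls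
import Pool.Agent.Lib.MP_4ca46c_ag.Two.Idem
import Pool.Agent.Lib.MP_4ca46c_ag.Two.VRK
import Pool.Agent.Lib.MP_4ca46c_ag.Two.VRQ
import Pool.Agent.Lib.MP_4ca46c_ag.Two.Trp
import Pool.Agent.Lib.MP_4ca46c_ag.Two.PencS
import Pool.Agent.Lib.MP_4ca46c_ag.Two.Step
import Pool.Agent.Lib.MP_4ca46c_ag.Two.LefUp
import Pool.Agent.Lib.MP_4ca46c_ag.Two.Low

/-!
# The quasi-inverse for the class of a fibre, and the pencil: all inputs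
-/

namespace Pool.Agent.Lib.MP_4ca46c_ag.T2

open CategoryTheory Limits AlgebraicGeometry
open Pool.Agent.Lib.MP_4ca46c_ag.Sign Pool.Agent.Lib.MP_4ca46c_ag.Hyp
open Pool.Agent.Lib.MP_4ca46c_ag.Std Pool.Agent.Lib.MP_4ca46c_ag.Geo
open Pool.Agent.Lib.MP_4ca46c_ag.Two

theorem fGeomUSm : StUSm := tUSm tMemEx tGraph tNotRat

theorem fUConn : StUConn := tUConn tMemEx tGraph tGeomUp

theorem fNetPP : StNetPP := tNetPP tMemEx tMemGen tGraph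

variable (k₀ K : Type) [Field k₀] [Field K] [CharZero K]

omit [CharZero K] in
theorem fNetCls : StNetCls k₀ K := tNetCls k₀ K (tNetVar k₀)

theorem fPsiCls : StPsiCls k₀ K := tPsiCls k₀ K (tNetVar k₀) (fNetCls k₀ K) fNetPP

theorem fNetWW (h1 : StPsi) : StNetWW k₀ K :=
  tNetWW k₀ K h1 tMemEx tMemGen fGeomUSm fUConn (fPsiCls k₀ K)

theorem fNetH (h2 : StNetSm k₀) : StNetH k₀ K :=
  tNetH k₀ K h2 (tNetCH k₀ K h2) (tNetDel k₀ K h2) (fNetCls k₀ K) (tNetAvg k₀ K h2)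

theorem fKunUS : StKunUS k₀ K :=
  tKunUS k₀ K tMemEx tMemBC tMemScale fGeomUSm (tKunBC k₀ K) tGraph

theorem fRelWS (h1 : StPsi) (h2 : StNetSm k₀) : StRelWS k₀ K :=
  tRelWS k₀ K (tNetVar k₀) (fNetWW k₀ K h1) (fNetH k₀ K h2) (fKunUS k₀ K) tNetRel

theorem tFibL (h1 : StRelWS k₀ K) (h2 : StVRK) (h3 : StVRQ) : StFibL k₀ K := by
  intro T E k _ _ _ Φ
  obtain ⟨ha, -, V', hV', H⟩ := h1 T E k Φ
  refine ⟨V', hV', fun hK => ?_⟩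
  obtain ⟨hR, hC⟩ := H hK
  exact h3 K (Var k₀ k) (weil T k) Φ.VV (Φ.η T) ha hC
    (h2 K (Var k₀ k) (weil T k) Φ.VV (Φ.η T) ha
      (WeilCohomology.cor_le ((weil T k).sign_eps hC.sign)) hR)

theorem fFibL (h1 : StPsi) (h2 : StNetSm k₀) : StFibL k₀ K :=
  tFibL k₀ K (fRelWS k₀ K h1 h2) (tVRK tIdem) tVRQ

theorem fLefUp : StLefUp := tLefUp tPencS (tStep tTrp)

theorem fSection : StSection := tSection tZeroEx tZeroY tAffZero (tMeets tAffZero)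

omit [CharZero K] in
theorem fPenT : StPenT k₀ K :=
  tPenT k₀ K (tHypCls k₀ K) (tSegCls k₀ K) (tLineCls k₀ K (tHypCls k₀ K)) tAffZero

omit [CharZero K] in
theorem fPencilAsm (h1 : StPencil) (h2 : StHypConn) : StPencilAsm k₀ K :=
  tPencilAsm k₀ K h1 tRatPts (tMeets tAffZero) fSection (fPenT k₀ K) h2

end Pool.Agent.Lib.MP_4ca46c_ag.T2
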