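import Mathlib
import Pool.Agent.Lib.MP_4ca46c_ag.T2.EvenA
import Pool.Agent.Lib.MP_4ca46c_ag.T2.FibL

/-!
# Even Künneth components: geometry and assembly
-/

set_option autoImplicit false

namespace Pool.Agent.Lib.MP_4ca46c_ag.T2

open CategoryTheory Limits AlgebraicGeometry MonoidalCategory CartesianMonoidalCategory
open Pool.Agent.Lib.MP_4ca46c_ag.Sign Pool.Agent.Lib.MP_4ca46c_ag.Hyp
open Pool.Agent.Lib.MP_4ca46c_ag.Std Pool.Agent.Lib.MP_4ca46c_ag.Geo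
open Pool.Agent.Lib.MP_4ca46c_ag.Two Pool.Agent.Lib.MP_4ca46c_ag.Two.KunUAux
open Pool.Agent.Lib.MP_4ca46c_ag.Two.RetrAux

/-- The even projectors of a retract. -/
theorem evenb_retract {K : Type} [Field K] [CharZero K] {𝒱 : Type 1} [Category.{0} 𝒱]
    [CartesianMonoidalCategory 𝒱] (W : WeilCohomology K 𝒱) {U Z : 𝒱} (s : Z ⟶ U) (p : U ⟶ Z)
    (h : s ≫ p = 𝟙 Z) (hU : EvenK W U) : EvenK W Z := by
  intro i hi
  have h1 := W.cor_comp (W.cor_pull s) (W.cor_comp (hU i hi) (W.cor_pull p))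
  have h2 : (W.pull s).toLinearMap ∘ₗ W.pi U i ∘ₗ (W.pull p).toLinearMap = W.pi Z i := by
    refine W.hom_ext fun l x hx => ?_
    change W.pull s (W.pi U i (W.pull p x)) = W.pi Z i x
    by_cases hl : l = i
    · subst hl
      rw [W.pi_same hx, W.pi_same (W.pull_gr p hx), ← W.pull_comp, h, W.pull_id]
    · rw [W.pi_ne hx hl, W.pi_ne (W.pull_gr p hx) hl, map_zero]
  rw [h2] at h1
  simpa only [add_zero] using h1

section desc

variable {k₀ K : Type} [Field k₀] [Field K] [CharZero K] {T : WeilTheory k₀ K} (E : Extra T)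
  {k L : Type} [Field k] [Algebra k₀ k] [IsAlgClosed k] [Field L] [Algebra k₀ L] [IsAlgClosed L]
  [Algebra k L] [IsScalarTower k₀ k L]

include E in
/-- Descent of the even projectors. -/
theorem evenb_desc (H : AlgDesc T k L) {X : Var k₀ k} {X' : Var k₀ L} {g : X'.X ⟶ X.X}
    (hd : X'.dim = X.dim)
    (hg : IsPullback g X'.str X.str (ptMap k₀ (IsScalarTower.toAlgHom k₀ k L)))
    (hK : EvenK (weil T L) X') : EvenK (weil T k) X := by
  obtain ⟨-, ⟨inj, -⟩, -⟩ := Div.tBC k₀ K T E k L X X' g hd hg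
  intro i hi
  obtain ⟨f₀, hf₀, h⟩ := desc_cor E H hd hg 0 _ (hK i hi)
  have h2 : f₀ = (weil T k).pi X i := by
    refine (weil T k).hom_ext fun l x hx => inj ?_
    rw [← h x]
    have hx' : (T.pullH g x : T.H X'.X) ∈ (weil T L).gr X' l :=
      T.pullH_mem g X'.isVar.isWeil X.isVar.isWeil l x hx
    by_cases hl : l = i
    · subst hl
      rw [(weil T k).pi_same hx]
      exact (weil T L).pi_same hx'
    · rw [(weil T k).pi_ne hx hl]
      exact ((weil T L).pi_ne hx' hl).trans (map_zero (T.pullH g)).symm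
  rw [← h2]
  exact hf₀

include E in
/-- Base change of the even projectors. -/
theorem evenb_bc {X : Var k₀ k} {X' : Var k₀ L} {g : X'.X ⟶ X.X} (hd : X'.dim = X.dim)
    (hg : IsPullback g X'.str X.str (ptMap k₀ (IsScalarTower.toAlgHom k₀ k L)))
    (hK : EvenK (weil T k) X) : EvenK (weil T L) X' := by
  obtain ⟨-, ⟨-, surj⟩, hφ⟩ := Div.tBC k₀ K T E k L X X' g hd hg
  intro i hi
  obtain ⟨φ, h1, h2⟩ := hφ 0 _ (hK i hi)
  have h3 : φ = (weil T L).pi X' i := by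
    refine LinearMap.ext fun y => ?_
    obtain ⟨x, rfl⟩ := surj y
    exact (h2 x).trans (KunBCAux.pi_pull T i x).symm
  rw [← h3]
  exact h1

end desc

open RetrAux KunUAux in
/-- The even projectors of the total space. -/
theorem evenb_member {k₀ K : Type} [Field k₀] [Field K] [CharZero K] (h1 : StMemEx)
    (h2 : StGraph) (T : WeilTheory k₀ K) (E : Extra T) (k : Type) [Field k] [Algebra k₀ k]
    [IsAlgClosed k] (Φ : Fib k₀ k) (ψ₀ : PP k₀ k ⟶ PSo k₀ k (Fin 3)) (hψ : IsPsi ψ₀)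
    (a : Fin 3 → M k) (hdet : det3 a ≠ 0) (U : Var k₀ (M k)) (r : U.X ⟶ Φ.Y)
    (hU : IsMem Φ.y (Φ.ff ≫ ψ₀) a r U.str) (hK : EvenK (weil T (M k)) U) :
    EvenK (weil T k) Φ.VV := by
  have hg := IsPullback.of_hasPullback Φ.V.str
    (ptMap k₀ (IsScalarTower.toAlgHom k₀ k (M k)))
  have vX : IsVar (pullback.snd Φ.V.str (ptMap k₀ (IsScalarTower.toAlgHom k₀ k (M k)))) Φ.V.n :=
    genclass_var hg Φ.V.isVar
  let X' : Var k₀ (M k) := ⟨_, _, _, vX⟩
  obtain ⟨s, p, hsp, hs, hp, -⟩ := section_exists h1 h2 Φ ψ₀ hψ (M k) a hdet hU hg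
  have hA : AlgDesc T k (M k) := desc_alg E (Fin 2) (Q k)
  refine evenb_desc E hA (X' := X') rfl hg ?_
  exact evenb_retract (weil T (M k)) (U := U) (Z := X') (Var.Hom.mk s hs) (Var.Hom.mk p hp)
    (Var.Hom.ext hsp) hK

/-- The general statement, in the local form, for the even projectors. -/
theorem kunue_core {k₀ K : Type} [Field k₀] [Field K] [CharZero K] (h1 : StMemEx) (h2 : StMemBC)
    (h3 : StMemScale) (h4 : StUSm) (T : WeilTheory k₀ K) (E : Extra T)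
    (k : Type) [Field k] [Algebra k₀ k] [IsAlgClosed k] (Φ : Fib k₀ k)
    (ψ₀ : Two.PP k₀ k ⟶ PSo k₀ k (Fin 3)) (hψ : IsPsi ψ₀) 
    (F L : Type) [Field F] [Algebra k₀ F] [Algebra k F] [IsScalarTower k₀ k F]
    [Field L] [Algebra k₀ L] [Algebra k L] [IsScalarTower k₀ k L] [Algebra F L]
    [IsScalarTower k₀ F L] [IsScalarTower k F L] [IsAlgClosed L] (x : Fin 3 → F)
    (hx : AlgebraicIndependent k x) (U₀ : Sch k₀) (toY : U₀ ⟶ Φ.Y) (u₀ : U₀ ⟶ pt k₀ F)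
    (hM : IsMem Φ.y (Φ.ff ≫ ψ₀) x toY u₀) (U : Var k₀ L) (g : U.X ⟶ U₀)
    (hd : U.dim = Φ.V.n + Φ.m)
    (hPB : IsPullback g U.str u₀ (ptMap k₀ (IsScalarTower.toAlgHom k₀ F L))) :
    ∃ V' : ProjVar k₀ (M k), V'.n = Φ.V.n + Φ.m ∧
      (∃ r' : V'.X ⟶ Φ.Y, IsMem Φ.y (Φ.ff ≫ ψ₀) (vec k) r' V'.str) ∧
      (EvenK (weil T (M k)) (pvar V') → EvenK (weil T L) U) := by
  -- the coordinates in `L`
  have hxL : AlgebraicIndependent k (fun j => algebraMap F L (x j)) :=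
    hx.map' (f := IsScalarTower.toAlgHom k F L) (algebraMap F L).injective
  set xL : Fin 3 → L := fun j => algebraMap F L (x j) with hxLdef
  have hx0 : xL 0 ≠ 0 := hxL.ne_zero 0
  obtain ⟨φ, hφ⟩ := exists_embed k L _ (quot_ind k L xL hxL)
  let _ : Algebra (M k) L := φ.toRingHom.toAlgebra
  have t1 : IsScalarTower k (M k) L := IsScalarTower.of_algebraMap_eq fun r => (φ.commutes r).symm
  have t2 : IsScalarTower k₀ (M k) L := by
    refine IsScalarTower.of_algebraMap_eq fun r => ?_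
    rw [IsScalarTower.algebraMap_apply k₀ k L, IsScalarTower.algebraMap_apply k₀ k (M k),
      ← IsScalarTower.algebraMap_apply k (M k) L]
  have hscale : (fun j => xL 0 * algebraMap (M k) L (vec k j)) = xL := by
    funext j
    fin_cases j
    · simp [vec]
    · have : algebraMap (M k) L (bc k 0) = xL 1 / xL 0 := hφ 0
      simp only [vec, Fin.mk_one, Matrix.cons_val_one, Matrix.cons_val_zero, this]
      field_simp
    · have : algebraMap (M k) L (bc k 1) = xL 2 / xL 0 := hφ 1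
      simp only [vec, Fin.reduceFinMk, Matrix.cons_val, this]
      field_simp
  -- the member over `M`
  obtain ⟨U', r', u', hM'⟩ := h1 k₀ k (Fin 3) (M k) Φ.Y Φ.y (Φ.ff ≫ ψ₀) (ff_str Φ ψ₀ hψ) (vec k)
  have hdet : det3 (vec k) ≠ 0 := by
    have e : det3 (vec k) = bc k 0 + bc k 1 + bc k 0 * bc k 1 := by
      simp only [det3, vec, Matrix.cons_val_zero, Matrix.cons_val_one, Matrix.cons_val]
      ring
    rw [e]
    exact vec_det k
  obtain ⟨hsm, hpr⟩ := h4 k₀ k Φ ψ₀ hψ (M k) (vec k) (vec_li k) hdet U' r' u' hM'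
  -- the base change to `L`
  let pm : pt k₀ L ⟶ pt k₀ (M k) := ptMap k₀ (IsScalarTower.toAlgHom k₀ (M k) L)
  have hPB'' : IsPullback (pullback.fst u' pm) (pullback.snd u' pm) u' pm :=
    IsPullback.of_hasPullback _ _
  have hM'' := h2 k₀ k (Fin 3) (M k) L Φ.Y Φ.y (Φ.ff ≫ ψ₀) (vec k) U' r' u' _ _ _ hM' hPB''
  have hMU := h2 k₀ k (Fin 3) F L Φ.Y Φ.y (Φ.ff ≫ ψ₀) x U₀ toY u₀ _ _ _ hM hPB
  obtain ⟨e, he, he1, he2⟩ := h3 k₀ k (Fin 3) L Φ.Y Φ.y (Φ.ff ≫ ψ₀)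
    (fun j => algebraMap (M k) L (vec k j)) (xL 0) hx0 _ _ _ U.X (g ≫ toY) U.str hM'' (by
      rw [hscale]; exact hMU)
  let g' : U.X ⟶ U' := inv e ≫ pullback.fst u' pm
  have hg' : IsPullback g' U.str u' pm := by
    refine IsPullback.of_iso hPB'' (asIso e) (Iso.refl _) (Iso.refl _) (Iso.refl _) ?_ ?_ ?_ ?_
    · simp [g']
    · simp [he2]
    · simp
    · simp
  -- connectedness
  have hgl : IsPullback g'.left U.str.left u'.left pm.left := hg'.map (Over.forget _)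
  have hsurj : AlgebraicGeometry.Surjective g'.left :=
    MorphismProperty.of_isPullback hgl.flip (conn_surjective _)
  have hUc : ConnectedSpace U.X.left := by
    have h := U.isVar.connected
    have i1 : Subsingleton (pt k₀ L).left := inferInstanceAs (Subsingleton (PrimeSpectrum L))
    have i2 : Nonempty (pt k₀ L).left := inferInstanceAs (Nonempty (PrimeSpectrum L))
    exact GeometricallyConnected.connectedSpace_of_subsingleton U.str.left
  have hU'c : ConnectedSpace U'.left := hsurj.surj.connectedSpace g'.left.continuous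
  have hconn : GeometricallyConnected u'.left := fGeomConn (M k) U'.left u'.left hU'c
  -- the embedding
  obtain ⟨κ, _, _, i, eY, hPc, hPs⟩ := exists_embY Φ
  obtain ⟨em, hem1, hem2⟩ := tEmb k₀ k (M k) (IsScalarTower.toAlgHom k₀ k (M k)) κ U' u'
    (r' ≫ eY) hpr (by
      rw [Category.assoc, hPs]
      exact hM'.comm) (by
      intro S t t' e1 e2
      refine hM'.ext S t t' ?_ e1
      apply Over.OverMorphism.ext
      rw [← cancel_mono eY.left]
      have h5 := congrArg CommaMorphism.left e2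
      simpa using h5)
  let V' : ProjVar k₀ (M k) :=
    { X := U'
      str := u'
      n := Φ.V.n + Φ.m
      isVar := ⟨hsm, hpr, hconn⟩
      κ := κ
      i := i
      emb := em
      closed := hem1
      emb_str := hem2 }
  exact ⟨V', rfl, ⟨r', hM'⟩, fun hkun =>
    evenb_bc E (X := ⟨U', u', Φ.V.n + Φ.m, ⟨hsm, hpr, hconn⟩⟩) hd hg' hkun⟩

/-- The even form of `StKunUS`. -/
def StKunUE (k₀ K : Type) [Field k₀] [Field K] [CharZero K] : Prop :=
  ∀ (T : WeilTheory k₀ K), Extra T → ∀ (k : Type) [Field k] [Algebra k₀ k] [IsAlgClosed k]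
  (Φ : Fib k₀ k) (ψ₀ : Two.PP k₀ k ⟶ PSo k₀ k (Fin 3)), IsPsi ψ₀ → ∀ (U₀ : Sch k₀)
  (toY : U₀ ⟶ Φ.Y) (u₀ : U₀ ⟶ pt k₀ (P2 k₀ k).F), IsMem Φ.y (Φ.ff ≫ ψ₀)
    (fun j : Fin 3 => algebraMap (P2 k₀ k).R (P2 k₀ k).F (MvPolynomial.X j)) toY u₀ →
  ∀ (U : Var k₀ (P2 k₀ k).L) (g : U.X ⟶ U₀), U.dim = Φ.V.n + Φ.m →
  IsPullback g U.str u₀ (ptMap k₀ (IsScalarTower.toAlgHom k₀ (P2 k₀ k).F (P2 k₀ k).L)) →
  ∃ V' : ProjVar k₀ (M k), V'.n = Φ.V.n + Φ.m ∧
    (EvenK (weil T (M k)) (pvar V') →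
      EvenK (weil T (P2 k₀ k).L) U ∧ EvenK (weil T k) Φ.VV)

/-- The even form of `StRelWS`. -/
def StRelWE (k₀ K : Type) [Field k₀] [Field K] [CharZero K] : Prop :=
  ∀ (T : WeilTheory k₀ K), Extra T → ∀ (k : Type) [Field k] [Algebra k₀ k] [IsAlgClosed k]
  (Φ : Fib k₀ k), Φ.η T ∈ (weil T k).Alg Φ.VV 1 ∧ Φ.η T * Φ.η T = 0 ∧
  ∃ V' : ProjVar k₀ (M k), V'.n = Φ.V.n + Φ.m ∧
    (EvenK (weil T (M k)) (pvar V') →
      RelE (weil T k) Φ.VV (Φ.η T) ∧ EvenK (weil T k) Φ.VV)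

theorem tKunUE (k₀ K : Type) [Field k₀] [Field K] [CharZero K] (h1 : StMemEx) (h2 : StMemBC)
    (h3 : StMemScale) (h4 : StUSm) (h6 : StGraph) : StKunUE k₀ K := by
  intro T E k _ _ _ Φ ψ₀ hψ U₀ toY u₀ hM U g hd hPB
  have hx : AlgebraicIndependent k
      (fun j : Fin 3 => algebraMap (P2 k₀ k).R (P2 k₀ k).F (MvPolynomial.X j)) := by
    have h : AlgebraicIndependent k
        (MvPolynomial.X : (P2 k₀ k).κ → MvPolynomial (P2 k₀ k).κ k) :=
      MvPolynomial.algebraicIndependent_X _ k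
    exact h.map' (f := IsScalarTower.toAlgHom k (P2 k₀ k).R (P2 k₀ k).F)
      (IsFractionRing.injective _ _)
  obtain ⟨V', hn, ⟨r', hM'⟩, hV'⟩ := kunue_core h1 h2 h3 h4 T E k Φ ψ₀ hψ (P2 k₀ k).F
    (P2 k₀ k).L _ hx U₀ toY u₀ hM U g hd hPB
  have hdet : det3 (vec k) ≠ 0 := by
    have e : det3 (vec k) = bc k 0 + bc k 1 + bc k 0 * bc k 1 := by
      simp only [det3, vec, Matrix.cons_val_zero, Matrix.cons_val_one, Matrix.cons_val]
      ring
    rw [e]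
    exact vec_det k
  exact ⟨V', hn, fun hK => ⟨hV' hK, evenb_member h1 h6 T E k Φ ψ₀ hψ (vec k) hdet
    (pvar V') r' hM' hK⟩⟩

theorem tRelWE (k₀ K : Type) [Field k₀] [Field K] [CharZero K] (hv : StNetVar k₀)
    (h1 : StNetWW k₀ K) (h2 : StNetH k₀ K) (h3 : StKunUE k₀ K) :
    StRelWE k₀ K := by
  intro T hT k _ _ _ Φ
  obtain ⟨hη, hηη⟩ := relwl_η T Φ
  obtain ⟨ψ₀, hψ, U₀, toP, toY, hPB, hsm, hconn, hmem, hcls⟩ := h1 T hT k Φ
  have hN : Φ.V.n + Φ.m + 1 = Φ.V.n + Φ.V.n := by rw [Φ.dim]; omega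
  have hvar : IsVar Φ.y (Φ.V.n + Φ.m + 1) := by
    rw [hN]
    exact NetWWAux.y_var Φ
  let D : Net (P2 k₀ k) :=
    { Y := Φ.Y
      str := Φ.y
      N := Φ.V.n + Φ.m
      isVar := hvar
      ψ := Φ.ff ≫ ψ₀
      ψ_str := NetWWAux.psi_str Φ hψ
      U₀ := U₀
      toP := toP
      toY := toY
      isPB := hPB
      smooth := hsm
      conn := hconn }
  have hH := h2 hv T hT k (P2 k₀ k) D 1 rfl
  have hH' := relwl_cast T D.isVar (NetWWAux.y_var Φ) hN (weil T (P2 k₀ k).L) (D.UV hv) _ hH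
  obtain ⟨V', hV', hkun⟩ := h3 T hT k Φ ψ₀ hψ U₀ toY (toP ≫ (P2 k₀ k).y₀) hmem (D.UV hv) D.pU rfl
    D.isBC
  refine ⟨hη, hηη, V', hV', fun hk => ⟨?_, (hkun hk).2⟩⟩
  have hH2 : Nonempty (NetH (weil T k) (weil T (P2 k₀ k).L) (Φ.VV ⊗ Φ.VV) (D.UV hv)
      ((weil T k).tm (X := Φ.VV) (Y := Φ.VV) (Φ.η T) 1 +
        (weil T k).tm (X := Φ.VV) (Y := Φ.VV) 1 (Φ.η T))) := by
    rw [← hcls]
    exact hH'
  exact tNetRelE hη hηη hH2 (hkun hk).1


/-- The quasi-inverse for a fibration over the projective line, from the even projectors. -/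
def StFibE (k₀ K : Type) [Field k₀] [Field K] [CharZero K] : Prop :=
  ∀ (T : WeilTheory k₀ K), Extra T → ∀ (k : Type) [Field k] [Algebra k₀ k] [IsAlgClosed k]
  (Φ : Fib k₀ k), ∃ V' : ProjVar k₀ (M k), V'.n = Φ.V.n + Φ.m ∧
    (EvenK (weil T (M k)) (pvar V') → QInv (weil T k) Φ.VV (Φ.η T))

theorem tFibE (k₀ K : Type) [Field k₀] [Field K] [CharZero K] (h1 : StRelWE k₀ K) (h2 : StIdem) :
    StFibE k₀ K := by
  intro T E k _ _ _ Φ
  obtain ⟨ha, -, V', hV', H⟩ := h1 T E k Φ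
  refine ⟨V', hV', fun hK => ?_⟩
  obtain ⟨hR, hC⟩ := H hK
  exact tVRQE ha hC.even (tVRKE h2 ha
    (WeilCohomology.cor_le ((weil T k).sign_eps ((weil T k).sign_iff.2 hC.even))) hR)

theorem fFibE (k₀ K : Type) [Field k₀] [Field K] [CharZero K] (h1 : StPsi) (h2 : StNetSm k₀) :
    StFibE k₀ K :=
  tFibE k₀ K (tRelWE k₀ K (tNetVar k₀) (fNetWW k₀ K h1) (fNetH k₀ K h2)
    (tKunUE k₀ K tMemEx tMemBC tMemScale fGeomUSm tGraph)) tIdem

end Pool.Agent.Lib.MP_4ca46c_ag.T2
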