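import Mathlib
import Pool.Agent.Lib.MP_4ca46c_ag.T2.SpecT
import Pool.Agent.Lib.MP_4ca46c_ag.Div.Pr

/-!
# The class of a point of the projective line
-/

namespace Pool.Agent.Lib.MP_4ca46c_ag.T2

open CategoryTheory Limits AlgebraicGeometry MonoidalCategory CartesianMonoidalCategory Finset
open Pool.Agent.Lib.MP_4ca46c_ag.Sign Pool.Agent.Lib.MP_4ca46c_ag.Hyp
open Pool.Agent.Lib.MP_4ca46c_ag.Std Pool.Agent.Lib.MP_4ca46c_ag.Div

section

variable {k₀ K : Type} [Field k₀] [Field K]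

/-- The coefficient field of a Weil cohomology theory has characteristic zero. -/
theorem linecls_charZero (T : WeilTheory k₀ K) (k : Type) [Field k] [Algebra k₀ k]
    [IsAlgClosed k] : CharZero K := by
  refine charZero_of_inj_zero fun n hn => ?_
  by_contra h
  have h1 : IsUnit ((n : ℕ) : T.CH (pt k₀ k)) := by
    have h2 : IsUnit ((n : ℕ) : ℚ) := (Nat.cast_ne_zero.2 h).isUnit
    have h3 := h2.map (algebraMap ℚ (T.CH (pt k₀ k)))
    rwa [map_natCast] at h3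
  have h2 := h1.map (T.cl (pt k₀ k))
  rw [map_natCast] at h2
  have h3 : ((n : ℕ) : T.H (pt k₀ k)) = 0 := by
    rw [← map_natCast (algebraMap K (T.H (pt k₀ k))), hn, map_zero]
  rw [h3, isUnit_zero_iff] at h2
  have h4 := T.tr_pt (k := k)
  rw [← h2, map_zero] at h4
  exact zero_ne_one h4

/-- The powers `1, t'` may be replaced by `1, t`. -/
theorem linecls_span [CharZero K] {𝒱 : Type 1} [Category.{0} 𝒱] [CartesianMonoidalCategory 𝒱]
    (W : Geo.WeilCohomology K 𝒱) (X : 𝒱) {t t' : W.H X} (ht : t ∈ W.gr X 2)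
    (ht' : t' ∈ W.gr X 2) (h0 : t ≠ 0)
    (hs : ∀ v : W.H X, ∃ c : ℕ → K, v = ∑ l ∈ range (1 + 1), c l • t' ^ l) (v : W.H X) :
    ∃ c c' : K, v = c • 1 + c' • t := by
  obtain ⟨c, hc⟩ := hs t
  rw [sum_range_succ, sum_range_one, pow_zero, pow_one] at hc
  have h1 := congrArg (W.pi X 2) hc
  rw [W.pi_same ht, map_add, map_smul, map_smul, W.pi_same ht', W.pi_ne (i := 0) (j := 2)
    (SetLike.GradedOne.one_mem (A := W.gr X)) (by omega), smul_zero, zero_add] at h1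
  have h2 : c 1 ≠ 0 := by
    intro h3
    rw [h3, zero_smul] at h1
    exact h0 h1
  obtain ⟨d, hd⟩ := hs v
  rw [sum_range_succ, sum_range_one, pow_zero, pow_one] at hd
  refine ⟨d 0, d 1 * (c 1)⁻¹, ?_⟩
  rw [hd, h1, smul_smul, mul_assoc, inv_mul_cancel₀ h2, mul_one]

end

theorem tLineCls (k₀ K : Type) [Field k₀] [Field K] (h1 : StHypCls k₀ K) : StLineCls k₀ K := by
  intro T E k _ _ _ s hs hz
  have hK := linecls_charZero T k
  have vP : IsVar (s1 k₀ k) 1 := tPS k₀ k (Fin 2) 1 (Fintype.card_fin 2)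
  have vpt : IsVar (𝟙 (pt k₀ k)) 0 := Var.isVar_pt
  have hid : IsClosedImmersion (𝟙 (P1 k₀ k) : P1 k₀ k ⟶ P1 k₀ k).left := by
    rw [Over.id_left]
    infer_instance
  have e1 : T.push s 1 = hypClass T k (0 : Fin 2) := by
    have h := h1 T E k (Fin 2) 0 (![0, 1] : Fin 2 → k) (P1 k₀ k) (s1 k₀ k) 0 vP (𝟙 _)
      (Category.id_comp _) hid (pt k₀ k) (𝟙 _) s hz vpt.smooth
    rw [h, T.pull_id vP.sm]
  have e2 : T.tr (P1 k₀ k) (T.cl _ (hypClass T k (0 : Fin 2))) = 1 := by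
    have h := T.cl_push (𝟙 (pt k₀ k)) (s1 k₀ k) s hs 0 1 vpt vP 1 1
    rw [e1, mul_one, map_one (T.cl (pt k₀ k)), one_mul, map_one (T.pullH s), T.tr_pt] at h
    exact h
  refine ⟨e1, e2, ?_⟩
  obtain ⟨t', ht', hsp, -⟩ := tPr k₀ K T E k (Fin 2) 1 (Fintype.card_fin 2)
  have hm : hypClass T k (0 : Fin 2) ∈ T.codim (P1 k₀ k) 1 := by
    rw [← e1]
    exact T.push_mem (𝟙 (pt k₀ k)) (s1 k₀ k) s hs vpt.isSm vP.isSm
      (Var.isProper (⟨s, hs⟩ : (⟨pt k₀ k, 𝟙 _, 0, vpt⟩ : Var k₀ k) ⟶ pr_P k₀ k (Fin 2) 1 vP))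
      0 1 vpt.smooth vP.smooth 0 1 rfl 1 (T.one_mem _)
  have h0 : T.cl (P1 k₀ k) (hypClass T k (0 : Fin 2)) ≠ 0 := by
    intro h
    rw [h, map_zero] at e2
    exact zero_ne_one e2
  exact linecls_span (weil T k) (pr_P k₀ k (Fin 2) 1 vP) (T.cl_mem _ vP.isWeil 1 _ hm)
    (T.cl_mem _ vP.isWeil 1 _ ht') h0 hsp

end Pool.Agent.Lib.MP_4ca46c_ag.T2
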