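import Mathlib
import Pool.Agent.Lib.MP_4ca46c_ag.T2.EvenB

/-!
# Assembly: the local form and its consequences, for the even Künneth components
-/

namespace Pool.Agent.Lib.MP_4ca46c_ag.T2

open CategoryTheory Limits AlgebraicGeometry MonoidalCategory CartesianMonoidalCategory
open Pool.Agent.Lib.MP_4ca46c_ag.Sign Pool.Agent.Lib.MP_4ca46c_ag.Hyp
open Pool.Agent.Lib.MP_4ca46c_ag.Std Pool.Agent.Lib.MP_4ca46c_ag.Div
open Pool.Agent.Lib.MP_4ca46c_ag.Vtc
open Pool.Agent.Lib.MP_4ca46c_ag.Two.KunUAux (M)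

variable {k₀ K : Type} [Field k₀] [Field K]

/-- The even part of the conjecture of Künneth type: for even `i` the projector onto `H^i(V)` is
given by an algebraic correspondence. -/
def EvenKunneth (D : CohData k₀ K) (V : PrVar k₀) : Prop :=
  ∀ i, Even i → ∃ π, IsPr D V i π ∧ V.Algebraic D 0 π

variable {D : CohData k₀ K} (h : D.IsTheory) (h' : IsStandard D)

include h' in
theorem evenK_iff [CharZero K] (V : PrVar k₀) :
    EvenKunneth D V ↔ EvenK (weil (D.weil h) V.k) (vr V) := by
  constructor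
  · intro H i hi
    obtain ⟨π, h1, h2⟩ := H i hi
    rw [← (isPr_iff h V).1 h1]
    exact (alg_iff h h' V).1 h2
  · intro H i hi
    exact ⟨_, (isPr_iff h V).2 rfl, (alg_iff h h' V).2 (H i hi)⟩

include h h' in
theorem even_of_kunneth [CharZero K] (V : PrVar k₀) (H : V.KunnethConj D) : EvenKunneth D V :=
  (evenK_iff h h' V).2 (evenK_of_kunneth ((kun_iff h h' V).1 H))

include h' in
theorem loce_proj [CharZero K] (hP : StPencilAsm k₀ K) (hF : StFibE k₀ K)
    (hT : WeakT (D.weil h)) (k : Type) [Field k] [Algebra k₀ k] [IsAlgClosed k] :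
    ∀ (n : ℕ) (V : ProjVar k₀ k), V.n = n → ∃ U : ℕ → ProjVar k₀ (M k),
      (∀ i, i + 2 ≤ n → (U i).n = 2 * i + 3) ∧
      ((∀ i, i + 2 ≤ n → EvenK (weil (D.weil h) (M k)) (pvar (U i))) →
        (weil (D.weil h) k).Lefschetz (pvar V) (D.cls (V.h (D.weil h)))) := by
  have E := bridge_extra h h'
  intro n
  induction n with
  | zero =>
    intro V hV
    refine ⟨fun _ => Two.P2 k₀ (M k), fun i hi => by omega, fun _ => ?_⟩
    exact Two.tLow K (Var k₀ k) (weil (D.weil h) k) (pvar V) _ (h_alg h (ofProj V))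
      (hard h h' (ofProj V)) (by
        change V.n ≤ 1
        omega)
  | succ m ih =>
    intro V hV
    rcases Nat.eq_zero_or_pos m with rfl | hm
    · refine ⟨fun _ => Two.P2 k₀ (M k), fun i hi => by omega, fun _ => ?_⟩
      exact Two.tLow K (Var k₀ k) (weil (D.weil h) k) (pvar V) _ (h_alg h (ofProj V))
        (hard h h' (ofProj V)) (by
          change V.n ≤ 1
          omega)
    · obtain ⟨Φ, Y, P, hη, hΦ, hΦn, hY, hh⟩ := hP (D.weil h) E hT k V m hm hV
      obtain ⟨V', hV', hQ⟩ := hF (D.weil h) E k Φ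
      obtain ⟨U, hU, hUL⟩ := ih Y hY
      refine ⟨Function.update U (m - 1) V', fun i hi => ?_, fun H => ?_⟩
      · by_cases h1 : i = m - 1
        · subst h1
          rw [Function.update_self, hV', hΦ, hΦn]
          omega
        · rw [Function.update_of_ne h1]
          exact hU i (by omega)
      · have h1 : EvenK (weil (D.weil h) (M k)) (pvar V') := by
          have := H (m - 1) (by omega)
          rwa [Function.update_self] at this
        have h2 : (weil (D.weil h) k).Lefschetz (pvar Y) (D.cls (Y.h (D.weil h))) := by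
          refine hUL fun i hi => ?_
          have := H i (by omega)
          rwa [Function.update_of_ne (by omega)] at this
        refine fLefUp K (Var k₀ k) (weil (D.weil h) k) (pvar V) (pvar Y) Φ.VV _ P ?_ ?_
        · rw [hη]
          exact hQ h1
        · have e : (weil (D.weil h) k).Lefschetz (pvar Y)
              ((weil (D.weil h) k).pull P.i ((D.weil h).cl V.X (V.h (D.weil h)))) := by
            rw [hh]
            exact h2
          exact e

include h h' in
/-- **The local form.** -/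
theorem loce_main [CharZero K] (hP : StPencilAsm k₀ K) (hF : StFibE k₀ K)
    (hW : WeakLefschetz D) (V : PrVar k₀) : ∃ U : ℕ → PrVar k₀,
      (∀ i, i + 2 ≤ V.n → (U i).IsOver (M V.k) ∧ (U i).n = 2 * i + 3) ∧
      ((∀ i, i + 2 ≤ V.n → EvenKunneth D (U i)) → V.LefschetzConj D) := by
  obtain ⟨U, h1, h2⟩ := loce_proj h h' hP hF (loc_weakT h hW) V.k V.n V.toProj rfl
  refine ⟨fun i => ofProj (U i), fun i hi => ⟨⟨AlgEquiv.refl⟩, h1 i hi⟩, fun H => ?_⟩
  rw [lef_iff h h']
  exact h2 fun i hi => (evenK_iff h h' (ofProj (U i))).1 (H i hi)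

include h h' in
/-- **Finite transcendence degree.** -/
theorem loce_fin [CharZero K] (hP : StPencilAsm k₀ K) (hF : StFibE k₀ K)
    (hW : WeakLefschetz D) (n : ℕ)
    (H : ∀ U : PrVar k₀, Algebra.trdeg k₀ U.k = n → EvenKunneth D U) (V : PrVar k₀) (r : ℕ)
    (hV : Algebra.trdeg k₀ V.k = r) (hr : r + 2 ≤ n) : V.LefschetzConj D := by
  obtain ⟨V', h1, -, -, h2⟩ := Two.exists_pbc h h' V (n - 2 - r)
  refine h2 ?_
  obtain ⟨U, hU, hUL⟩ := loce_main h h' hP hF hW V'
  refine hUL fun i hi => H _ ?_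
  obtain ⟨⟨e⟩, -⟩ := hU i hi
  rw [e.trdeg_eq, loc_trdeg, h1, hV]
  norm_cast
  omega

include h h' in
/-- **The equivalence.** -/
theorem loce_tfae [IsAlgClosed k₀] (hF' : HasFamilies D) (hM : HasModels k₀)
    (hP : StPencilAsm k₀ K) (hF : ∀ [CharZero K], StFibE k₀ K) (hW : WeakLefschetz D) (n : ℕ)
    (hn : 2 ≤ n) :
    [∀ V : PrVar k₀, V.KunnethConj D, ∀ V : PrVar k₀, V.LefschetzConj D,
      ∀ V : PrVar k₀, Algebra.trdeg k₀ V.k = n → EvenKunneth D V].TFAE := by
  have := char_zero h h'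
  have h1 := final_tfae h h' hF' hM
  tfae_have 1 ↔ 2 := h1.out 0 1
  tfae_have 1 → 3 := fun H V _ => even_of_kunneth h h' V (H V)
  tfae_have 3 → 2 := fun H => (h1.out 2 1).1 fun V hV =>
    loce_fin h h' hP hF hW n H V 0 (by rw [Nat.cast_zero]; exact Vtc.IsOver.trdeg hV) (by omega)
  tfae_finish

end Pool.Agent.Lib.MP_4ca46c_ag.T2
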