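import Pool.Agent.Lib.MP_4ca46c_ag.Two.NetSm
import Pool.Agent.Lib.MP_4ca46c_ag.T2.AffZero
import Pool.Agent.Lib.MP_4ca46c_ag.T2.Asm
import Pool.Agent.Lib.MP_4ca46c_ag.T2.BertOpen
import Pool.Agent.Lib.MP_4ca46c_ag.T2.HypCls
import Pool.Agent.Lib.MP_4ca46c_ag.T2.LineCls
import Pool.Agent.Lib.MP_4ca46c_ag.T2.LocE
import Pool.Agent.Lib.MP_4ca46c_ag.T2.Meets
import Pool.Agent.Lib.MP_4ca46c_ag.T2.PenT
import Pool.Agent.Lib.MP_4ca46c_ag.T2.PencilG
import Pool.Agent.Lib.MP_4ca46c_ag.T2.RatPts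
import Pool.Agent.Lib.MP_4ca46c_ag.T2.Section
import Pool.Agent.Lib.MP_4ca46c_ag.T2.SegCls
import Pool.Agent.Lib.MP_4ca46c_ag.T2.Zero

/-!
# Two parameters: the theorems put together
-/

set_option autoImplicit false

namespace Pool.Agent.Lib.MP_4ca46c_ag.T2

open CategoryTheory Limits AlgebraicGeometry
open Pool.Agent.Lib.MP_4ca46c_ag.Sign Pool.Agent.Lib.MP_4ca46c_ag.Hyp
open Pool.Agent.Lib.MP_4ca46c_ag.Std Pool.Agent.Lib.MP_4ca46c_ag.Div
open Pool.Agent.Lib.MP_4ca46c_ag.Vtc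

section

variable (k₀ K : Type) [Field k₀] [Field K]

theorem fin_fibE [CharZero K] (hPsi : Two.StPsi) : StFibE k₀ K :=
  fFibE k₀ K hPsi (Two.tNetSm k₀ (Two.tNetVar k₀))

theorem fin_pencil (hC : StHypConn) : StPencilAsm k₀ K :=
  tPencilAsm k₀ K (tPencil tZeroEx tZeroB tZeroY tBertOpen) tRatPts (tMeets tAffZero)
    (tSection tZeroEx tZeroY tAffZero (tMeets tAffZero))
    (tPenT k₀ K (tHypCls k₀ K) (tSegCls k₀ K) (tLineCls k₀ K (tHypCls k₀ K)) tAffZero) hC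

end

variable {k₀ K : Type} [Field k₀] [Field K] {D : CohData k₀ K} (h : D.IsTheory)
  (h' : IsStandard D) (hW : WeakLefschetz D)

include h h' hW

theorem final_loc (hPsi : Two.StPsi) (hC : StHypConn) (V : PrVar k₀) :
    ∃ U : Fin (V.n - 1) → PrVar k₀,
      (∀ j, (U j).IsOver (AlgebraicClosure (FractionRing (MvPolynomial (Fin 2) V.k))) ∧
        (U j).n = 2 * j + 3) ∧ ((∀ j, EvenKunneth D (U j)) → V.LefschetzConj D) := by
  have := char_zero h h'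
  obtain ⟨U, h1, h2⟩ := loce_main h h' (fin_pencil k₀ K hC) (fin_fibE k₀ K hPsi) hW V
  refine ⟨fun j => U j, fun j => h1 j (by omega), fun H => h2 fun j hj => ?_⟩
  exact H ⟨j, by omega⟩

theorem final_fin (hPsi : Two.StPsi) (hC : StHypConn) (r n : ℕ) (hr : r + 2 ≤ n)
    (H : ∀ U : PrVar k₀, Algebra.trdeg k₀ U.k = n → EvenKunneth D U)
    (V : PrVar k₀) (hV : Algebra.trdeg k₀ V.k = r) : V.LefschetzConj D := by
  have := char_zero h h'
  exact loce_fin h h' (fin_pencil k₀ K hC) (fin_fibE k₀ K hPsi) hW n H V r hV hr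

theorem final_eq [IsAlgClosed k₀] (hPsi : Two.StPsi) (hC : StHypConn) (hF : HasFamilies D)
    (hM : HasModels k₀) (n : ℕ) (hn : 2 ≤ n) :
    [∀ V : PrVar k₀, V.KunnethConj D, ∀ V : PrVar k₀, V.LefschetzConj D,
      ∀ V : PrVar k₀, V.IsOver k₀ → V.LefschetzConj D,
      ∀ V : PrVar k₀, Algebra.trdeg k₀ V.k = n → EvenKunneth D V].TFAE := by
  have h1 := final_tfae h h' hF hM
  have h2 := loce_tfae h h' hF hM (fin_pencil k₀ K hC) (fin_fibE k₀ K hPsi) hW n hn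
  tfae_have 1 ↔ 2 := h1.out 0 1
  tfae_have 2 ↔ 3 := h1.out 1 2
  tfae_have 1 ↔ 4 := h2.out 0 2
  tfae_finish

end Pool.Agent.Lib.MP_4ca46c_ag.T2
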