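import Pool.Agent.Lib.MP_4ca46c_ag.T2.SpecA
import Pool.Agent.Lib.MP_4ca46c_ag.Sign.OpV
import Pool.Agent.Lib.MP_4ca46c_ag.Sign.Span
import Pool.Agent.Lib.MP_4ca46c_ag.Geo.Lef

/-!
# From the relation on `X × X` to `η g η = η`
-/

namespace Pool.Agent.Lib.MP_4ca46c_ag.T2

open CategoryTheory Limits AlgebraicGeometry MonoidalCategory CartesianMonoidalCategory Finset
  TensorProduct
open Pool.Agent.Lib.MP_4ca46c_ag.Sign Pool.Agent.Lib.MP_4ca46c_ag.Hyp
open Pool.Agent.Lib.MP_4ca46c_ag.Std Pool.Agent.Lib.MP_4ca46c_ag.Div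

/-- the square of `η ⊗ 1 + 1 ⊗ η` -/
theorem ege_sq {K V : Type} [Field K] [AddCommGroup V] [Module K V] {e : Module.End K V}
    (he : e * e = 0) (z : V ⊗[K] V) : LL e (LL e z) = (2 : K) • TensorProduct.map e e z := by
  have h0 : ∀ x, e (e x) = 0 := fun x => by rw [← Module.End.mul_apply, he]; rfl
  induction z using TensorProduct.induction_on with
  | zero => simp
  | tmul x y =>
    simp only [LL, LinearMap.add_apply, TensorProduct.map_tmul, map_add, Module.End.one_apply, h0,
      TensorProduct.zero_tmul, TensorProduct.tmul_zero]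
    rw [two_smul]
    abel
  | add x y hx hy => rw [map_add, map_add, hx, hy, map_add, smul_add]

section Abstract

variable {K : Type} [Field K] [CharZero K] {𝒱 : Type 1} [Category.{0} 𝒱]
  [CartesianMonoidalCategory 𝒱] (W : Geo.WeilCohomology K 𝒱)

/-- the sign operator -/
theorem ege_sgn {X : 𝒱} (he : W.even X ∈ W.Cor X X 0) :
    sgn (W.dim X) (opv_pr W X) ∈ W.Cor X X 0 := by
  rw [opv_sgn, W.eps_eq]
  refine AddSubgroup.sub_mem _ ?_ (W.cor_id X)
  have h := W.cor_rat he 2
  rwa [Rat.cast_ofNat] at h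

/-- the projectors -/
theorem ege_pr {X : 𝒱} (c : ℤ) (z : W.H X ⊗[K] W.H X) :
    W.kun X X (prT (W.dim X) (opv_pr W X) c z) = opv_pr W (X ⊗ X) c (W.kun X X z) := by
  rw [← opv_prT, LinearEquiv.conj_apply_apply, LinearEquiv.symm_apply_apply]

/-- the relation -/
theorem ege_rel {X : 𝒱} {η : W.H X} (hη : η ∈ W.Alg X 1) (h0 : η * η = 0)
    (hN : ∀ m, NetRel W (X ⊗ X) (W.tm η 1 + W.tm 1 η) m) (c : ℤ) :
    ∃ w : Module.End K (W.H X ⊗[K] W.H X), (W.kun X X).conj w ∈ W.Cor (X ⊗ X) (X ⊗ X) (-1) ∧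
      (TensorProduct.map (LinearMap.mulLeft K η : Module.End K (W.H X)) (LinearMap.mulLeft K η) *
          w * LL (LinearMap.mulLeft K η) -
        LL (LinearMap.mulLeft K η) * w *
          TensorProduct.map (LinearMap.mulLeft K η) (LinearMap.mulLeft K η)) *
          prT (W.dim X) (opv_pr W X) c =
        TensorProduct.map (LinearMap.mulLeft K η) (LinearMap.mulLeft K η) *
          prT (W.dim X) (opv_pr W X) c := by
  by_cases hc : c < 0
  · refine ⟨0, ?_, ?_⟩
    · rw [map_zero]
      exact AddSubgroup.zero_mem _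
    · have h1 : prT (W.dim X) (opv_pr W X) c = 0 := by
        refine LinearMap.ext fun z => (W.kun X X).injective ?_
        rw [ege_pr, opv_out W c (Or.inl hc), LinearMap.zero_apply, LinearMap.zero_apply, map_zero]
      rw [h1, mul_zero, mul_zero]
  · obtain ⟨m, rfl⟩ := Int.eq_ofNat_of_zero_le (not_lt.1 hc)
    obtain ⟨w', hw', hrel⟩ := hN m
    have hconj : (W.kun X X).conj ((W.kun X X).symm.conj w') = w' := by
      refine LinearMap.ext fun z => ?_
      rw [LinearEquiv.conj_apply_apply, LinearEquiv.conj_apply_apply, LinearEquiv.symm_symm,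
        LinearEquiv.apply_symm_apply, LinearEquiv.apply_symm_apply]
    refine ⟨(W.kun X X).symm.conj w', by rw [hconj]; exact hw', ?_⟩
    set w := (W.kun X X).symm.conj w' with hw
    have hTw : ∀ u, W.kun X X (w u) = w' (W.kun X X u) := by
      intro u
      rw [hw, LinearEquiv.conj_apply_apply, LinearEquiv.symm_symm, LinearEquiv.apply_symm_apply]
    have hee : (LinearMap.mulLeft K η : Module.End K (W.H X)) * LinearMap.mulLeft K η = 0 := by
      refine LinearMap.ext fun x => ?_
      change η * (η * x) = 0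
      rw [← mul_assoc, h0, zero_mul]
    have hD : ∀ u, W.kun X X (LL (LinearMap.mulLeft K η : Module.End K (W.H X)) u) =
        (W.tm η 1 + W.tm 1 η) * W.kun X X u := fun u => Geo.kun_LL hη u
    refine LinearMap.ext fun z => ?_
    generalize hy : prT (W.dim X) (opv_pr W X) (m : ℤ) z = y
    have hgr : W.kun X X y ∈ W.gr (X ⊗ X) m := by
      rw [← hy, ege_pr, opv_nat]
      exact W.pi_mem _ _
    have h1 := hrel _ hgr
    rw [← hD, ← hD, ← hTw, ← hTw, ← hD, ← hD, ← hD, ← map_sub] at h1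
    have h2 := (W.kun X X).injective h1
    rw [ege_sq hee, ege_sq hee, map_smul, map_smul, ← smul_sub] at h2
    have h3 := smul_right_injective _ (two_ne_zero (α := K)) h2
    change TensorProduct.map (LinearMap.mulLeft K η : Module.End K (W.H X))
        (LinearMap.mulLeft K η) (w (LL (LinearMap.mulLeft K η)
          (prT (W.dim X) (opv_pr W X) (m : ℤ) z))) -
        LL (LinearMap.mulLeft K η) (w (TensorProduct.map (LinearMap.mulLeft K η)
          (LinearMap.mulLeft K η) (prT (W.dim X) (opv_pr W X) (m : ℤ) z))) =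
        TensorProduct.map (LinearMap.mulLeft K η) (LinearMap.mulLeft K η)
          (prT (W.dim X) (opv_pr W X) (m : ℤ) z)
    rw [hy]
    exact h3.symm

end Abstract

theorem tEGE (h : StVR) : StEGE := by
  intro K _ _ 𝒱 _ _ W X h₀ η hh hHL heven hη h0 hN
  obtain ⟨G, Z, hpr, hG, hZ, hS⟩ := tSpan K (W.H X) _ _ _ _ _
    (opv_data W hh hHL.1 hHL.2) (ege_sgn W heven)
  have hee : (LinearMap.mulLeft K η : Module.End K (W.H X)) * LinearMap.mulLeft K η = 0 := by
    refine LinearMap.ext fun x => ?_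
    change η * (η * x) = 0
    rw [← mul_assoc, h0, zero_mul]
  obtain ⟨g, hg, hge⟩ := h K (W.H X) G Z (W.dim X) (LinearMap.mulLeft K h₀)
    (LinearMap.mulLeft K η) hS (by
      rw [hG]
      exact Submodule.subset_span (W.cor_mul hη)) hee (fun c => by
      obtain ⟨w, hw, hr⟩ := ege_rel W hη h0 hN c
      refine ⟨w, ?_, ?_⟩
      · rw [hZ]
        exact Submodule.subset_span hw
      · rw [hS.prZ, hpr]
        exact hr)
  rw [hG] at hg
  refine ⟨g, hg, fun x => ?_⟩
  exact LinearMap.congr_fun hge x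

end Pool.Agent.Lib.MP_4ca46c_ag.T2
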