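import Pool.Agent.Lib.MP_4ca46c_ag.T2.SpecA

/-!
# A common left inverse of the square of the hyperplane class
-/

set_option linter.all false

namespace Pool.Agent.Lib.MP_4ca46c_ag.T2

open CategoryTheory Limits AlgebraicGeometry MonoidalCategory CartesianMonoidalCategory Finset
  TensorProduct
open Pool.Agent.Lib.MP_4ca46c_ag.Sign Pool.Agent.Lib.MP_4ca46c_ag.Hyp
open Pool.Agent.Lib.MP_4ca46c_ag.Std Pool.Agent.Lib.MP_4ca46c_ag.Div

section

variable {K : Type} [Field K] [CharZero K] {𝒱 : Type 1} [Category.{0} 𝒱]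
  [CartesianMonoidalCategory 𝒱] (W : Geo.WeilCohomology K 𝒱)

/-- Hard Lefschetz in the form used for the Künneth projectors. -/
theorem lam2_bij {V : 𝒱} {h : W.H V} (hh : h ∈ W.Alg V 1) (hL : HL W V h) :
    ∀ i j : ℕ, i + j = W.dim V →
      Set.BijOn (fun x => h ^ j * x) (W.gr V i) (W.gr V (i + 2 * j)) := by
  intro i j hij
  have hi : i = W.dim V - j := by omega
  have hj : j ≤ W.dim V := by omega
  have h2 : h ∈ W.gr V 2 := W.alg_gr hh
  refine ⟨fun x hx => W.pow_gr h2 j hx, ?_, ?_⟩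
  · intro x hx y hy hxy
    have h3 : h ^ j * (x - y) = 0 := by
      have h4 : h ^ j * x = h ^ j * y := hxy
      rw [mul_sub, h4, sub_self]
    have h4 : x - y ∈ W.gr V (W.dim V - j) := by
      rw [← hi]
      exact Submodule.sub_mem _ hx hy
    exact sub_eq_zero.1 (hL.1 j hj _ h4 h3)
  · intro v hv
    have h3 : v ∈ W.gr V (W.dim V + j) := by
      have e : W.dim V + j = i + 2 * j := by omega
      rw [e]
      exact hv
    obtain ⟨u, hu, huv⟩ := hL.2 j hj v h3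
    rw [← hi] at hu
    exact ⟨u, hu, huv⟩

theorem lam2_pow {V : 𝒱} {h : W.H V} (hh : h ∈ W.Alg V 1) (j : ℕ) : h ^ j ∈ W.Alg V j := by
  induction j with
  | zero => rw [pow_zero]; exact W.alg_one V
  | succ j ih => rw [pow_succ]; exact W.alg_mul ih hh

theorem lam2_main (V : 𝒱) (h : W.H V) (hh : h ∈ W.Alg V 1) (hL : HL W V h)
    (H : W.Lefschetz V h) : ∃ Λ2 ∈ W.Cor V V (-2), ∀ a, a + 2 ≤ W.dim V →
      ∀ x ∈ W.gr V a, Λ2 (h ^ 2 * x) = x := by
  classical
  have hK : W.Kunneth V := Geo.WeilCohomology.Lefschetz.kunneth hh (lam2_bij W hh hL) H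
  rw [W.kunneth_iff] at hK
  rw [W.lefschetz_iff] at H
  have H' : ∀ a : ℕ, ∃ θ : W.H V →ₗ[K] W.H V, a ≤ W.dim V →
      θ ∈ W.Cor V V (-((W.dim V - a : ℕ) : ℤ)) ∧
      ∀ x ∈ W.gr V a, θ (h ^ (W.dim V - a) * x) = x := by
    intro a
    by_cases ha : a ≤ W.dim V
    · obtain ⟨θ, h1, h2⟩ := H a (W.dim V - a) (by omega)
      exact ⟨θ, fun _ => ⟨h1, h2⟩⟩
    · exact ⟨0, fun h => absurd h ha⟩
  choose θ hθ using H'
  refine ⟨∑ a ∈ Finset.range (W.dim V - 1),
    θ a ∘ₗ LinearMap.mulLeft K (h ^ (W.dim V - a - 2)) ∘ₗ W.pi V (a + 4), ?_, ?_⟩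
  · refine AddSubgroup.sum_mem _ fun a ha => ?_
    have ha' := Finset.mem_range.1 ha
    have h1 := W.cor_comp (hθ a (by omega)).1
      (W.cor_comp (W.cor_mul (lam2_pow W hh (W.dim V - a - 2))) (hK (a + 4)))
    have e : -((W.dim V - a : ℕ) : ℤ) + (((W.dim V - a - 2 : ℕ) : ℤ) + 0) = -2 := by omega
    rw [e] at h1
    exact h1
  · intro a ha x hx
    have hx2 : h ^ 2 * x ∈ W.gr V (a + 2 * 2) := W.pow_gr (W.alg_gr hh) 2 hx
    rw [LinearMap.sum_apply, Finset.sum_eq_single_of_mem a (Finset.mem_range.2 (by omega))]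
    · rw [LinearMap.comp_apply, LinearMap.comp_apply, W.pi_same hx2, LinearMap.mulLeft_apply,
        ← mul_assoc, ← pow_add]
      have e : W.dim V - a - 2 + 2 = W.dim V - a := by omega
      rw [e]
      exact (hθ a (by omega)).2 x hx
    · intro b _ hb
      rw [LinearMap.comp_apply, LinearMap.comp_apply, W.pi_ne hx2 (by omega), map_zero, map_zero]

end

theorem tLam2 : StLam2 := by
  intro K _ _ 𝒱 _ _ W V h hh hL H
  exact lam2_main W V h hh hL H

end Pool.Agent.Lib.MP_4ca46c_ag.T2
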