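import Pool.Agent.Lib.MP_4ca46c_ag.T2.SpecA

/-!
# The Lefschetz conjecture from a pencil
-/

set_option linter.all false

namespace Pool.Agent.Lib.MP_4ca46c_ag.T2

open CategoryTheory Limits AlgebraicGeometry MonoidalCategory CartesianMonoidalCategory Finset
  TensorProduct
open Pool.Agent.Lib.MP_4ca46c_ag.Sign Pool.Agent.Lib.MP_4ca46c_ag.Hyp
open Pool.Agent.Lib.MP_4ca46c_ag.Std Pool.Agent.Lib.MP_4ca46c_ag.Div

section

variable {K : Type} [Field K] [CharZero K] {𝒱 : Type 1} [Category.{0} 𝒱]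
  [CartesianMonoidalCategory 𝒱] (W : Geo.WeilCohomology K 𝒱) {X Y Z : 𝒱}

theorem pen_central {h : W.H X} (hh : h ∈ W.Alg X 1) (z : W.H X) : h * z = z * h := by
  refine W.ind (P := fun z => h * z = z * h) z (by simp) (fun i y hy => ?_)
    (fun r s hr hs => by simp only [mul_add, add_mul, hr, hs])
  rw [W.comm (W.alg_gr hh) hy, Even.neg_one_pow (by simp), one_mul]

theorem pen_push_comp (f : X ⟶ Y) (g : Y ⟶ Z) (x : W.H X) :
    W.push (f ≫ g) x = W.push g (W.push f x) := by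
  refine W.push_eq _ _ _ fun z => ?_
  rw [W.push_spec, W.push_spec, W.pull_comp]

theorem pen_proj (f : X ⟶ Y) (x : W.H X) (y : W.H Y) :
    W.push f (x * W.pull f y) = W.push f x * y := by
  refine W.push_eq _ _ _ fun z => ?_
  rw [mul_assoc, W.push_spec, map_mul (W.pull f), mul_assoc]

theorem pen_proj_one (f : X ⟶ Y) (y : W.H Y) : W.push f (W.pull f y) = W.push f 1 * y := by
  rw [← pen_proj, one_mul]

/-- The push-forward on the right. -/
theorem pen_tr (f : X ⟶ Y) (x : W.H Y) (v : W.H X) :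
    W.tr Y (x * W.push f v) = W.tr X (W.pull f x * v) := by
  refine W.ind (P := fun x => W.tr Y (x * W.push f v) = W.tr X (W.pull f x * v)) x (by simp)
    (fun d x hx => ?_) (fun r s hr hs => by simp only [map_add, add_mul, hr, hs])
  refine W.ind (P := fun v => W.tr Y (x * W.push f v) = W.tr X (W.pull f x * v)) v (by simp)
    (fun m v hv => ?_) (fun r s hr hs => by simp only [map_add, mul_add, hr, hs])
  have h1 : W.tr X (W.pull f x * v) = (-1) ^ (d * m) * W.tr Y (W.push f v * x) := by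
    rw [W.tr_comm (W.pull_gr f hx) hv, W.push_spec]
  rw [h1]
  by_cases hm : (m : ℤ) + 2 * ((W.dim Y : ℤ) - W.dim X) < 0
  · rw [W.cor_gr_zero (W.cor_push f) hv hm, zero_mul, mul_zero, map_zero, mul_zero]
  · obtain ⟨m', hm'⟩ := Int.eq_ofNat_of_zero_le (not_lt.1 hm)
    have h2 : W.push f v ∈ W.gr Y m' := W.cor_gr (W.cor_push f) hv hm'.symm
    rw [W.tr_comm hx h2]
    have h3 : Even (d * m' + d * m) := by
      have h5 : Even ((d : ℤ) * m' + d * m) := by
        have h4 : (m' : ℤ) = m + 2 * ((W.dim Y : ℤ) - W.dim X) := hm'.symm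
        exact ⟨d * (m + ((W.dim Y : ℤ) - W.dim X)), by rw [h4]; ring⟩
      exact_mod_cast h5
    have h4 : ((-1 : K)) ^ (d * m') = (-1) ^ (d * m) := by
      have h5 : ((-1 : K)) ^ (d * m') * (-1) ^ (d * m) = 1 := by
        rw [← pow_add, h3.neg_one_pow]
      have h6 : ((-1 : K)) ^ (d * m) * (-1) ^ (d * m) = 1 := by
        rw [← pow_add, Even.neg_one_pow ⟨d * m, rfl⟩]
      have h7 : ((-1 : K)) ^ (d * m) ≠ 0 := pow_ne_zero _ (neg_ne_zero.2 one_ne_zero)
      exact mul_right_cancel₀ h7 (h5.trans h6.symm)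
    rw [h4]

theorem pen_sc {r : ℤ} {f : W.H Y →ₗ[K] W.H X} (hf : f ∈ W.Cor X Y r) : f ∈ SC W X Y r :=
  Submodule.subset_span hf

theorem pen_sc_cast {r s : ℤ} {f : W.H Y →ₗ[K] W.H X} (hf : f ∈ SC W X Y r) (h : r = s) :
    f ∈ SC W X Y s := h ▸ hf

theorem pen_comp {r s : ℤ} {f : W.H Y →ₗ[K] W.H X} (hf : f ∈ SC W X Y r)
    {g : W.H Z →ₗ[K] W.H Y} (hg : g ∈ SC W Y Z s) : f ∘ₗ g ∈ SC W X Z (r + s) := by
  unfold SC at hf
  induction hf using Submodule.span_induction with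
  | mem f hf =>
    unfold SC at hg
    induction hg using Submodule.span_induction with
    | mem g hg => exact pen_sc W (W.cor_comp hf hg)
    | zero => rw [LinearMap.comp_zero]; exact Submodule.zero_mem _
    | add a b _ _ ha hb => rw [LinearMap.comp_add]; exact Submodule.add_mem _ ha hb
    | smul c a _ ha => rw [LinearMap.comp_smul]; exact Submodule.smul_mem _ c ha
  | zero => rw [LinearMap.zero_comp]; exact Submodule.zero_mem _
  | add a b _ _ ha hb => rw [LinearMap.add_comp]; exact Submodule.add_mem _ ha hb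
  | smul c a _ ha => rw [LinearMap.smul_comp]; exact Submodule.smul_mem _ c ha

theorem pen_gr {r : ℤ} {f : W.H Y →ₗ[K] W.H X} (hf : f ∈ SC W X Y r) {i m : ℕ} {y : W.H Y}
    (hy : y ∈ W.gr Y i) (hm : (m : ℤ) = i + 2 * r) : f y ∈ W.gr X m := by
  unfold SC at hf
  induction hf using Submodule.span_induction with
  | mem f hf => exact W.cor_gr hf hy hm
  | zero => exact Submodule.zero_mem _
  | add a b _ _ ha hb => exact Submodule.add_mem _ ha hb
  | smul c a _ ha => exact Submodule.smul_mem _ c ha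

theorem pen_trp (hT : StTrp2) {r : ℤ} {f : W.H Y →ₗ[K] W.H X} (hf : f ∈ SC W X Y r) :
    ∃ f' ∈ SC W Y X (r + W.dim Y - W.dim X), ∀ x y, W.tr Y (f' x * y) = W.tr X (x * f y) := by
  unfold SC at hf
  induction hf using Submodule.span_induction with
  | mem f hf =>
    obtain ⟨f', h1, h2⟩ := hT K 𝒱 W X Y r f hf
    exact ⟨f', pen_sc W h1, h2⟩
  | zero => exact ⟨0, Submodule.zero_mem _, fun x y => by
      rw [LinearMap.zero_apply, LinearMap.zero_apply, zero_mul, mul_zero, map_zero, map_zero]⟩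
  | add a b _ _ ha hb =>
    obtain ⟨a', ha1, ha2⟩ := ha
    obtain ⟨b', hb1, hb2⟩ := hb
    exact ⟨a' + b', Submodule.add_mem _ ha1 hb1, fun x y => by
      rw [LinearMap.add_apply, LinearMap.add_apply, add_mul, mul_add, map_add, map_add, ha2, hb2]⟩
  | smul c a _ ha =>
    obtain ⟨a', ha1, ha2⟩ := ha
    exact ⟨c • a', Submodule.smul_mem _ c ha1, fun x y => by
      rw [LinearMap.smul_apply, LinearMap.smul_apply, smul_mul_assoc, mul_smul_comm, map_smul,
        map_smul, ha2]⟩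

end

section

variable {K : Type} [Field K] [CharZero K] {𝒱 : Type 1} [Category.{0} 𝒱]
  [CartesianMonoidalCategory 𝒱] {W : Geo.WeilCohomology K 𝒱} {X Y V : 𝒱} {p : Y ⟶ X}
  {ι : V ⟶ Y} {h : W.H X} {η : W.H Y} {q : ℚ} (P : Pencil W X Y V p ι h η q)

include P

theorem pen_ii (x : W.H X) : W.push (ι ≫ p) (W.pull (ι ≫ p) x) = h * x := by
  rw [pen_proj_one, pen_push_comp, P.push_ι, P.push_η]

theorem pen_ιι (y : W.H Y) : W.push ι (W.pull ι y) = η * y := by
  rw [pen_proj_one, P.push_ι]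

theorem pen_pp (x : W.H X) : W.push p (W.pull p x) = (q : K) • x := by
  rw [pen_proj_one, P.push_one, smul_mul_assoc, one_mul]

theorem pen_pη (x : W.H X) : W.push p (η * W.pull p x) = h * x := by
  rw [pen_proj, P.push_η]

/-- Step (1). -/
theorem pen_one (hn : 2 ≤ W.dim X) {m : ℕ} (hm : m + 1 ≤ W.dim X) {v : W.H V}
    (hv : v ∈ W.gr V m) : ∃ x ∈ W.gr X m, W.push ι v = η * W.pull p x := by
  have hdV := P.dimV
  have hdY := P.dimY
  rcases Nat.lt_or_ge m (W.dim V) with hmV | hmV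
  · obtain ⟨x, hx, hxv⟩ := P.spanV m hmV v hv
    refine ⟨x, hx, ?_⟩
    rw [← hxv, W.pull_comp, pen_ιι P]
  · have hmn : m = W.dim V := by omega
    have h1 : W.push (ι ≫ p) v ∈ W.gr X (W.dim X + 1) :=
      W.cor_gr (W.cor_push (ι ≫ p)) hv (by omega)
    obtain ⟨x, hx, hxv⟩ := P.hard.2 1 (by omega) _ h1
    rw [pow_one] at hxv
    have hx' : x ∈ W.gr X m := by
      have e : W.dim X - 1 = m := by omega
      rwa [e] at hx
    refine ⟨x, hx', ?_⟩
    have h2 : W.push (ι ≫ p) (v - W.pull (ι ≫ p) x) = 0 := by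
      rw [map_sub, pen_ii P, hxv, sub_self]
    have hv' : v - W.pull (ι ≫ p) x ∈ W.gr V m := Submodule.sub_mem _ hv (W.pull_gr _ hx')
    have h3 : W.push ι (v - W.pull (ι ≫ p) x) = 0 := by
      have h4 : W.push ι (v - W.pull (ι ≫ p) x) ∈ W.gr Y (W.dim X + 1) :=
        W.cor_gr (W.cor_push ι) hv' (by omega)
      refine W.duality _ fun w => ?_
      refine W.ind (P := fun w => W.tr Y (W.push ι (v - W.pull (ι ≫ p) x) * w) = 0) w (by simp)
        (fun k w hw => ?_) (fun r s hr hs => by simp only [mul_add, map_add, hr, hs, add_zero])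
      by_cases hk : k + 1 = W.dim X
      · obtain ⟨a, ha, b, _, _, rfl⟩ := P.spanY k (by omega) w hw
        rw [W.push_spec, map_add (W.pull ι), map_mul (W.pull ι), P.pull_η, zero_mul, add_zero,
          ← W.pull_comp, ← W.push_spec, h2, zero_mul, map_zero]
      · exact W.tr_gr (SetLike.mul_mem_graded h4 hw) (by omega)
    have h5 : W.push ι v = W.push ι (W.pull (ι ≫ p) x) := by
      rw [map_sub] at h3
      exact sub_eq_zero.1 h3
    rw [h5, W.pull_comp, pen_ιι P]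

/-- Step (3). -/
theorem pen_three (hn : 2 ≤ W.dim X) {g : W.H Y →ₗ[K] W.H Y} (hg : g ∈ SC W Y Y (-1))
    (hgη : ∀ y, η * g (η * y) = η * y) {Λ2 : W.H V →ₗ[K] W.H V} (hΛ : Λ2 ∈ W.Cor V V (-2))
    (hΛ2 : ∀ a, a + 2 ≤ W.dim V → ∀ x ∈ W.gr V a,
      Λ2 ((W.pull (ι ≫ p) h) ^ 2 * x) = x) :
    ∃ s ∈ SC W X V 0, ∀ m, m + 1 ≤ W.dim X → ∀ v ∈ W.gr V m,
      h * s v = W.push (ι ≫ p) v := by
  have hdV := P.dimV
  have hdY := P.dimY
  have hιs : W.push ι ∈ SC W Y V 1 := by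
    have h1 := pen_sc W (W.cor_push ι)
    exact pen_sc_cast W h1 (by omega)
  have hps : W.push p ∈ SC W X Y 0 := by
    have h1 := pen_sc W (W.cor_push p)
    exact pen_sc_cast W h1 (by omega)
  have his : W.push (ι ≫ p) ∈ SC W X V 1 := by
    have h1 := pen_sc W (W.cor_push (ι ≫ p))
    exact pen_sc_cast W h1 (by omega)
  have hιu : (W.pull ι).toLinearMap ∈ SC W V Y 0 := pen_sc W (W.cor_pull ι)
  have hiu : (W.pull (ι ≫ p)).toLinearMap ∈ SC W V X 0 := pen_sc W (W.cor_pull (ι ≫ p))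
  have hmh : LinearMap.mulLeft K h ∈ SC W X X 1 := by
    have h1 := pen_sc W (W.cor_mul P.h_alg)
    exact pen_sc_cast W h1 (by norm_num)
  have hgι : g ∘ₗ W.push ι ∈ SC W Y V 0 := pen_sc_cast W (pen_comp W hg hιs) (by norm_num)
  have he : (W.pull ι).toLinearMap ∘ₗ (g ∘ₗ W.push ι) ∈ SC W V V 0 :=
    pen_sc_cast W (pen_comp W hιu hgι) (by norm_num)
  have hA : W.push p ∘ₗ (g ∘ₗ W.push ι) ∈ SC W X V 0 :=
    pen_sc_cast W (pen_comp W hps hgι) (by norm_num)
  have hD : LinearMap.mulLeft K h ∘ₗ (W.push p ∘ₗ (g ∘ₗ W.push ι)) -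
      (q : K) • (W.push (ι ≫ p) ∘ₗ ((W.pull ι).toLinearMap ∘ₗ (g ∘ₗ W.push ι))) ∈
      SC W X V 1 :=
    Submodule.sub_mem _ (pen_sc_cast W (pen_comp W hmh hA) (by norm_num))
      (Submodule.smul_mem _ _ (pen_sc_cast W (pen_comp W his he) (by norm_num)))
  refine ⟨(q : K)⁻¹ • (W.push p ∘ₗ (g ∘ₗ W.push ι) - W.push (ι ≫ p) ∘ₗ (Λ2 ∘ₗ
    ((W.pull (ι ≫ p)).toLinearMap ∘ₗ (LinearMap.mulLeft K h ∘ₗ (W.push p ∘ₗ (g ∘ₗ W.push ι)) -
      (q : K) • (W.push (ι ≫ p) ∘ₗ ((W.pull ι).toLinearMap ∘ₗ (g ∘ₗ W.push ι))))))), ?_, ?_⟩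
  · refine Submodule.smul_mem _ _ (Submodule.sub_mem _ hA ?_)
    exact pen_sc_cast W (pen_comp W his (pen_comp W (pen_sc W hΛ) (pen_comp W hiu hD)))
      (by norm_num)
  · intro m hm v hv
    have hq : (q : K) ≠ 0 := by exact_mod_cast P.q_ne
    have h2 : η * g (W.push ι v) = W.push ι v := by
      obtain ⟨x, _, hx⟩ := pen_one P hn hm hv
      rw [hx, hgη]
    have hw : g (W.push ι v) ∈ W.gr Y m := by
      have h3 := pen_gr W hgι (m := m) hv (by omega)
      exact h3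
    obtain ⟨a, ha, b, hb1, hb2, hab⟩ := P.spanY m (by omega) _ hw
    have hev : W.pull ι (g (W.push ι v)) = W.pull (ι ≫ p) a := by
      rw [hab, map_add, map_mul, P.pull_η, zero_mul, add_zero, ← W.pull_comp]
    have hAv : W.push p (g (W.push ι v)) = (q : K) • a + h * b := by
      rw [hab, map_add, pen_pp P, pen_pη P]
    have hdv : h * W.push p (g (W.push ι v)) -
        (q : K) • W.push (ι ≫ p) (W.pull ι (g (W.push ι v))) = h ^ 2 * b := by
      rw [hev, hAv, pen_ii P, mul_add, mul_smul_comm, pow_two, mul_assoc]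
      abel
    have hΛv : Λ2 (W.pull (ι ≫ p) (h ^ 2 * b)) = W.pull (ι ≫ p) b := by
      rw [map_mul, map_pow]
      by_cases h2m : 2 ≤ m
      · exact hΛ2 (m - 2) (by omega) _ (W.pull_gr _ (hb1 h2m))
      · rw [hb2 (by omega), map_zero, mul_zero, map_zero]
    have hsv : ((q : K)⁻¹ • (W.push p ∘ₗ (g ∘ₗ W.push ι) - W.push (ι ≫ p) ∘ₗ (Λ2 ∘ₗ
        ((W.pull (ι ≫ p)).toLinearMap ∘ₗ (LinearMap.mulLeft K h ∘ₗ (W.push p ∘ₗ
        (g ∘ₗ W.push ι)) - (q : K) • (W.push (ι ≫ p) ∘ₗ ((W.pull ι).toLinearMap ∘ₗ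
        (g ∘ₗ W.push ι))))))) : W.H V →ₗ[K] W.H X) v = a := by
      rw [LinearMap.smul_apply, LinearMap.sub_apply, LinearMap.comp_apply, LinearMap.comp_apply,
        LinearMap.comp_apply, LinearMap.comp_apply, LinearMap.comp_apply, LinearMap.sub_apply,
        LinearMap.comp_apply, LinearMap.smul_apply, LinearMap.comp_apply, LinearMap.comp_apply,
        LinearMap.comp_apply, LinearMap.comp_apply, LinearMap.mulLeft_apply]
      show (q : K)⁻¹ • (W.push p (g (W.push ι v)) - W.push (ι ≫ p) (Λ2 (W.pull (ι ≫ p)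
        (h * W.push p (g (W.push ι v)) -
          (q : K) • W.push (ι ≫ p) (W.pull ι (g (W.push ι v))))))) = a
      rw [hdv, hΛv, pen_ii P, hAv, add_sub_cancel_right, smul_smul, inv_mul_cancel₀ hq, one_smul]
    rw [hsv, ← pen_ii P a, ← hev, pen_push_comp, pen_ιι P, h2, ← pen_push_comp]

/-- Step (4). -/
theorem pen_four (hT : StTrp2) (hn : 2 ≤ W.dim X) {s : W.H V →ₗ[K] W.H X}
    (hs : s ∈ SC W X V 0)
    (hs2 : ∀ m, m + 1 ≤ W.dim X → ∀ v ∈ W.gr V m, h * s v = W.push (ι ≫ p) v) :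
    ∃ s' ∈ SC W V X (-1), ∀ d, W.dim X ≤ d + 1 → ∀ x ∈ W.gr X d,
      s' (h * x) = W.pull (ι ≫ p) x := by
  have hdV := P.dimV
  obtain ⟨s', h1, h2⟩ := pen_trp W hT hs
  have h1' : s' ∈ SC W V X (-1) := pen_sc_cast W h1 (by omega)
  refine ⟨s', h1', fun d hd x hx => ?_⟩
  have hh2 : h ∈ W.gr X (2 * 1) := W.alg_gr P.h_alg
  have hhx : h * x ∈ W.gr X (2 * 1 + d) := SetLike.mul_mem_graded hh2 hx
  have h3 : s' (h * x) ∈ W.gr V d := pen_gr W h1' hhx (by push_cast; ring)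
  refine W.ext_tr fun v => ?_
  refine W.ind (P := fun v => W.tr V (s' (h * x) * v) = W.tr V (W.pull (ι ≫ p) x * v)) v
    (by simp) (fun m v hv => ?_) (fun r s hr hs => by simp only [mul_add, map_add, hr, hs])
  by_cases hm : m + 1 ≤ W.dim X
  · rw [h2, pen_central W P.h_alg x, mul_assoc, hs2 m hm v hv, pen_tr]
  · rw [W.tr_gr (SetLike.mul_mem_graded h3 hv) (by omega),
      W.tr_gr (SetLike.mul_mem_graded (W.pull_gr (ι ≫ p) hx) hv) (by omega)]

end

theorem tPen (h1 : StTrp2) (h2 : StLam2) : StPen := by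
  intro K _ _ 𝒱 _ _ W X Y V p ι h η q P hn hg hLV hBV a j hj haj
  obtain ⟨g, hg1, hg2⟩ := hg
  have hdV := P.dimV
  have hhV : W.pull (ι ≫ p) h ∈ W.Alg V 1 := W.alg_pull _ P.h_alg
  obtain ⟨Λ2, hΛ1, hΛ2⟩ := h2 K 𝒱 W V _ hhV hLV hBV
  obtain ⟨s, hs1, hs2⟩ := pen_three P hn hg1 hg2 hΛ1 hΛ2
  obtain ⟨s', hs'1, hs'2⟩ := pen_four P h1 hn hs1 hs2
  rw [W.lefschetz_iff] at hBV
  obtain ⟨θ, hθ1, hθ2⟩ := hBV a (j - 1) (by omega)
  refine ⟨s ∘ₗ (θ ∘ₗ s'), ?_, ?_⟩
  · have h3 := pen_comp W hs1 (pen_comp W (pen_sc W hθ1) hs'1)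
    exact pen_sc_cast W h3 (by omega)
  · intro x hx
    have hh2 : h ∈ W.gr X 2 := W.alg_gr P.h_alg
    have h3 : h ^ j * x = h * (h ^ (j - 1) * x) := by
      rw [← mul_assoc, ← pow_succ', show j - 1 + 1 = j by omega]
    have h4 : h ^ (j - 1) * x ∈ W.gr X (a + 2 * (j - 1)) := W.pow_gr hh2 (j - 1) hx
    have h5 : s' (h ^ j * x) = (W.pull (ι ≫ p) h) ^ (j - 1) * W.pull (ι ≫ p) x := by
      rw [h3, hs'2 _ (by omega) _ h4, map_mul, map_pow]
    have hix : W.pull (ι ≫ p) x ∈ W.gr V a := W.pull_gr _ hx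
    rw [LinearMap.comp_apply, LinearMap.comp_apply, h5, hθ2 _ hix]
    have h6 : h * s (W.pull (ι ≫ p) x) = h * x := by
      rw [hs2 a (by omega) _ hix, pen_ii P]
    have h7 : s (W.pull (ι ≫ p) x) ∈ W.gr X a := pen_gr W hs1 hix (by ring)
    have h8 : h ^ j * (s (W.pull (ι ≫ p) x) - x) = 0 := by
      have h9 : h ^ j = h ^ (j - 1) * h := by rw [← pow_succ, show j - 1 + 1 = j by omega]
      rw [h9, mul_assoc, mul_sub, h6, sub_self, mul_zero]
    have h10 : s (W.pull (ι ≫ p) x) - x ∈ W.gr X (W.dim X - j) := by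
      rw [show W.dim X - j = a by omega]
      exact Submodule.sub_mem _ h7 hx
    exact sub_eq_zero.1 (P.hard.1 j (by omega) _ h10 h8)

end Pool.Agent.Lib.MP_4ca46c_ag.T2
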