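import Pool.Agent.Lib.MP_4ca46c_ag.T2.SpecA
import Pool.Agent.Lib.MP_4ca46c_ag.Sign.Rat
import Pool.Agent.Lib.MP_4ca46c_ag.Sign.OpV

/-!
# The Lefschetz conjecture with coefficients in `K` and with rational coefficients
-/

namespace Pool.Agent.Lib.MP_4ca46c_ag.T2

open CategoryTheory Limits AlgebraicGeometry MonoidalCategory CartesianMonoidalCategory Finset
open Pool.Agent.Lib.MP_4ca46c_ag.Sign Pool.Agent.Lib.MP_4ca46c_ag.Hyp
open Pool.Agent.Lib.MP_4ca46c_ag.Std Pool.Agent.Lib.MP_4ca46c_ag.Div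

/-- **A2.06.** Rational coefficients. -/
theorem tRatL : StRatL := by
  intro K _ _ 𝒱 _ _ W X h hh hHL hθ
  have hd := opv_data W hh hHL.1 hHL.2
  have hrat := tRat K (W.H X) (W.dim X) (opv_pr W X) (LinearMap.mulLeft K h)
    (fun r => W.Cor X X r) hd.lef hd.ratA hd.L_mem hd.trace (by
      intro i hi
      obtain ⟨θ, hθ1, hθ2⟩ := hθ i (W.dim X - i) (by omega) (by omega)
      refine ⟨θ, hθ1, W.hom_ext fun l x hx => ?_⟩
      rw [Module.End.mul_apply, Module.End.mul_apply, opv_apply W _ hx]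
      split_ifs with hl
      · have hl' : l = i := by exact_mod_cast hl.symm
        subst hl'
        rw [opv_pow]
        exact hθ2 x hx
      · rw [map_zero, map_zero])
  refine W.lefschetz_iff.2 fun i j hij => ?_
  rcases Nat.eq_zero_or_pos j with rfl | hj
  · refine ⟨LinearMap.id, ?_, fun x hx => by rw [pow_zero, one_mul]; rfl⟩
    have h0 : (-((0 : ℕ) : ℤ)) = 0 := by simp
    rw [h0]
    exact W.cor_id X
  · obtain ⟨θ, h1, h2⟩ := hrat i (by omega)
    have hj' : W.dim X - i = j := by omega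
    rw [hj'] at h1 h2
    refine ⟨θ, h1, fun x hx => ?_⟩
    have h3 := LinearMap.congr_fun h2 x
    rw [Module.End.mul_apply, Module.End.mul_apply, (opv_fix W).2 hx, opv_pow] at h3
    exact h3

end Pool.Agent.Lib.MP_4ca46c_ag.T2
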