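import Pool.Agent.Lib.MP_4ca46c_ag.T2.SpecA
import Pool.Agent.Lib.MP_4ca46c_ag.Div.LI0

/-!
# The Lefschetz conjecture in dimension at most one
-/

set_option autoImplicit false

namespace Pool.Agent.Lib.MP_4ca46c_ag.T2

open CategoryTheory Limits AlgebraicGeometry MonoidalCategory CartesianMonoidalCategory Finset
  TensorProduct
open Pool.Agent.Lib.MP_4ca46c_ag.Sign Pool.Agent.Lib.MP_4ca46c_ag.Hyp
open Pool.Agent.Lib.MP_4ca46c_ag.Std Pool.Agent.Lib.MP_4ca46c_ag.Div

section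

variable {K : Type} [Field K] [CharZero K] {𝒱 : Type 1} [Category.{0} 𝒱]
  [CartesianMonoidalCategory 𝒱] (W : Geo.WeilCohomology K 𝒱)

theorem small_one_ne (X : 𝒱) : (1 : W.H X) ≠ 0 := by
  obtain ⟨p, _, hp1⟩ := W.exists_pt X
  intro h
  rw [← one_mul p, h, zero_mul, map_zero] at hp1
  exact zero_ne_one hp1

theorem small_pow {X : 𝒱} {h : W.H X} (hA : h ^ W.dim X ∈ W.Alg X (W.dim X))
    (ht : W.tr X (h ^ W.dim X) = 0) : h ^ W.dim X = 0 := by
  refine W.duality _ fun y => ?_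
  refine W.ind (P := fun y => W.tr X (h ^ W.dim X * y) = 0) y (by simp) (fun m b hb => ?_)
    (fun r s hr hs => by rw [mul_add, map_add, hr, hs, add_zero])
  by_cases hm : m = 0
  · subst hm
    obtain ⟨a, rfl⟩ := W.connected hb
    rw [← Algebra.commutes, ← Algebra.smul_def, map_smul, ht, smul_zero]
  · exact W.tr_gr (SetLike.mul_mem_graded (W.alg_gr hA) hb) (by omega)

end

theorem tSmall : StSmall := by
  intro K _ _ 𝒱 _ _ W X h hA hL hd
  have hpow : h ^ W.dim X ∈ W.Alg X (W.dim X) := li0_pow W hA _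
  obtain ⟨c, hc⟩ := W.alg_tr hpow
  have hc0 : c ≠ 0 := by
    rintro rfl
    rw [Rat.cast_zero] at hc
    have h0 := small_pow W hpow hc
    have h2 : (1 : W.H X) ∈ W.gr X (W.dim X - W.dim X) := by
      rw [Nat.sub_self]
      exact W.alg_gr (W.alg_one X)
    exact small_one_ne W X (hL.1 (W.dim X) le_rfl 1 h2 (by rw [h0, zero_mul]))
  refine W.lefschetz_iff.2 fun i j hij => ?_
  rcases Nat.eq_zero_or_pos i with rfl | hi
  · exact tLI0 K 𝒱 W X h c j hA hc0 hc (by omega)
  · have hj : j = 0 := by omega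
    subst hj
    refine ⟨LinearMap.id, ?_, fun x _ => ?_⟩
    · have h3 := W.cor_id X
      rwa [Nat.cast_zero, neg_zero]
    · rw [pow_zero, one_mul]
      rfl

end Pool.Agent.Lib.MP_4ca46c_ag.T2
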