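import Pool.Agent.Lib.MP_4ca46c_ag.T2.SpecA
import Pool.Agent.Lib.MP_4ca46c_ag.Sign.AB

/-!
# Von Neumann regularity from the relation on `V ⊗ V`
-/

namespace Pool.Agent.Lib.MP_4ca46c_ag.T2

open Module TensorProduct Polynomial
open Pool.Agent.Lib.MP_4ca46c_ag.Sign

section

variable {K V : Type} [Field K] [CharZero K] [AddCommGroup V] [Module K V]
  [FiniteDimensional K V]

omit [CharZero K] [FiniteDimensional K V] in
/-- Polynomials in an operator of degree zero. -/
theorem vr_aeval (G : GrAlg K V) {y : End K V} (hy : y ∈ G.R 0) (u : K[X]) :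
    aeval y u ∈ G.R 0 := by
  rw [aeval_eq_sum_range]
  exact Submodule.sum_mem _ fun i _ => Submodule.smul_mem _ _ (G.pow_mem hy i)

omit [CharZero K] in
/-- Fitting: an operator of degree zero with nonzero trace has a nonzero idempotent multiple. -/
theorem vr_fitting (G : GrAlg K V) {y : End K V} (hy : y ∈ G.R 0)
    (ht : LinearMap.trace K V y ≠ 0) :
    ∃ q ∈ G.R 0, q * y * (q * y) = q * y ∧ q * y = y * q ∧ q * y ≠ 0 := by
  have hm : minpoly K y ≠ 0 := minpoly.ne_zero (Algebra.IsIntegral.isIntegral (R := K) y)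
  obtain ⟨u, r, s, k, h1, h2⟩ := exists_split _ hm
  have h1' := congrArg (fun z : K[X] => aeval y z) h1
  have h2' := congrArg (fun z : K[X] => aeval y z) h2
  simp only [map_mul, map_sub, map_one, map_add, minpoly.aeval, mul_zero, add_zero, map_pow,
    aeval_X] at h1' h2'
  have hc : Commute (aeval y u) y := by
    have h3 : Commute (aeval y u) (aeval y (X : K[X])) := by
      unfold Commute SemiconjBy
      rw [← map_mul, ← map_mul, mul_comm]
    rwa [aeval_X] at h3
  have e1 : aeval y u * y ^ k * y = aeval y u * y ^ (k + 1) := by rw [mul_assoc, ← pow_succ]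
  refine ⟨aeval y u * y ^ k, G.mul_mem' (vr_aeval G hy u) (G.pow_mem hy k) (add_zero _), ?_, ?_, ?_⟩
  · rw [e1]
    rw [mul_sub, mul_one, sub_eq_zero] at h1'
    exact h1'.symm
  · rw [mul_assoc, ← pow_succ, pow_succ', ← mul_assoc, hc.eq, mul_assoc]
  · rw [e1]
    intro h0
    rw [h0, mul_zero] at h2'
    have h3 : IsNilpotent y := ⟨k + 1, h2'⟩
    exact ht (LinearMap.isNilpotent_trace_of_isNilpotent h3).eq_zero

omit [CharZero K] in
/-- The rank of an idempotent is its trace. -/
theorem vr_rank {e : End K V} (he : e * e = e) :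
    LinearMap.trace K V e = (finrank K (LinearMap.range e) : K) := by
  have h1 : IsIdempotentElem e := he
  exact LinearMap.IsProj.trace (LinearMap.IsIdempotentElem.isProj_range e h1)

/-- The choice of `g`. -/
theorem vr_choice (G : GrAlg K V) {η : End K V} (hη : η ∈ G.R 1) :
    ∃ g ∈ G.R (-1), g * η * g = g ∧ η * (1 - g * η) ∈ G.N 1 := by
  let S : Set (End K V) := {e | e * e = e ∧ ∃ g ∈ G.R (-1), e = g * η}
  have hS : S.Nonempty := ⟨0, by rw [mul_zero], 0, Submodule.zero_mem _, by rw [zero_mul]⟩
  obtain ⟨e, ⟨hee, g, hg, heg⟩, hmax⟩ := WellFounded.has_min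
    (measure fun e : End K V => finrank K V - finrank K (LinearMap.range e)).wf S hS
  subst heg
  have hgη : g * η ∈ G.R 0 := G.mul_mem' hg hη (by norm_num)
  have hf : (1 - g * η) ∈ G.R 0 := Submodule.sub_mem _ G.one_mem hgη
  set f : End K V := 1 - g * η with hfdef
  have hff : f * f = f := by
    rw [hfdef, mul_sub, mul_one, sub_mul, one_mul, hee, sub_self, sub_zero]
  have hef : g * η * f = 0 := by rw [hfdef, mul_sub, mul_one, hee, sub_self]
  have hfe : f * (g * η) = 0 := by rw [hfdef, sub_mul, one_mul, hee, sub_self]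
  have hηf : η * f ∈ G.R 1 := G.mul_mem' hη hf (by norm_num)
  have hN : η * f ∈ G.N 1 := by
    refine ⟨hηf, fun b hb => ?_⟩
    by_contra hne
    have hbη : b * (η * f) ∈ G.R 0 := G.mul_mem' hb hηf (by norm_num)
    have hy : f * (b * (η * f)) ∈ G.R 0 := G.mul_mem' hf hbη (by norm_num)
    have htr : LinearMap.trace K V (f * (b * (η * f))) ≠ 0 := by
      rw [LinearMap.trace_mul_comm, mul_assoc, mul_assoc, hff]
      exact hne
    obtain ⟨q, hq, hid, hcom, hne0⟩ := vr_fitting G hy htr
    set y : End K V := f * (b * (η * f)) with hydef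
    have hyf : y * f = y := by rw [hydef, mul_assoc, mul_assoc, mul_assoc, hff]
    have hfy : f * y = y := by rw [hydef, ← mul_assoc, hff]
    have h1 : g * η * (q * y) = 0 := by
      rw [hcom, ← hfy, mul_assoc f, ← mul_assoc (g * η), hef, zero_mul]
    have h2 : q * y * (g * η) = 0 := by
      rw [← hyf, mul_assoc q, mul_assoc y, hfe, mul_zero, mul_zero]
    have hsum : (g * η + q * y) * (g * η + q * y) = g * η + q * y := by
      rw [mul_add, add_mul, add_mul, hee, hid, h1, h2, add_zero, zero_add]
    have hg' : q * f * b ∈ G.R (-1) :=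
      G.mul_mem' (G.mul_mem' hq hf (add_zero 0)) hb (by norm_num)
    have hmem : g * η + q * y ∈ S := by
      refine ⟨hsum, g + q * f * b - q * f * b * η * g, ?_, ?_⟩
      · exact Submodule.sub_mem _ (Submodule.add_mem _ hg hg')
          (G.mul_mem' (G.mul_mem' hg' hη rfl) hg (by norm_num))
      · rw [hydef, hfdef]
        noncomm_ring
    refine hmax _ hmem ?_
    change finrank K V - finrank K (LinearMap.range (g * η + q * y)) <
      finrank K V - finrank K (LinearMap.range (g * η))
    have h3 : finrank K (LinearMap.range (g * η + q * y)) =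
        finrank K (LinearMap.range (g * η)) + finrank K (LinearMap.range (q * y)) := by
      have h4 := vr_rank hsum
      rw [map_add, vr_rank hee, vr_rank hid] at h4
      exact_mod_cast h4.symm
    have h5 : finrank K (LinearMap.range (g * η + q * y)) ≤ finrank K V :=
      Submodule.finrank_le _
    have h6 : 0 < finrank K (LinearMap.range (q * y)) := by
      rw [Nat.pos_iff_ne_zero]
      intro h7
      rw [Submodule.finrank_eq_zero, LinearMap.range_eq_bot] at h7
      exact hne0 h7
    omega
  refine ⟨g * η * g, G.mul_mem' hgη hg (zero_add _), ?_, ?_⟩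
  · have h1 : g * η * g * η * (g * η * g) = g * η * (g * η) * (g * η) * g := by noncomm_ring
    rw [h1, hee, hee]
  · have h1 : g * η * g * η = g * η * (g * η) := by noncomm_ring
    rw [h1, hee]
    exact hN

omit [CharZero K] [FiniteDimensional K V] in
/-- A tensor square which vanishes. -/
theorem vr_sq {A : End K V} (h : TensorProduct.map A A = 0) : A = 0 := by
  refine LinearMap.ext fun x => ?_
  rw [LinearMap.zero_apply, ← Module.forall_dual_apply_eq_zero_iff K]
  intro φ
  have h1 := LinearMap.congr_fun h (x ⊗ₜ[K] x)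
  rw [TensorProduct.map_tmul, LinearMap.zero_apply] at h1
  have h2 := congrArg (fun z => TensorProduct.lid K K (TensorProduct.map φ φ z)) h1
  simp only [TensorProduct.map_tmul, TensorProduct.lid_tmul, map_zero, smul_eq_mul,
    mul_self_eq_zero] at h2
  exact h2

omit [CharZero K] in
/-- An operator on `V ⊗ V` which vanishes on all degrees. -/
theorem vr_zero (G : GrAlg K V) (Z : GrAlg K (V ⊗[K] V)) (n : ℕ) (L : End K V)
    (hS : Square G Z n L) {A : End K (V ⊗[K] V)} (h : ∀ c : ℤ, A * Z.pr c = 0) : A = 0 := by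
  have h1 : ∀ i j : ℤ, A * TensorProduct.map (G.pr i) (G.pr j) = 0 := by
    intro i j
    by_cases hi : i ∈ Finset.Icc (0 : ℤ) (2 * n)
    · have h2 : Z.pr (i + j) * TensorProduct.map (G.pr i) (G.pr j) =
          TensorProduct.map (G.pr i) (G.pr j) := by
        rw [hS.prZ, prT, Finset.sum_mul, Finset.sum_eq_single_of_mem i hi]
        · rw [← TensorProduct.map_mul, G.pr_idem, add_sub_cancel_left, G.pr_idem]
        · intro k _ hk
          rw [← TensorProduct.map_mul, G.pr_ne hk, TensorProduct.map_zero_left]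
      rw [← h2, ← mul_assoc, h, zero_mul]
    · rw [Finset.mem_Icc, not_and_or] at hi
      rw [hS.lef.out i (by omega), TensorProduct.map_zero_left, mul_zero]
  refine TensorProduct.ext' fun x y => ?_
  have hx : x = ∑ i ∈ Finset.Icc (0 : ℤ) (2 * n), G.pr i x := by
    conv_lhs => rw [← Module.End.one_apply (R := K) x, ← hS.lef.sum]
    rw [LinearMap.sum_apply]
  have hy : y = ∑ i ∈ Finset.Icc (0 : ℤ) (2 * n), G.pr i y := by
    conv_lhs => rw [← Module.End.one_apply (R := K) y, ← hS.lef.sum]
    rw [LinearMap.sum_apply]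
  rw [LinearMap.zero_apply, hx, hy, TensorProduct.sum_tmul, map_sum]
  refine Finset.sum_eq_zero fun i _ => ?_
  rw [TensorProduct.tmul_sum, map_sum]
  refine Finset.sum_eq_zero fun j _ => ?_
  have h3 := LinearMap.congr_fun (h1 i j) (x ⊗ₜ[K] y)
  rw [Module.End.mul_apply, TensorProduct.map_tmul, LinearMap.zero_apply] at h3
  exact h3

end

/-- **A2.01 (linear algebra).** -/
theorem tVR : StVR := by
  intro K V _ _ _ _ _ G Z n L η hS hη hηη hrel
  obtain ⟨g, hg, hgg, hN⟩ := vr_choice G hη
  refine ⟨g, hg, ?_⟩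
  have hgη : g * η ∈ G.R 0 := G.mul_mem' hg hη (by norm_num)
  have hηg : η * g ∈ G.R 0 := G.mul_mem' hη hg (by norm_num)
  have hf : (1 - g * η) ∈ G.R 0 := Submodule.sub_mem _ G.one_mem hgη
  have hf' : (1 - η * g) ∈ G.R 0 := Submodule.sub_mem _ G.one_mem hηg
  have hee : g * η * (g * η) = g * η := by rw [← mul_assoc, hgg]
  have hee' : η * g * (η * g) = η * g := by rw [mul_assoc, ← mul_assoc g, hgg]
  set f : End K V := 1 - g * η with hfdef
  set f' : End K V := 1 - η * g with hf'def
  have hff : f * f = f := by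
    rw [hfdef, mul_sub, mul_one, sub_mul, one_mul, hee, sub_self, sub_zero]
  have hff' : f' * f' = f' := by
    rw [hf'def, mul_sub, mul_one, sub_mul, one_mul, hee', sub_self, sub_zero]
  have hηf : η * f = f' * η := by rw [hfdef, hf'def]; noncomm_ring
  set F : End K (V ⊗[K] V) := TensorProduct.map f f with hF
  set F' : End K (V ⊗[K] V) := TensorProduct.map f' f' with hF'
  have hFF : F * F = F := by rw [hF, ← TensorProduct.map_mul, hff]
  have hFF' : F' * F' = F' := by rw [hF', ← TensorProduct.map_mul, hff']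
  have hFR : F ∈ Z.R 0 := by
    have h1 := hS.tensor 0 0 f hf f hf
    rwa [add_zero] at h1
  have hFR' : F' ∈ Z.R 0 := by
    have h1 := hS.tensor 0 0 f' hf' f' hf'
    rwa [add_zero] at h1
  set A : End K (V ⊗[K] V) := TensorProduct.map (η * f) (η * f) with hA
  have hA1 : TensorProduct.map η η * F = A := by rw [hF, ← TensorProduct.map_mul]
  have hA2 : F' * TensorProduct.map η η = A := by rw [hF', ← TensorProduct.map_mul, ← hηf]
  have hA3 : A * F = A := by rw [← hA1, mul_assoc, hFF]
  have hA4 : F' * A = A := by rw [← hA2, ← mul_assoc, hFF']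
  have hd1 : LL η * F ∈ Z.N 1 := by
    have h1 : LL η * F = TensorProduct.map (η * f) f + TensorProduct.map f (η * f) := by
      rw [LL, hF, add_mul, ← TensorProduct.map_mul, ← TensorProduct.map_mul, one_mul]
    rw [h1]
    refine Submodule.add_mem _ ?_ ?_
    · have h2 := ((tAB K V G Z n L hS 1 0 (η * f) hN.1 f hf).1) hN
      rwa [add_zero] at h2
    · have h2 := ((tAB K V G Z n L hS 0 1 f hf (η * f) hN.1).2.1) hN
      rwa [zero_add] at h2
  have hN' : f' * η ∈ G.N 1 := hηf ▸ hN
  have hd2 : F' * LL η ∈ Z.N 1 := by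
    have h1 : F' * LL η = TensorProduct.map (f' * η) f' + TensorProduct.map f' (f' * η) := by
      rw [LL, hF', mul_add, ← TensorProduct.map_mul, ← TensorProduct.map_mul, mul_one]
    rw [h1]
    refine Submodule.add_mem _ ?_ ?_
    · have h2 := ((tAB K V G Z n L hS 1 0 (f' * η) hN'.1 f' hf').1) hN'
      rwa [add_zero] at h2
    · have h2 := ((tAB K V G Z n L hS 0 1 f' hf' (f' * η) hN'.1).2.1) hN'
      rwa [zero_add] at h2
  have hA0 : A = 0 := by
    refine vr_zero G Z n L hS fun c => ?_
    obtain ⟨w, hw, hR⟩ := hrel c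
    set a : End K (V ⊗[K] V) := F * w * (LL η * F) with ha
    set b : End K (V ⊗[K] V) := F' * LL η * (w * F') with hb
    have haN : a ∈ Z.N 0 :=
      GrAlg.N_left hd1 (Z.mul_mem' hFR hw (zero_add _)) (by norm_num)
    have hbN : b ∈ Z.N 0 :=
      GrAlg.N_right hd2 (Z.mul_mem' hw hFR' (add_zero _)) (by norm_num)
    have hcF : F * Z.pr c = Z.pr c * F := Z.comm0 hFR c
    have hca : a * Z.pr c = Z.pr c * a := Z.comm0 haN.1 c
    have key : A * Z.pr c = A * Z.pr c * a - b * (A * Z.pr c) := by
      have h1 := congrArg (fun z => F' * z * F) hR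
      have h2 : F' * ((TensorProduct.map η η * w * LL η - LL η * w * TensorProduct.map η η) *
          Z.pr c) * F = A * a * Z.pr c - b * (A * Z.pr c) := by
        have e1 : F' * ((TensorProduct.map η η * w * LL η - LL η * w * TensorProduct.map η η) *
            Z.pr c) * F = (F' * TensorProduct.map η η) * w * LL η * (Z.pr c * F) -
              F' * LL η * w * TensorProduct.map η η * (Z.pr c * F) := by
          simp only [mul_sub, sub_mul, mul_assoc]
        rw [e1, ← hcF, hA2]
        have e2 : A * w * LL η * (F * Z.pr c) = A * a * Z.pr c := by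
          rw [ha]
          calc A * w * LL η * (F * Z.pr c) = A * F * w * LL η * (F * Z.pr c) := by rw [hA3]
            _ = A * (F * w * (LL η * F)) * Z.pr c := by simp only [mul_sub, sub_mul, mul_assoc]
        have e3 : F' * LL η * w * TensorProduct.map η η * (F * Z.pr c) =
            b * (A * Z.pr c) := by
          rw [hb]
          calc F' * LL η * w * TensorProduct.map η η * (F * Z.pr c) =
              F' * LL η * w * (TensorProduct.map η η * F) * Z.pr c := by simp only [mul_sub, sub_mul, mul_assoc]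
            _ = F' * LL η * w * (F' * A) * Z.pr c := by rw [hA1, hA4]
            _ = F' * LL η * (w * F') * (A * Z.pr c) := by simp only [mul_sub, sub_mul, mul_assoc]
        rw [e2, e3]
      have h3 : F' * (TensorProduct.map η η * Z.pr c) * F = A * Z.pr c := by
        have e1 : F' * (TensorProduct.map η η * Z.pr c) * F =
            (F' * TensorProduct.map η η) * (Z.pr c * F) := by simp only [mul_sub, sub_mul, mul_assoc]
        rw [e1, ← hcF, hA2, ← mul_assoc, hA3]
      rw [h2, h3] at h1
      rw [mul_assoc A a (Z.pr c), hca, ← mul_assoc A (Z.pr c) a] at h1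
      exact h1.symm
    have hpow : ∀ m : ℕ, A * Z.pr c * (1 - a) ^ m = (-b) ^ m * (A * Z.pr c) := by
      intro m
      induction m with
      | zero => rw [pow_zero, pow_zero, mul_one, one_mul]
      | succ m ih =>
        rw [pow_succ, ← mul_assoc, ih, mul_assoc, mul_sub, mul_one]
        have h1 : A * Z.pr c - A * Z.pr c * a = -b * (A * Z.pr c) := by
          have h3 : -b * (A * Z.pr c) = -(b * (A * Z.pr c)) :=
            neg_mul b (A * Z.pr c)
          rw [h3, eq_neg_iff_add_eq_zero]
          have h4 := sub_eq_zero.2 key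
          rw [← h4]
          abel
        rw [h1, ← mul_assoc, ← pow_succ]
    obtain ⟨m, hm⟩ := (GrAlg.N_nilpotent hbN).neg
    have h1 := hpow m
    rw [hm, zero_mul] at h1
    have h2 : IsUnit ((1 - a) ^ m) := ((GrAlg.N_nilpotent haN).isUnit_one_sub).pow m
    exact (h2.mul_left_eq_zero).1 h1
  have h1 := vr_sq hA0
  rw [hfdef, mul_sub, mul_one, sub_eq_zero, ← mul_assoc] at h1
  exact h1.symm

end Pool.Agent.Lib.MP_4ca46c_ag.T2
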